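import Mathlib

/-!
# Supercompact cardinals: the definitions used in the final statement
-/

set_option autoImplicit false

open Cardinal Set Order

namespace Pool.P2

/-- `U` is a `κ`-complete normal fine ultrafilter on `P_κ(S)` (the set of all subsets of `S` of
cardinality less than `κ`). -/
structure IsNormalFine (κ : Cardinal.{0}) {S : Type} (U : Ultrafilter (Set S)) : Prop where
  small : ∀ᶠ x : Set S in (U : Filter (Set S)), #x < κ
  fine : ∀ a : S, ∀ᶠ x in (U : Filter (Set S)), a ∈ x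
  complete : ∀ 𝒜 : Set (Set (Set S)), #𝒜 < κ → (∀ A ∈ 𝒜, A ∈ U) → ⋂₀ 𝒜 ∈ U
  normal : ∀ f : Set S → S, (∀ᶠ x in (U : Filter (Set S)), f x ∈ x) →
    ∃ a, ∀ᶠ x in (U : Filter (Set S)), f x = a

/-- `κ` is `lam`-supercompact. -/
def IsSupercompact (κ lam : Cardinal.{0}) : Prop :=
  ℵ₀ < κ ∧ ∃ (S : Type) (U : Ultrafilter (Set S)), #S = lam ∧ IsNormalFine κ U

end Pool.P2
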