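import Pool.Agent.Lib.MP_ad72f3_p2.FN

/-!
# Task K: the chain condition
-/

set_option autoImplicit false
set_option linter.unusedSectionVars false

open Cardinal Set Order

namespace Pool.P2

namespace K1Aux

/-- Nodes of the codes for the coordinates. -/
abbrev Nd (K Y Z : Type) : Type := Option (Z × (K → Option Y) × K)

/-- Arities of the nodes. -/
def Ar (K Y Z : Type) : Nd K Y Z → Type
  | none => Empty
  | some _ => K

/-- Codes for the coordinates in the closure. -/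
abbrev Tr (K Y Z : Type) : Type := WType (Ar K Y Z)

lemma mk_Tr_le {K Y Z : Type} {c : Cardinal.{0}} (hc : ℵ₀ ≤ c) (hcK : c ^ #K ≤ c)
    (hZ : #Z ≤ c) (hY : #Y ≤ c) (hK : #K ≤ c) : #(K → Option Y) ≤ c ∧ #(Tr K Y Z) ≤ c := by
  have h1 : #(Option Y) ≤ c := by
    rw [mk_option]
    exact add_le_of_le hc hY (one_le_aleph0.trans hc)
  have h2 : #(K → Option Y) ≤ c := by
    rw [← power_def]
    exact (power_le_power_right h1).trans hcK
  have h3 : #(Nd K Y Z) ≤ c := by
    rw [mk_option]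
    refine add_le_of_le hc ?_ (one_le_aleph0.trans hc)
    rw [mk_prod, mk_prod, lift_id, lift_id, lift_id, lift_id]
    exact mul_le_of_le hc hZ (mul_le_of_le hc h2 hK)
  refine ⟨h2, WType.cardinalMk_le_of_le ?_⟩
  have h4 : ∀ a : Nd K Y Z, c ^ #(Ar K Y Z a) ≤ c := by
    intro a
    cases a with
    | none =>
      show c ^ #Empty ≤ c
      rw [mk_empty, power_zero]
      exact one_le_aleph0.trans hc
    | some _ => exact hcK
  calc sum (fun a => c ^ #(Ar K Y Z a)) ≤ sum (fun _ : Nd K Y Z => c) := sum_le_sum _ _ h4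
    _ = #(Nd K Y Z) * c := by rw [sum_const']
    _ ≤ c := mul_le_of_le hc h3 le_rfl

section

variable {K I Y Z A : Type} (tp : A → Z) (f : A → I → Option Y) (e : A → K → Option I)

open Classical in
/-- The chosen element of the antichain extending the partial function `h` at the coordinates
`v`. -/
noncomputable def pick (z : Z) (h : K → Option Y) (v : K → Option I) : Option A :=
  if H : ∃ a, tp a = z ∧ ∀ k y, h k = some y → ∃ x, v k = some x ∧ f a x = some y
  then some H.choose else none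

/-- One step of the evaluation of codes. -/
noncomputable def ev1 : (Σ a : Nd K Y Z, Ar K Y Z a → Option I) → Option I
  | ⟨none, _⟩ => none
  | ⟨some (z, h, i), v⟩ => (pick tp f z h v).bind fun a => e a i

/-- The coordinate with a given code. -/
noncomputable def ev (w : Tr K Y Z) : Option I := WType.elim _ (ev1 tp f e) w

end

/-- The chain condition for partial functions. -/
theorem antichain_le {K I Y Z A : Type} {c : Cardinal.{0}} (hc : ℵ₀ ≤ c) (hcK : c ^ #K ≤ c)
    (hZ : #Z ≤ c) (hY : #Y ≤ c) (tp : A → Z) (f : A → I → Option Y)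
    (hf : ∀ a, #{x | f a x ≠ none} ≤ #K)
    (hA : ∀ a b, a ≠ b → tp a = tp b → ∃ x v w, f a x = some v ∧ f b x = some w ∧ v ≠ w) :
    #A ≤ c := by
  classical
  have hK : #K ≤ c := by
    have h2 : (2 : Cardinal.{0}) ≤ c := (natCast_lt_aleph0 (n := 2)).le.trans hc
    exact (cantor #K).le.trans ((power_le_power_right h2).trans hcK)
  obtain ⟨h1, h2⟩ := mk_Tr_le (K := K) (Y := Y) (Z := Z) hc hcK hZ hY hK
  -- enumerations of the domains
  have he : ∃ e : A → K → Option I, ∀ a x, f a x ≠ none → ∃ k, e a k = some x := by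
    have h3 : ∀ a, Nonempty ({x | f a x ≠ none} ↪ K) := fun a => hf a
    let g := fun a => (h3 a).some
    refine ⟨fun a k => if H : ∃ x, g a x = k then some H.choose.1 else none, ?_⟩
    intro a x hx
    refine ⟨g a ⟨x, hx⟩, ?_⟩
    have H : ∃ y, g a y = g a ⟨x, hx⟩ := ⟨_, rfl⟩
    have h4 : H.choose = ⟨x, hx⟩ := (g a).injective H.choose_spec
    show (if H : ∃ y, g a y = g a ⟨x, hx⟩ then some H.choose.1 else none) = some x
    rw [dif_pos H, h4]
  obtain ⟨e, he⟩ := he
  have key : ∀ a : A, ∃ q : Z × (K → Option Y) × (K → Tr K Y Z),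
      pick tp f q.1 q.2.1 (fun k => ev tp f e (q.2.2 k)) = some a := by
    intro a
    let base : Tr K Y Z := WType.mk none (fun x : Empty => x.elim)
    have h5 : ∀ k, ∃ r : Option Y × Tr K Y Z,
        (∀ y, r.1 = some y → ∃ x, ev tp f e r.2 = some x ∧ f a x = some y) ∧
        ∀ x, e a k = some x → (∃ T : Tr K Y Z, ev tp f e T = some x) →
          r.1 = f a x ∧ ev tp f e r.2 = some x := by
      intro k
      by_cases H : ∃ x, e a k = some x ∧ ∃ T : Tr K Y Z, ev tp f e T = some x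
      · obtain ⟨x, hx, T, hT⟩ := H
        refine ⟨(f a x, T), fun y hy => ⟨x, hT, hy⟩, ?_⟩
        intro x' hx' _
        rw [hx] at hx'
        obtain rfl := Option.some.inj hx'
        exact ⟨rfl, hT⟩
      · refine ⟨(none, base), fun y hy => absurd hy (by simp), ?_⟩
        intro x hx hT
        exact absurd ⟨x, hx, hT⟩ H
    choose r hr1 hr2 using h5
    refine ⟨(tp a, fun k => (r k).1, fun k => (r k).2), ?_⟩
    have H : ∃ b, tp b = tp a ∧ ∀ k y, (r k).1 = some y →
        ∃ x, ev tp f e (r k).2 = some x ∧ f b x = some y :=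
      ⟨a, rfl, fun k y hy => hr1 k y hy⟩
    have hp : pick tp f (tp a) (fun k => (r k).1) (fun k => ev tp f e (r k).2) =
        some H.choose := by
      unfold pick
      exact dif_pos H
    show pick tp f (tp a) (fun k => (r k).1) (fun k => ev tp f e (r k).2) = some a
    rw [hp]
    obtain ⟨hb1, hb2⟩ := H.choose_spec
    by_contra hne
    have hne2 : a ≠ H.choose := fun h6 => hne (by rw [← h6])
    obtain ⟨x, v, w, hv, hw, hvw⟩ := hA a H.choose hne2 hb1.symm
    obtain ⟨i, hi⟩ := he H.choose x (by rw [hw]; simp)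
    obtain ⟨k, hk⟩ := he a x (by rw [hv]; simp)
    have hT : ∃ T : Tr K Y Z, ev tp f e T = some x := by
      refine ⟨WType.mk (some (tp a, (fun k => (r k).1), i)) (fun k => (r k).2), ?_⟩
      show (pick tp f (tp a) (fun k => (r k).1) (fun k => ev tp f e (r k).2)).bind
        (fun a => e a i) = some x
      rw [hp]
      exact hi
    obtain ⟨h7, h8⟩ := hr2 k x hk hT
    rw [hv] at h7
    obtain ⟨x', h9, h10⟩ := hb2 k v h7
    rw [h8] at h9
    obtain rfl := Option.some.inj h9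
    rw [hw] at h10
    exact hvw (Option.some.inj h10).symm
  choose q hq using key
  have hinj : Function.Injective q := by
    intro a b hab
    have h3 := hq a
    rw [hab, hq b] at h3
    exact (Option.some.inj h3).symm
  refine (mk_le_of_injective hinj).trans ?_
  rw [mk_prod, mk_prod, lift_id, lift_id, lift_id, lift_id]
  refine mul_le_of_le hc hZ (mul_le_of_le hc h1 ?_)
  rw [← power_def]
  exact (power_le_power_right h2).trans hcK

end K1Aux

variable {Ω : Type} [LinearOrder Ω] [WellFoundedLT Ω] {X : Type} [D : PD Ω X]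

/-- Two conditions with the same stem, the same collapses, the same promises and the same `g`
whose Cohen parts and whose `g'` agree on the common part of their domains are compatible. -/
theorem compatible {p q : Cond Ω X} (hm : p.m = q.m) (hs : p.s = q.s) (hr : p.r = q.r)
    (hc : p.u.c = q.u.c) (hF : p.u.F = q.u.F) (hg : p.u.g = q.u.g)
    (hf : ∀ α v w, p.u.f α = some v → q.u.f α = some w → v = w)
    (hg' : ∀ d v w, p.u.g' d = some v → q.u.g' d = some w → v = w) :
    ∃ r : Cond Ω X, r ≤ p ∧ r ≤ q := by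
  let u : Up Ω X :=
    { c := p.u.c, f := fun α => (p.u.f α).or (q.u.f α), A := p.u.A ∩ q.u.A, F := p.u.F,
      g := p.u.g, g' := fun d => (p.u.g' d).or (q.u.g' d) }
  have hor : ∀ α v, u.f α = some v → p.u.f α = some v ∨ q.u.f α = some v := by
    intro α v h
    change (p.u.f α).or (q.u.f α) = some v at h
    rw [Option.or_eq_some_iff] at h
    rcases h with h | ⟨-, h⟩
    · exact Or.inl h
    · exact Or.inr h
  have hp : ∀ α v, p.u.f α = some v → u.f α = some v := by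
    intro α v h
    change (p.u.f α).or (q.u.f α) = some v
    rw [h]
    rfl
  have hq : ∀ α v, q.u.f α = some v → u.f α = some v := by
    intro α v h
    change (p.u.f α).or (q.u.f α) = some v
    cases h1 : p.u.f α with
    | none => simpa using h
    | some w => rw [hf α w v h1 h]; rfl
  have hp' : ∀ α v, p.u.g' α = some v → u.g' α = some v := by
    intro α v h
    change (p.u.g' α).or (q.u.g' α) = some v
    rw [h]
    rfl
  have hq' : ∀ α v, q.u.g' α = some v → u.g' α = some v := by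
    intro α v h
    change (p.u.g' α).or (q.u.g' α) = some v
    cases h1 : p.u.g' α with
    | none => simpa using h
    | some w => rw [hg' α w v h1 h]; rfl
  have hδ : ℵ₀ ≤ PD.del Ω X := D.κ_inacc.aleph0_lt.le.trans (κ_lt_del (X := X)).le
  have hV : u.V p.m := by
    refine ⟨p.up.hc, ?_, ?_, Filter.inter_mem p.up.hA q.up.hA, p.up.hF, p.up.hg, ?_⟩
    · intro α ρ σ h
      rcases hor _ _ h with h | h
      · exact p.up.ff α ρ σ h
      · exact q.up.ff α ρ σ h
    · intro m' hm' hlt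
      have h1 : {α | ∃ ρ σ, u.f α = some (ρ, σ) ∧ ρ < m'} ⊆
          {α | ∃ ρ σ, p.u.f α = some (ρ, σ) ∧ ρ < m'} ∪
          {α | ∃ ρ σ, q.u.f α = some (ρ, σ) ∧ ρ < m'} := by
        rintro α ⟨ρ, σ, h, hρ⟩
        rcases hor _ _ h with h | h
        · exact Or.inl ⟨ρ, σ, h, hρ⟩
        · exact Or.inr ⟨ρ, σ, h, hρ⟩
      exact (mk_le_mk_of_subset h1).trans ((mk_union_le _ _).trans
        (add_le_of_le (aleph0_lt_crd hm').le (p.up.fs m' hm' hlt)
          (q.up.fs m' hm' (hm ▸ hlt))))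
    · have h1 : pdom u.g' ⊆ pdom p.u.g' ∪ pdom q.u.g' := by
        intro d hd
        obtain ⟨v, hv⟩ := Option.ne_none_iff_exists'.1 hd
        change (p.u.g' d).or (q.u.g' d) = some v at hv
        rw [Option.or_eq_some_iff] at hv
        rcases hv with h | ⟨-, h⟩
        · left
          change p.u.g' d ≠ none
          rw [h]
          exact Option.some_ne_none _
        · right
          change q.u.g' d ≠ none
          rw [h]
          exact Option.some_ne_none _
      exact (mk_le_mk_of_subset h1).trans ((mk_union_le _ _).trans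
        (add_le_of_le hδ p.up.hg' q.up.hg'))
  let r : Cond Ω X := ⟨p.m, p.s, p.r, u, p.low, hV⟩
  refine ⟨r, Cond.Dle.le ⟨rfl, rfl, ?_, ?_⟩, Cond.Dle.le ⟨hm, hs, ?_, ?_⟩⟩
  · exact List.forall₂_same.2 fun c _ => Sub.refl c
  · exact ⟨Sub.refl _, fun α ρ σ h => ⟨ρ, hp _ _ h, rfl⟩, fun x hx _ => hx.1,
      fun _ _ _ => Sub.refl _, Sub.refl _, hp'⟩
  · change List.Forall₂ Sub q.r p.r
    rw [hr]
    exact List.forall₂_same.2 fun c _ => Sub.refl c
  · refine ⟨?_, fun α ρ σ h => ⟨ρ, hq _ _ h, rfl⟩, fun x hx _ => hx.2, ?_, ?_, hq'⟩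
    · change Sub q.u.c p.u.c
      rw [hc]
      exact Sub.refl _
    · intro m' _ _
      change Sub (q.u.F m') (p.u.F m')
      rw [hF]
      exact Sub.refl _
    · change Sub q.u.g p.u.g
      rw [hg]
      exact Sub.refl _

/-- THE CHAIN CONDITION for the conditions with pairwise compatible `g'`. -/
theorem chain_condition (A : Set (Cond Ω X))
    (hG : ∀ p ∈ A, ∀ q ∈ A, ∀ d v w, p.u.g' d = some v → q.u.g' d = some w → v = w)
    (hA : ∀ p ∈ A, ∀ q ∈ A, p ≠ q → ¬ ∃ r : Cond Ω X, r ≤ p ∧ r ≤ q) : #A ≤ PD.del Ω X := by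
  have hκ : ℵ₀ ≤ D.κ := D.κ_inacc.aleph0_lt.le
  have hκδ : D.κ ≤ PD.del Ω X := (κ_lt_del (X := X)).le
  have hκs : ℵ₀ ≤ PD.del Ω X := hκ.trans hκδ
  have hpow : PD.del Ω X ^ D.κ ≤ PD.del Ω X := del_power Ω X
  have hΩ : #Ω ≤ PD.del Ω X := by
    rw [D.mk_Ω]
    exact hκδ
  have hOpt : #(Option Ω) ≤ PD.del Ω X := by
    rw [mk_option]
    exact add_le_of_le hκs hΩ (one_le_aleph0.trans hκs)
  have hPF : #(PF Ω) ≤ PD.del Ω X := by
    show #(Ω → Option Ω) ≤ _
    rw [← power_def, D.mk_Ω]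
    exact (power_le_power_right hOpt).trans hpow
  have hlist : ∀ {E : Type}, #E ≤ PD.del Ω X → #(List E) ≤ PD.del Ω X := fun {E} h =>
    (mk_list_le_max E).trans (max_le hκs h)
  have hY : #(Ω × (ℕ → Option Ω)) ≤ PD.del Ω X := by
    rw [mk_prod, lift_id, lift_id]
    refine mul_le_of_le hκs hΩ ?_
    rw [← power_def, mk_nat]
    have h1 : #(Option Ω) ^ ℵ₀ ≤ PD.del Ω X ^ D.κ :=
      (power_le_power_right hOpt).trans (power_le_power_left
        (by
          have := aleph0_pos.trans_le hκs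
          exact this.ne') hκ)
    exact h1.trans hpow
  have hZ : #(Ω × List Ω × List (PF Ω) × (Ω → Option D.T) × (Ω → Ω → Option D.T) ×
      {g : K1 Ω X → Option (Z0 Ω X) | #(pdom g) ≤ D.κ}) ≤ PD.del Ω X := by
    simp only [mk_prod, lift_id]
    exact mul_le_of_le hκs hΩ (mul_le_of_le hκs (hlist hΩ) (mul_le_of_le hκs (hlist hPF)
      (mul_le_of_le hκs (mk_c_le Ω X) (mul_le_of_le hκs (mk_F_le Ω X) (mk_g_le Ω X)))))
  refine K1Aux.antichain_le (K := Ω) hκs (by rw [D.mk_Ω]; exact hpow) hZ hY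
    (fun p : A => (p.1.m, p.1.s, p.1.r, p.1.u.c, p.1.u.F, ⟨p.1.u.g, p.1.up.hg⟩))
    (fun p : A => p.1.u.f) ?_ ?_
  · intro p
    rw [D.mk_Ω]
    refine le_trans (mk_le_mk_of_subset ?_) (mk_iUnion_le hκ D.mk_Ω.le
      (fun m' : Ω => {α | (m' ∈ D.W ∧ p.1.m < m') ∧
        ∃ ρ σ, p.1.u.f α = some (ρ, σ) ∧ ρ < m'}) ?_)
    · intro α hα
      change p.1.u.f α ≠ none at hα
      obtain ⟨⟨ρ, σ⟩, h⟩ := Option.ne_none_iff_exists'.1 hα
      obtain ⟨m', hm', hlt⟩ := exists_mem_W (X := X) (max ρ p.1.m)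
      rw [max_lt_iff] at hlt
      exact mem_iUnion.2 ⟨m', ⟨hm', hlt.2⟩, ρ, σ, h, hlt.1⟩
    · intro m'
      by_cases hm' : m' ∈ D.W ∧ p.1.m < m'
      · refine le_trans (mk_le_mk_of_subset ?_) ((p.1.up.fs m' hm'.1 hm'.2).trans
          (D.crd_lt m').le)
        rintro α ⟨-, h⟩
        exact h
      · have h0 : {α | (m' ∈ D.W ∧ p.1.m < m') ∧
            ∃ ρ σ, p.1.u.f α = some (ρ, σ) ∧ ρ < m'} = ∅ := by
          ext α
          constructor
          · rintro ⟨h, -⟩
            exact absurd h hm'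
          · intro h
            exact h.elim
        rw [h0, mk_eq_zero]
        exact zero_le
  · rintro ⟨p, hp⟩ ⟨q, hq⟩ hne htp
    simp only [Prod.mk.injEq, Subtype.mk.injEq] at htp
    obtain ⟨h1, h2, h3, h4, h5, h6⟩ := htp
    by_contra hcon
    refine hA p hp q hq (fun h => hne (Subtype.ext h)) (compatible h1 h2 h3 h4 h5 h6 ?_
      (hG p hp q hq))
    intro α v w hv hw
    by_contra hvw
    exact hcon ⟨α, v, w, hv, hw, hvw⟩

namespace Cond

/-- Extensions extend `g` and `g'`. -/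
lemma ext_gg {p q : Cond Ω X} (h : q ≤ p) : Sub p.u.g q.u.g ∧ Sub p.u.g' q.u.g' := by
  have h0 : Ext q p := h
  clear h
  induction h0 with
  | dir h1 => exact ⟨h1.u.g, h1.u.g'⟩
  | step x hx _ ih => exact ih

/-- Replace `g'`. -/
def withG (p : Cond Ω X) (G : D1 Ω X → Option (Z1 Ω X)) (hG : #(pdom G) ≤ PD.del Ω X) :
    Cond Ω X :=
  ⟨p.m, p.s, p.r, ⟨p.u.c, p.u.f, p.u.A, p.u.F, p.u.g, G⟩, p.low,
    ⟨p.up.hc, p.up.ff, p.up.fs, p.up.hA, p.up.hF, p.up.hg, hG⟩⟩

lemma withG_dle {p : Cond Ω X} {G : D1 Ω X → Option (Z1 Ω X)} (hG : #(pdom G) ≤ PD.del Ω X)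
    (h : Sub p.u.g' G) : (p.withG G hG).Dle p where
  m := rfl
  s := rfl
  r := List.forall₂_same.2 fun c _ => Sub.refl c
  u := ⟨Sub.refl _, fun α ρ σ h => ⟨ρ, h, rfl⟩, fun x hx _ => hx, fun _ _ _ => Sub.refl _,
    Sub.refl _, h⟩

lemma withG_mono {p : Cond Ω X} {G G' : D1 Ω X → Option (Z1 Ω X)}
    (hG : #(pdom G) ≤ PD.del Ω X) (hG' : #(pdom G') ≤ PD.del Ω X) (h : Sub G G') :
    (p.withG G' hG').Dle (p.withG G hG) :=
  withG_dle (p := p.withG G hG) hG' h

end Cond

/-- For a set `S` dense below `p` one can extend `g'` such that there is a set of at most `δ`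
elements of `S` which is predense below the extension. -/
theorem exists_predense1 {p : Cond Ω X} (S : Set (Cond Ω X)) (hS : ∀ q ≤ p, ∃ r ≤ q, r ∈ S) :
    ∃ (G : D1 Ω X → Option (Z1 Ω X)) (hG : #(pdom G) ≤ PD.del Ω X), Sub p.u.g' G ∧
      ∃ S' ⊆ S, #S' ≤ PD.del Ω X ∧
        ∀ q ≤ p.withG G hG, ∃ s ∈ S', ∃ r : Cond Ω X, r ≤ q ∧ r ≤ s := by
  classical
  obtain ⟨S', hmax⟩ := zorn_subset
    {T : Set (Cond Ω X) | T ⊆ S ∩ {x | x ≤ p} ∧
      (∀ x ∈ T, ∀ y ∈ T, ∀ d v w, x.u.g' d = some v → y.u.g' d = some w → v = w) ∧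
      ∀ p ∈ T, ∀ q ∈ T, p ≠ q → ¬ ∃ r : Cond Ω X, r ≤ p ∧ r ≤ q} (by
      intro c hc hchain
      refine ⟨⋃₀ c, ⟨sUnion_subset fun T hT => (hc hT).1, ?_, ?_⟩,
        fun T hT => subset_sUnion_of_mem hT⟩
      · rintro x ⟨T, hT, hx⟩ y ⟨T', hT', hy⟩
        rcases hchain.total hT hT' with h | h
        · exact (hc hT').2.1 x (h hx) y hy
        · exact (hc hT).2.1 x hx y (h hy)
      · rintro x ⟨T, hT, hx⟩ y ⟨T', hT', hy⟩ hne
        rcases hchain.total hT hT' with h | h
        · exact (hc hT').2.2 x (h hx) y hy hne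
        · exact (hc hT).2.2 x hx y (h hy) hne)
  have hcard : #S' ≤ PD.del Ω X := chain_condition S' hmax.prop.2.1 hmax.prop.2.2
  have hδ : ℵ₀ ≤ PD.del Ω X := D.κ_inacc.aleph0_lt.le.trans (κ_lt_del (X := X)).le
  have hκδ : D.κ ≤ PD.del Ω X := (κ_lt_del (X := X)).le
  -- the union
  let c : Option S' → D1 Ω X → Option (Z1 Ω X) := fun i => match i with
    | none => p.u.g'
    | some x => x.1.u.g'
  have hc1 : ∀ x : S', Sub p.u.g' x.1.u.g' := fun x =>
    (Cond.ext_gg (hmax.prop.1 x.2).2).2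
  have hagree : ∀ i j d v w, c i d = some v → c j d = some w → v = w := by
    intro i j d v w hv hw
    cases i with
    | none =>
      cases j with
      | none =>
        rw [hv] at hw
        exact Option.some.inj hw
      | some y =>
        have h1 := hc1 y d v hv
        have h2 : y.1.u.g' d = some w := hw
        rw [h1] at h2
        exact Option.some.inj h2
    | some x =>
      cases j with
      | none =>
        have h1 := hc1 x d w hw
        have h2 : x.1.u.g' d = some v := hv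
        rw [h1] at h2
        exact (Option.some.inj h2).symm
      | some y => exact hmax.prop.2.1 x.1 x.2 y.1 y.2 d v w hv hw
  have hsub : ∀ i, Sub (c i) (B1.uni c) := by
    intro i d v hv
    have h : ∃ j, c j d ≠ none := ⟨i, by rw [hv]; exact Option.some_ne_none _⟩
    unfold B1.uni
    rw [dif_pos h]
    obtain ⟨w, hw⟩ := Option.ne_none_iff_exists'.1 h.choose_spec
    rw [hw, hagree i h.choose d v w hv hw]
  have hdom : #(pdom (B1.uni c)) ≤ PD.del Ω X := by
    refine B1.dom_uni_le hδ ?_ c ?_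
    · rw [mk_option]
      exact add_le_of_le hδ hcard (one_le_aleph0.trans hδ)
    · rintro (_ | x)
      · exact p.up.hg'
      · exact x.1.up.hg'
  refine ⟨B1.uni c, hdom, hsub none, S', fun x hx => (hmax.prop.1 hx).1, hcard,
    fun q hq => ?_⟩
  have hqp : q ≤ p := hq.trans (Cond.withG_dle hdom (hsub none)).le
  obtain ⟨r, hr, hrS⟩ := hS q hqp
  by_contra hcon
  push Not at hcon
  have hinc : ∀ s ∈ S', ¬ ∃ r' : Cond Ω X, r' ≤ r ∧ r' ≤ s := by
    rintro s hs ⟨r', h1, h2⟩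
    exact hcon s hs r' (h1.trans hr) h2
  have hrG : Sub (B1.uni c) r.u.g' := (Cond.ext_gg (hr.trans hq)).2
  have hag : ∀ s ∈ S', ∀ d v w, s.u.g' d = some v → r.u.g' d = some w → v = w := by
    intro s hs d v w hv hw
    have h1 := hrG d v (hsub (some ⟨s, hs⟩) d v hv)
    rw [h1] at hw
    exact Option.some.inj hw
  have h1 : insert r S' ⊆ S ∩ {x | x ≤ p} ∧
      (∀ x ∈ insert r S', ∀ y ∈ insert r S', ∀ d v w, x.u.g' d = some v →
        y.u.g' d = some w → v = w) ∧
      ∀ p ∈ insert r S', ∀ q ∈ insert r S', p ≠ q → ¬ ∃ r : Cond Ω X, r ≤ p ∧ r ≤ q := by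
    refine ⟨insert_subset ⟨hrS, hr.trans hqp⟩ hmax.prop.1, ?_, ?_⟩
    · rintro x (rfl | hx) y (rfl | hy) d v w hv hw
      · rw [hv] at hw
        exact Option.some.inj hw
      · exact (hag y hy d w v hw hv).symm
      · exact hag x hx d v w hv hw
      · exact hmax.prop.2.1 x hx y hy d v w hv hw
    · rintro x (rfl | hx) y (rfl | hy) hne
      · exact absurd rfl hne
      · exact hinc y hy
      · rintro ⟨r', h1, h2⟩
        exact hinc x hx ⟨r', h2, h1⟩
      · exact hmax.prop.2.2 x hx y hy hne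
  have h2 : r ∈ S' := hmax.le_of_ge h1 (subset_insert r S') (mem_insert r S')
  exact hinc r h2 ⟨r, le_rfl, le_rfl⟩

/-- The same for `δ` many dense sets. -/
theorem exists_predense {ι : Type} (hι : #ι ≤ PD.del Ω X) {p : Cond Ω X} (S : ι → Set (Cond Ω X))
    (hS : ∀ i, ∀ q ≤ p, ∃ r ≤ q, r ∈ S i) :
    ∃ q : Cond Ω X, q.Dle p ∧ ∀ i, ∃ S' ⊆ S i, #S' ≤ PD.del Ω X ∧
      ∀ q' ≤ q, ∃ s ∈ S', ∃ r : Cond Ω X, r ≤ q' ∧ r ≤ s := by
  have hδ : ℵ₀ ≤ PD.del Ω X := D.κ_inacc.aleph0_lt.le.trans (κ_lt_del (X := X)).le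
  obtain ⟨G, ⟨hG1, hG2⟩, -, hG3⟩ := meet_all
    (fun G' G : D1 Ω X → Option (Z1 Ω X) => Sub G G')
    (fun G => Sub p.u.g' G ∧ #(pdom G) ≤ PD.del Ω X) (fun G => Sub.refl G)
    (fun a b c h h' => h'.trans h) (PD.del Ω X)
    (by
      intro κ _ _ _ hκ s hV hs
      obtain ⟨i₀⟩ := (inferInstance : Nonempty κ)
      obtain ⟨G, h1, h2⟩ := L1_union s hs
      exact ⟨G, ⟨(hV i₀).1.trans (h1 i₀), L1_dom hδ hκ s G (fun i => (hV i).2) h2⟩, h1⟩)
    hι (fun i => {G | ∀ hG : #(pdom G) ≤ PD.del Ω X, ∃ S' ⊆ S i, #S' ≤ PD.del Ω X ∧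
      ∀ q' ≤ p.withG G hG, ∃ s ∈ S', ∃ r : Cond Ω X, r ≤ q' ∧ r ≤ s})
    (by
      intro i G G' hV hV' hle h hG'
      obtain ⟨S', h1, h2, h3⟩ := h hV.2
      exact ⟨S', h1, h2, fun q' hq' => h3 q' (hq'.trans (Cond.withG_mono hV.2 hG' hle).le)⟩)
    (by
      intro i G hV
      obtain ⟨G', hG', h1, S', h2, h3, h4⟩ := exists_predense1 (p := p.withG G hV.2) (S i)
        (fun q hq => hS i q (hq.trans (Cond.withG_dle hV.2 hV.1).le))
      exact ⟨G', ⟨hV.1.trans h1, hG'⟩, h1, fun _ => ⟨S', h2, h3, h4⟩⟩)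
    p.u.g' ⟨Sub.refl _, p.up.hg'⟩
  exact ⟨p.withG G hG2, Cond.withG_dle hG2 hG1, fun i => hG3 i hG2⟩

/-- After a direct extension a name for a function on a set of size at most `δ` has at most `δ`
possible values at each argument. -/
theorem cover_cc {A B : Type} (hA : #A ≤ PD.del Ω X) {p : Cond Ω X}
    {R : Cond Ω X → A → B → Prop} (hR : FN p R) :
    ∃ q : Cond Ω X, q.Dle p ∧ ∃ Y : A → Set B, (∀ a, #(Y a) ≤ PD.del Ω X) ∧
      ∀ q' ≤ q, ∀ a b, R q' a b → b ∈ Y a := by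
  classical
  obtain ⟨q, hq, h⟩ := exists_predense hA (p := p)
    (fun a => {q | q ≤ p ∧ ((∃ b, R q a b) ∨ ∀ q' ≤ q, ∀ b, ¬ R q' a b)}) (by
      intro a q hq
      by_cases h : ∃ q' ≤ q, ∃ b, R q' a b
      · obtain ⟨q', h1, h2⟩ := h
        exact ⟨q', h1, h1.trans hq, Or.inl h2⟩
      · push Not at h
        exact ⟨q, le_rfl, hq, Or.inr h⟩)
  choose S' hS1 hS2 hS3 using h
  refine ⟨q, hq, fun a => {b | ∃ s ∈ S' a, R s a b}, fun a => ?_, ?_⟩
  · refine le_trans ?_ (hS2 a)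
    have h0 : ∀ b : {b | ∃ s ∈ S' a, R s a b}, ∃ s : S' a, R s.1 a b := by
      rintro ⟨b, s, hs, h⟩
      exact ⟨⟨s, hs⟩, h⟩
    choose f hf using h0
    refine mk_le_of_injective (f := f) ?_
    intro b b' hbb
    have h1 := hf b
    rw [hbb] at h1
    exact Subtype.ext (hR.uniq _ (hS1 a (f b').2).1 a _ _ h1 (hf b'))
  · intro q' hq' a b hab
    obtain ⟨s, hs, r, hr1, hr2⟩ := hS3 a q' hq'
    have h1 : R r a b := hR.mono _ _ _ _ hr1 hab
    obtain ⟨hsp, ⟨b', hb'⟩ | hno⟩ := hS1 a hs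
    · have h2 := hR.uniq r (hr2.trans hsp) a b b' h1 (hR.mono _ _ _ _ hr2 hb')
      rw [h2]
      exact ⟨s, hs, hb'⟩
    · exact absurd h1 (hno r hr2 b)

/-- `δ⁺` is preserved. -/
theorem preserve_succ₂ {A B : Type} {p : Cond Ω X} (hA : #A ≤ PD.del Ω X)
    (hB : #B = succ (PD.del Ω X)) {R : Cond Ω X → A → B → Prop} (hR : FN p R) :
    ∃ q ≤ p, ∃ b, ∀ q' ≤ q, ∀ a, ¬ R q' a b := by
  obtain ⟨q, hq, Y, hY, h⟩ := cover_cc hA hR
  have hinf : ℵ₀ ≤ PD.del Ω X := D.κ_inacc.aleph0_lt.le.trans (κ_lt_del (X := X)).le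
  have hne : ∃ b, b ∉ ⋃ a, Y a := by
    by_contra hcon
    push Not at hcon
    have h1 : (⋃ a, Y a) = Set.univ := Set.eq_univ_of_forall hcon
    have h2 := mk_iUnion_le hinf hA Y hY
    rw [h1, Cardinal.mk_univ, hB] at h2
    exact absurd h2 (not_le.2 (Order.lt_succ _))
  obtain ⟨b, hb⟩ := hne
  exact ⟨q, hq.le, b, fun q' hq' a hab => hb (mem_iUnion.2 ⟨a, h q' hq' a b hab⟩)⟩

end Pool.P2
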