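import Pool.Agent.Lib.MP_ad72f3_p2.Cond

/-!
# Task C: cardinal arithmetic
-/

set_option autoImplicit false
set_option linter.unusedSectionVars false

open Cardinal Set Order

namespace Pool.P2

variable {Ω : Type} [LinearOrder Ω] [WellFoundedLT Ω] {X : Type} [D : PD Ω X]

lemma sc_mono_right {i : ℕ} {c d : Cardinal.{0}} (h : c ≤ d) : sc i c ≤ sc i d := by
  induction i with
  | zero => exact h
  | succ i ih => exact succ_le_succ ih

lemma sc_le {i j : ℕ} (h : i ≤ j) (c : Cardinal.{0}) : sc i c ≤ sc j c := by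
  induction h with
  | refl => exact le_rfl
  | step _ ih => exact ih.trans (le_succ _)

lemma sc_lt {i j : ℕ} (h : i < j) (c : Cardinal.{0}) : sc i c < sc j c :=
  (lt_succ (sc i c)).trans_le (sc_le (Nat.succ_le_of_lt h) c)

lemma sc_isRegular {c : Cardinal.{0}} (hc : ℵ₀ ≤ c) (i : ℕ) : (sc (i + 1) c).IsRegular :=
  isRegular_succ (hc.trans (sc_le (Nat.zero_le i) c))

/-- A strong limit cardinal is closed under successors. -/
lemma sc_lt_of_lt {c θ : Cardinal.{0}} (h : c < θ) (hθ : θ.IsInaccessible) (i : ℕ) :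
    sc i c < θ := by
  induction i with
  | zero => exact h
  | succ i ih => exact hθ.isSuccLimit.succ_lt ih

omit [WellFoundedLT Ω] in
lemma crd_mono {a b : Ω} (h : a ≤ b) : crd a ≤ crd b :=
  mk_le_mk_of_subset (Iio_subset_Iio h)

/-- There are at most `θ` ordinals below `θ`. -/
lemma mk_crd_lt (θ : Cardinal.{0}) : #{a : Ω | crd a < θ} ≤ θ := by
  have h0 : ∀ a : Ω, crd a < θ → Ordinal.typein (α := Ω) (· < ·) a ∈ Iio θ.ord := by
    intro a ha
    rw [mem_Iio, Cardinal.lt_ord, Ordinal.card_typein]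
    exact ha
  have h : Function.Injective fun a : {a : Ω | crd a < θ} =>
      (⟨Ordinal.typein (α := Ω) (· < ·) a.1, h0 a.1 a.2⟩ : Iio θ.ord) := by
    intro a b hab
    have h1 := congrArg Subtype.val hab
    exact Subtype.ext (Ordinal.typein_injective (α := Ω) (· < ·) h1)
  have h2 := Cardinal.mk_le_of_injective
    (Function.Injective.comp h (ULift.down_injective : Function.Injective
      (ULift.down : ULift.{1, 0} {a : Ω | crd a < θ} → _)))
  rw [Cardinal.mk_uLift, Cardinal.mk_Iio_ordinal, Cardinal.card_ord] at h2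
  exact Cardinal.lift_le.1 h2

lemma mk_crd_lt_eq {θ : Cardinal.{0}} (hθ : θ ≤ D.κ) : #{a : Ω | crd a < θ} = θ := by
  refine le_antisymm (mk_crd_lt θ) ?_
  by_contra hlt
  rw [not_le] at hlt
  by_cases hT : {a : Ω | crd a < θ} = Set.univ
  · rw [hT, mk_univ, D.mk_Ω] at hlt
    exact absurd hlt (not_lt.2 hθ)
  · have hne : ({a : Ω | crd a < θ}ᶜ).Nonempty := by
      rw [nonempty_compl]
      exact hT
    set a := (wellFounded_lt (α := Ω)).min _ hne with ha
    have h1 : a ∈ {a : Ω | crd a < θ}ᶜ := (wellFounded_lt (α := Ω)).min_mem _ hne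
    have h2 : Iio a ⊆ {a : Ω | crd a < θ} := by
      intro b hb
      by_contra hb'
      exact (wellFounded_lt (α := Ω)).not_lt_min _ (show b ∈ {a : Ω | crd a < θ}ᶜ from hb') hb
    exact h1 ((mk_le_mk_of_subset h2).trans_lt hlt)

lemma crd_lt_iff {m : Ω} (hm : m ∈ D.W) (a : Ω) : crd a < crd m ↔ a < m := by
  refine ⟨fun h => ?_, fun h => D.W_init m hm a h⟩
  by_contra h'
  exact absurd h (not_lt.2 (crd_mono (not_lt.1 h')))

lemma aleph0_lt_crd {m : Ω} (hm : m ∈ D.W) : ℵ₀ < crd m :=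
  (D.W_inacc m hm).aleph0_lt

lemma crd_lt_crd {m m' : Ω} (hm' : m' ∈ D.W) (h : m < m') : crd m < crd m' :=
  D.W_init m' hm' m h

/-- `κ_m^{+i} < κ_m'` if `m < m'` are in `W`. -/
lemma sc_crd_lt {m m' : Ω} (hm' : m' ∈ D.W) (h : m < m') (i : ℕ) : sc i (crd m) < crd m' :=
  sc_lt_of_lt (crd_lt_crd hm' h) (D.W_inacc m' hm') i

lemma sc_crd_lt_κ (m : Ω) (i : ℕ) : sc i (crd m) < D.κ :=
  sc_lt_of_lt (D.crd_lt m) D.κ_inacc i

omit [WellFoundedLT Ω] in
lemma crd_lt_pw (m : Ω) : crd m < pw m := cantor _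

omit [WellFoundedLT Ω] in
lemma pw_mono {a b : Ω} (h : a ≤ b) : pw a ≤ pw b :=
  power_le_power_left (by norm_num) (crd_mono h)

lemma aleph0_lt_pw {m : Ω} (hm : m ∈ D.W) : ℵ₀ < pw m :=
  (aleph0_lt_crd hm).trans (crd_lt_pw m)

lemma pw_lt_crd {m m' : Ω} (hm' : m' ∈ D.W) (h : m < m') : pw m < crd m' :=
  (D.W_inacc m' hm').isStrongPrelimit (crd_lt_crd hm' h)

/-- `sc i (pw m) < κ_m'` if `m < m'` are in `W`. -/
lemma sc_pw_lt {m m' : Ω} (hm' : m' ∈ D.W) (h : m < m') (i : ℕ) : sc i (pw m) < crd m' :=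
  sc_lt_of_lt (pw_lt_crd hm' h) (D.W_inacc m' hm') i

lemma sc_pw_lt_κ (m : Ω) (i : ℕ) : sc i (pw m) < D.κ :=
  sc_lt_of_lt (D.κ_inacc.isStrongPrelimit (D.crd_lt m)) D.κ_inacc i

lemma κ_lt_del : D.κ < PD.del Ω X :=
  (cantor D.κ).trans (lt_succ _)

/-- A bounded set of small size of ordinals below `κ` has a strict upper bound. -/
lemma exists_bound {S : Set Ω} {θ : Cardinal.{0}} (hθ : θ.IsRegular) (hθκ : θ ≤ D.κ)
    (hS : #S < θ) (h : ∀ a ∈ S, crd a < θ) : ∃ b : Ω, crd b < θ ∧ ∀ a ∈ S, a < b := by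
  have h1 : #(⋃ a : S, Iic a.1) < θ := by
    rw [card_iUnion_lt_iff_forall_of_isRegular hθ hS]
    rintro ⟨a, ha⟩
    have h2 : Iic a ⊆ insert a (Iio a) := fun b hb => by
      rcases eq_or_lt_of_le hb with h3 | h3
      · exact Or.inl h3
      · exact Or.inr h3
    refine (mk_le_mk_of_subset h2).trans_lt (mk_insert_le.trans_lt ?_)
    exact Cardinal.add_lt_of_lt hθ.aleph0_le (h a ha)
      (Cardinal.one_lt_aleph0.trans_le hθ.aleph0_le)
  have h2 : ∃ b ∈ {a : Ω | crd a < θ}, b ∉ ⋃ a : S, Iic a.1 := by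
    by_contra h3
    push Not at h3
    have h4 := mk_le_mk_of_subset (show {a : Ω | crd a < θ} ⊆ ⋃ a : S, Iic a.1 from h3)
    rw [mk_crd_lt_eq hθκ] at h4
    exact absurd h1 (not_lt.2 h4)
  obtain ⟨b, hb, hb'⟩ := h2
  refine ⟨b, hb, fun a ha => ?_⟩
  by_contra h3
  exact hb' (mem_iUnion.2 ⟨⟨a, ha⟩, not_lt.1 h3⟩)

/-- `W` is unbounded. -/
lemma exists_mem_W (a : Ω) : ∃ m ∈ D.W, a < m := by
  obtain ⟨x, hx, hx'⟩ := (D.kx_W.and (D.unb a)).exists
  exact ⟨D.kx x, hx, hx'⟩

/-! ### C2 -/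

/-- The successor step of Hausdorff's formula. -/
lemma succ_pow_le {μ l : Cardinal.{0}} (hμ : ℵ₀ ≤ μ) (hμl : μ ≤ l) (h : l ^ μ ≤ l) :
    (succ l) ^ μ ≤ succ l := by
  have hl : ℵ₀ ≤ l := hμ.trans hμl
  have hreg : (succ l).IsRegular := isRegular_succ hl
  have hL : #((succ l).ord.ToType) = succ l := mk_ord_toType _
  have key : (Set.univ : Set (μ.out → (succ l).ord.ToType)) ⊆
      ⋃ b : (succ l).ord.ToType, {f | ∀ x, f x < b} := by
    intro f _
    by_contra hcon
    simp only [mem_iUnion, mem_ofPred_eq, not_exists, not_forall, not_lt] at hcon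
    have hcof : IsCofinal (Set.range f) := by
      intro b
      obtain ⟨x, hx⟩ := hcon b
      exact ⟨f x, mem_range_self x, hx⟩
    have h1 : Order.cof ((succ l).ord.ToType) ≤ #(Set.range f) := cof_le hcof
    rw [Ordinal.cof_toType, hreg.cof_ord] at h1
    have h2 : #(Set.range f) ≤ #(μ.out) := mk_range_le
    rw [mk_out] at h2
    exact absurd (h1.trans (h2.trans hμl)) (not_le.2 (lt_succ l))
  have h3 : #(μ.out → (succ l).ord.ToType) = (succ l) ^ μ := by
    rw [← power_def, hL, mk_out]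
  rw [← h3, ← mk_univ]
  refine (mk_le_mk_of_subset key).trans ?_
  refine (mk_iUnion_le _).trans ?_
  rw [hL]
  have h4 : (⨆ b : (succ l).ord.ToType, #{f : μ.out → (succ l).ord.ToType | ∀ x, f x < b}) ≤ l := by
    apply ciSup_le'
    intro b
    have h5 : #{f : μ.out → (succ l).ord.ToType | ∀ x, f x < b} ≤ #(μ.out → Iio b) := by
      refine mk_le_of_injective (f := fun f x => ⟨f.1 x, f.2 x⟩) ?_
      intro f g hfg
      apply Subtype.ext
      funext x
      exact congrArg Subtype.val (congrFun hfg x)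
    refine h5.trans ?_
    rw [← power_def, mk_out]
    have h6 : #(Iio b) ≤ l := by
      have := mk_Iio_lt b (by rw [hL, Ordinal.type_toType])
      rw [hL] at this
      exact lt_succ_iff.1 this
    exact (power_le_power_right h6).trans h
  calc succ l * _ ≤ succ l * succ l := mul_le_mul_right (h4.trans (le_succ l)) _
    _ = succ l := mul_eq_self hreg.aleph0_le

/-- Hausdorff's formula for the powers of the successors of `2 ^ m`. -/
lemma sc_power {m : Ω} (hm : m ∈ D.W) (i : ℕ) :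
    sc i (pw m) ^ (crd m) ≤ sc i (pw m) := by
  have h0 : ℵ₀ ≤ crd m := (aleph0_lt_crd hm).le
  induction i with
  | zero =>
    change (pw m) ^ (crd m) ≤ pw m
    unfold pw
    rw [← power_mul, mul_eq_self h0]
  | succ i ih =>
    exact succ_pow_le h0 ((crd_lt_pw m).le.trans (sc_le (Nat.zero_le i) (pw m))) ih

variable (Ω X) in
/-- `δ ^ κ = δ`. -/
lemma del_power : (PD.del Ω X) ^ D.κ ≤ PD.del Ω X := by
  have hκ : ℵ₀ ≤ D.κ := D.κ_inacc.aleph0_lt.le
  refine succ_pow_le hκ (cantor D.κ).le ?_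
  rw [← power_mul, mul_eq_self hκ]

lemma two_power_lt {m : Ω} (hm : m ∈ D.W) {c : Cardinal.{0}} (hc : c < crd m) :
    (2 : Cardinal.{0}) ^ c < crd m :=
  (D.W_inacc m hm).isStrongPrelimit hc

/-- The number of conditions of the collapse `Col(θ, 2 ^ m)`, `θ < m`. -/
lemma mk_col_le {m : Ω} (hm : m ∈ D.W) {θ : Cardinal.{0}} (hθ : θ < crd m) :
    #{c : PF Ω | IsCol θ c ∧ BelowC c m} ≤ pw m := by
  classical
  have hp : ℵ₀ ≤ pw m := (aleph0_lt_pw hm).le
  have hp0 : pw m ≠ 0 := (Cardinal.aleph0_pos.trans_le hp).ne'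
  let f : {c : PF Ω | IsCol θ c ∧ BelowC c m} →
      ({a : Ω | crd a < θ} → Option {b : Ω | crd b < pw m}) :=
    fun c a => (c.1 a.1).bind fun b => if h : crd b < pw m then some ⟨b, h⟩ else none
  have hf : Function.Injective f := by
    have aux : ∀ c c' : {c : PF Ω | IsCol θ c ∧ BelowC c m}, f c = f c' →
        ∀ a b, c.1 a = some b → c'.1 a = some b := by
      intro c c' he a b hab
      have ha : crd a < θ := c.2.1.2 a b hab
      have hb : crd b < pw m := c.2.2 a b hab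
      have h1 : f c ⟨a, ha⟩ = some ⟨b, hb⟩ := by
        change (c.1 a).bind _ = _
        rw [hab, Option.bind_some, dif_pos hb]
      rw [he] at h1
      change (c'.1 a).bind _ = _ at h1
      rw [Option.bind_eq_some_iff] at h1
      obtain ⟨b', h2, h3⟩ := h1
      split_ifs at h3 with h4
      rw [Option.some.injEq, Subtype.mk.injEq] at h3
      rw [h2, h3]
    intro c c' he
    apply Subtype.ext
    funext a
    apply Option.ext
    intro b
    exact ⟨aux c c' he a b, aux c' c he.symm a b⟩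
  refine (mk_le_of_injective hf).trans ?_
  rw [← power_def]
  have h1 : #(Option {b : Ω | crd b < pw m}) ≤ pw m := by
    rw [mk_option]
    refine (add_le_add_left (mk_crd_lt (pw m)) 1).trans ?_
    exact (Cardinal.add_one_eq hp).le
  refine (power_le_power_right h1).trans ?_
  refine (power_le_power_left hp0 ((mk_crd_lt θ).trans hθ.le)).trans ?_
  exact sc_power hm 0

/-- The number of lower parts of a stem. -/
lemma mk_low_le {m : Ω} {s : List Ω} : #{r : List (PF Ω) | LowV X (m :: s) r} ≤ pw m := by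
  induction s generalizing m with
  | nil =>
    by_cases hm : m ∈ D.W
    · have h1 : {r : List (PF Ω) | LowV X [m] r} ⊆
          (fun c => [c]) '' {c : PF Ω | IsCol ℵ₀ c ∧ BelowC c m} := by
        intro r hr
        match r, hr with
        | [], hr => exact absurd hr (by simp [LowV])
        | [c], hr => exact ⟨c, ⟨hr.2.2.1, hr.2.2.2.1⟩, rfl⟩
        | c :: c' :: r, hr => exact absurd hr.2.2.2.2 (by simp [LowV])
      exact (mk_le_mk_of_subset h1).trans (mk_image_le.trans (mk_col_le hm (aleph0_lt_crd hm)))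
    · have h1 : {r : List (PF Ω) | LowV X [m] r} = ∅ := by
        ext r
        simp only [mem_ofPred_eq, mem_empty_iff_false, iff_false]
        exact fun hr => hm hr.mem_W
      rw [h1]
      simp
  | cons m' s ih =>
    by_cases hm : m ∈ D.W ∧ m' < m
    · obtain ⟨hm, hlt⟩ := hm
      have h1 : {r : List (PF Ω) | LowV X (m :: m' :: s) r} ⊆
          Set.image2 (fun c r => c :: r) {c : PF Ω | IsCol (sc 4 (pw m')) c ∧ BelowC c m}
            {r : List (PF Ω) | LowV X (m' :: s) r} := by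
        intro r hr
        match r, hr with
        | [], hr => exact absurd hr (by simp [LowV])
        | c :: r, hr => exact ⟨c, ⟨hr.2.2.1, hr.2.2.2.1⟩, r, hr.2.2.2.2, rfl⟩
      refine (mk_le_mk_of_subset h1).trans (mk_image2_le.trans ?_)
      refine (mul_le_mul' (mk_col_le hm (sc_pw_lt hm hlt 4)) (ih (m := m'))).trans ?_
      refine (mul_le_mul' le_rfl (pw_mono hlt.le)).trans ?_
      exact (mul_eq_self (aleph0_lt_pw hm).le).le
    · have h1 : {r : List (PF Ω) | LowV X (m :: m' :: s) r} = ∅ := by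
        ext r
        simp only [mem_ofPred_eq, mem_empty_iff_false, iff_false]
        intro hr
        apply hm
        match r, hr with
        | [], hr => exact absurd hr (by simp [LowV])
        | c :: r, hr => exact ⟨hr.1, hr.2.1 m' (by simp)⟩
      rw [h1]
      simp

/-- The union of at most `θ`-many sets of size at most `θ`. -/
lemma mk_iUnion_le {ι Z : Type} {θ : Cardinal.{0}} (hθ : ℵ₀ ≤ θ) (hι : #ι ≤ θ) (S : ι → Set Z)
    (h : ∀ i, #(S i) ≤ θ) : #(⋃ i, S i) ≤ θ := by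
  refine (Cardinal.mk_iUnion_le S).trans ?_
  refine (mul_le_mul' hι (ciSup_le' h)).trans ?_
  exact (mul_eq_self hθ).le

namespace C3

variable (Ω X) in
lemma two_le : (2 : Cardinal.{0}) ^ D.κ ≤ PD.del Ω X := le_succ _

variable (Ω X) in
lemma aleph0_le_del : ℵ₀ ≤ PD.del Ω X :=
  D.κ_inacc.aleph0_lt.le.trans (κ_lt_del (Ω := Ω) (X := X)).le

variable (Ω X) in
lemma opt_le : #(Option D.T) ≤ 2 ^ D.κ := by
  rw [mk_option]
  refine (add_le_add_left D.mk_T 1).trans ?_
  exact (Cardinal.add_one_eq (D.κ_inacc.aleph0_lt.le.trans (cantor _).le)).le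

variable (Ω X) in
lemma fun_le {A : Type} (hA : #A ≤ 2 ^ D.κ) : #(Ω → A) ≤ 2 ^ D.κ := by
  rw [← power_def, D.mk_Ω]
  refine (power_le_power_right hA).trans ?_
  rw [← power_mul, mul_eq_self D.κ_inacc.aleph0_lt.le]

end C3

variable (Ω X) in
lemma mk_Z0_le : #(Z0 Ω X) ≤ PD.del Ω X := by
  have hd : ℵ₀ ≤ PD.del Ω X := C3.aleph0_le_del Ω X
  have hinf : Infinite Ω := by
    rw [infinite_iff, D.mk_Ω]
    exact D.κ_inacc.aleph0_lt.le
  have h1 : #(Ω → Ω) ≤ PD.del Ω X :=
    (C3.fun_le Ω X (by rw [D.mk_Ω]; exact (cantor _).le)).trans (C3.two_le Ω X)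
  have h2 : #(List Ω) ≤ PD.del Ω X := by
    rw [mk_list_eq_mk, D.mk_Ω]
    exact κ_lt_del.le
  have h3 : #D.S ≤ PD.del Ω X := D.mk_S.le
  change #(D.S × (Ω → Ω) × List Ω) ≤ _
  rw [mk_prod, mk_prod]
  simp only [Cardinal.lift_id]
  refine (mul_le_mul' h3 (mul_le_mul' h1 h2)).trans ?_
  rw [mul_eq_self hd, mul_eq_self hd]

variable (Ω X) in
/-- The number of collapses `c`. -/
lemma mk_c_le : #(Ω → Option D.T) ≤ PD.del Ω X :=
  (C3.fun_le Ω X (C3.opt_le Ω X)).trans (C3.two_le Ω X)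

variable (Ω X) in
/-- The number of promises. -/
lemma mk_F_le : #(Ω → Ω → Option D.T) ≤ PD.del Ω X :=
  (C3.fun_le Ω X (C3.fun_le Ω X (C3.opt_le Ω X))).trans (C3.two_le Ω X)

variable (Ω X) in
/-- The number of conditions of `Col(κ⁺, δ)`. -/
lemma mk_g_le : #{g : K1 Ω X → Option (Z0 Ω X) | #(pdom g) ≤ D.κ} ≤ PD.del Ω X := by
  have hd : ℵ₀ ≤ PD.del Ω X := C3.aleph0_le_del Ω X
  have hK : #(K1 Ω X) ≤ PD.del Ω X := by
    change #((succ D.κ).ord.ToType) ≤ _
    rw [mk_ord_toType]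
    exact succ_le_of_lt κ_lt_del
  have hprod : #(K1 Ω X × Z0 Ω X) ≤ PD.del Ω X := by
    rw [mk_prod]
    simp only [Cardinal.lift_id]
    refine (mul_le_mul' hK (mk_Z0_le Ω X)).trans ?_
    rw [mul_eq_self hd]
  have hg : ∀ g : {g : K1 Ω X → Option (Z0 Ω X) | #(pdom g) ≤ D.κ},
      #({p : K1 Ω X × Z0 Ω X | g.1 p.1 = some p.2} : Set (K1 Ω X × Z0 Ω X)) ≤ D.κ := by
    intro g
    refine le_trans ?_ (show #(pdom g.1) ≤ D.κ from g.2)
    refine mk_le_of_injective (f := fun p => ⟨p.1.1, ?_⟩) ?_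
    · change g.1 p.1.1 ≠ none
      have := p.2
      simp only [mem_ofPred_eq] at this
      rw [this]
      simp
    · rintro ⟨⟨a, b⟩, hab⟩ ⟨⟨a', b'⟩, hab'⟩ he
      simp only [Subtype.mk.injEq] at he
      subst he
      simp only [mem_ofPred_eq] at hab hab'
      rw [hab] at hab'
      simp only [Option.some.injEq] at hab'
      subst hab'
      rfl
  have h1 : #{g : K1 Ω X → Option (Z0 Ω X) | #(pdom g) ≤ D.κ} ≤
      #{t : Set (K1 Ω X × Z0 Ω X) // #t ≤ D.κ} := by
    refine mk_le_of_injective (f := fun g => ⟨{p | g.1 p.1 = some p.2}, hg g⟩) ?_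
    intro g g' he
    rw [Subtype.mk.injEq] at he
    apply Subtype.ext
    funext a
    apply Option.ext
    intro b
    have h2 : ((a, b) ∈ {p : K1 Ω X × Z0 Ω X | g.1 p.1 = some p.2}) ↔
        ((a, b) ∈ {p : K1 Ω X × Z0 Ω X | g'.1 p.1 = some p.2}) := by rw [he]
    exact h2
  refine h1.trans ((mk_bounded_set_le _ _).trans ?_)
  exact (power_le_power_right (max_le hprod hd)).trans (del_power Ω X)

/-! ### C3 -/

/-- Completeness of the ultrafilter. -/
lemma complete {Z : Type} (hZ : #Z < D.κ) (B : Z → Set X) (h : ∀ z, B z ∈ D.U) :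
    ∀ᶠ x in (D.U : Filter X), ∀ z, x ∈ B z := by
  have hne : Nonempty Ω := by
    rw [← mk_ne_zero_iff, D.mk_Ω]
    exact D.κ_inacc.ne_zero
  obtain ⟨a₀⟩ := hne
  have h1 := D.diag (fun _ : Z => a₀) B (fun a => (mk_subtype_le _).trans_lt hZ) h
  filter_upwards [h1, D.unb a₀] with x hx hx' z
  exact hx z hx'

/-- Normality: a regressive function is constant on a large set. -/
lemma regressive {Z : Type} (rk : Z → Ω) (hrk : ∀ a : Ω, #{z | rk z < a} < D.κ) (φ : X → Z)
    (h : ∀ᶠ x in (D.U : Filter X), rk (φ x) < D.kx x) :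
    ∃ z, ∀ᶠ x in (D.U : Filter X), φ x = z := by
  by_contra hcon
  push Not at hcon
  have h1 : ∀ z, {x | φ x ≠ z} ∈ D.U := by
    intro z
    exact hcon z
  have h2 := D.diag rk (fun z => {x | φ x ≠ z}) hrk h1
  obtain ⟨x, hx1, hx2⟩ := (h2.and h).exists
  exact hx1 (φ x) hx2 rfl

/-- A function with fewer than `κ` values is constant on a large set. -/
lemma eventually_const {Z : Type} (hZ : #Z < D.κ) (φ : X → Z) :
    ∃ z, ∀ᶠ x in (D.U : Filter X), φ x = z := by
  have hne : Nonempty Ω := by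
    rw [← mk_ne_zero_iff, D.mk_Ω]
    exact D.κ_inacc.ne_zero
  obtain ⟨a₀⟩ := hne
  exact regressive (fun _ : Z => a₀) (fun a => (mk_subtype_le _).trans_lt hZ) φ (D.unb a₀)

/-- Coding of collapses: if `c x` is a condition of `Col(θ, 2 ^ κ_x)` for almost all `x`, it is
the image of one condition of `Col(θ, 2 ^ κ)`. -/
lemma col_code {θ : Cardinal.{0}} (hθ : θ < D.κ) (c : X → PF Ω)
    (h : ∀ᶠ x in (D.U : Filter X), IsCol θ (c x) ∧ BelowC (c x) (D.kx x)) (c₁ : Ω → Option D.T)
    (h₁ : ∀ᶠ x in (D.U : Filter X), Sub (push x c₁) (c x)) :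
    ∃ c₀ : Ω → Option D.T, IsCol θ c₀ ∧ Sub c₁ c₀ ∧
      ∀ᶠ x in (D.U : Filter X), c x = push x c₀ := by
  have key : ∀ a : Ω, ∃ o : Option D.T, (∀ᶠ x in (D.U : Filter X), c x a = o.map (D.piT x)) ∧
      ∀ t, c₁ a = some t → o = some t := by
    intro a
    cases hc : c₁ a with
    | some t =>
      refine ⟨some t, ?_, fun t' ht' => ht'⟩
      filter_upwards [h₁] with x hx
      exact hx a _ (push_some hc)
    | none =>
      rcases D.U.em (fun x => c x a = none) with h0 | h0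
      · refine ⟨none, ?_, fun t ht => by cases ht⟩
        filter_upwards [h0] with x hx
        rw [hx]
        rfl
      · obtain ⟨t, ht⟩ := D.codeT (fun x => (c x a).getD (D.kx x)) (by
          filter_upwards [h0, h] with x hx hx'
          obtain ⟨b, hb⟩ := Option.ne_none_iff_exists'.1 hx
          rw [hb]
          exact hx'.2 a b hb)
        refine ⟨some t, ?_, fun t ht => by cases ht⟩
        filter_upwards [h0, ht] with x hx hx'
        obtain ⟨b, hb⟩ := Option.ne_none_iff_exists'.1 hx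
        rw [hb] at hx' ⊢
        rw [Option.map_some, ← hx']
        rfl
  choose c₀ hc₀ hc₁ using key
  have hdom : ∀ a t, c₀ a = some t → crd a < θ := by
    intro a t hat
    obtain ⟨x, hx, hx'⟩ := ((hc₀ a).and h).exists
    rw [hat] at hx
    exact hx'.1.2 a _ hx
  have hpush : ∀ᶠ x in (D.U : Filter X), c x = push x c₀ := by
    have h2 := complete (Z := {a : Ω | crd a < θ}) ((mk_crd_lt θ).trans_lt hθ)
      (fun a => {x | c x a.1 = (c₀ a.1).map (D.piT x)}) (fun a => hc₀ a.1)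
    filter_upwards [h2, h] with x hx hx'
    funext a
    by_cases ha : crd a < θ
    · exact hx ⟨a, ha⟩
    · have h3 : c x a = none := by
        by_contra hne
        obtain ⟨b, hb⟩ := Option.ne_none_iff_exists'.1 hne
        exact ha (hx'.1.2 a b hb)
      have h4 : c₀ a = none := by
        by_contra hne
        obtain ⟨b, hb⟩ := Option.ne_none_iff_exists'.1 hne
        exact ha (hdom a b hb)
      rw [h3]
      unfold push
      rw [h4]
      rfl
  refine ⟨c₀, ⟨?_, hdom⟩, fun a t hat => hc₁ a t hat, hpush⟩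
  obtain ⟨x, hx, hx'⟩ := (hpush.and h).exists
  rw [← pdom_push x c₀, ← hx]
  exact hx'.1.1

end Pool.P2
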