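import Mathlib

/-!
# Task R: recursion lemmas
-/

set_option autoImplicit false

open Cardinal Set Order

namespace Pool.P2

/-- Dependent choice along a well-order. -/
theorem exists_wf_seq {ι T : Type*} [Nonempty T] [LinearOrder ι] [WellFoundedLT ι]
    (Q : (i : ι) → ((j : ι) → j < i → T) → T → Prop)
    (h : ∀ (i : ι) (s : ι → T), (∀ j < i, Q j (fun k _ => s k) (s j)) →
      ∃ v, Q i (fun k _ => s k) v) :
    ∃ s : ι → T, ∀ i, Q i (fun k _ => s k) (s i) := by
  classical
  let F : (i : ι) → ((j : ι) → j < i → T) → T :=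
    fun i g => if hq : ∃ v, Q i g v then hq.choose else Classical.arbitrary T
  let s : ι → T := (wellFounded_lt (α := ι)).fix F
  have hs : ∀ i, s i = F i (fun j _ => s j) := fun i => WellFounded.fix_eq _ F i
  refine ⟨s, fun i => ?_⟩
  refine (wellFounded_lt (α := ι)).induction
    (C := fun i => Q i (fun k _ => s k) (s i)) i ?_
  intro i ih
  have hq : ∃ v, Q i (fun k _ => s k) v := h i s ih
  have hF : F i (fun j _ => s j) = hq.choose := dif_pos hq
  have h1 : Q i (fun k _ => s k) hq.choose := hq.choose_spec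
  rw [← hF, ← hs i] at h1
  exact h1

/-- In a preorder (on the elements satisfying `V`) which is closed under decreasing sequences of
length at most `lam`, one can meet `lam` many open dense sets. -/
theorem meet_all {T : Type*} (le : T → T → Prop) (V : T → Prop) (hrefl : ∀ v, le v v)
    (htrans : ∀ a b c, le a b → le b c → le a c) (lam : Cardinal.{0})
    (hclos : ∀ (ι : Type) [LinearOrder ι] [WellFoundedLT ι] [Nonempty ι], #ι ≤ lam →
      ∀ s : ι → T, (∀ i, V (s i)) → (∀ i j, i < j → le (s j) (s i)) →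
        ∃ v, V v ∧ ∀ i, le v (s i))
    {ι : Type} (hι : #ι ≤ lam) (S : ι → Set T)
    (hopen : ∀ i v v', V v → V v' → le v' v → v ∈ S i → v' ∈ S i)
    (hdense : ∀ i v, V v → ∃ v', V v' ∧ le v' v ∧ v' ∈ S i) (v : T) (hv : V v) :
    ∃ v', V v' ∧ le v' v ∧ ∀ i, v' ∈ S i := by
  classical
  let _inst : LinearOrder ι := IsWellOrder.linearOrder (WellOrderingRel (α := ι))
  have : WellFoundedLT ι := ⟨(WellOrderingRel.isWellOrder (α := ι)).wf⟩
  have : Nonempty T := ⟨v⟩
  obtain ⟨s, hs⟩ := exists_wf_seq (ι := ι) (T := T)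
    (fun i g w => (∀ j (hj : j < i), le w (g j hj)) ∧ le w v ∧ V w ∧ w ∈ S i) (by
      intro i s hs
      rcases isEmpty_or_nonempty {j : ι // j < i} with hE | hE
      · obtain ⟨w, hw, hwv, hwS⟩ := hdense i v hv
        exact ⟨w, fun j hj => (hE.false ⟨j, hj⟩).elim, hwv, hw, hwS⟩
      · obtain ⟨w, hw, hws⟩ := hclos {j : ι // j < i} ((Cardinal.mk_subtype_le _).trans hι)
          (fun j => s j.1) (fun j => (hs j.1 j.2).2.2.1)
          (fun a b hab => (hs b.1 b.2).1 a.1 hab)
        obtain ⟨w', hw', hw'w, hw'S⟩ := hdense i w hw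
        refine ⟨w', fun j hj => htrans _ _ _ hw'w (hws ⟨j, hj⟩), ?_, hw', hw'S⟩
        obtain ⟨j⟩ := hE
        exact htrans _ _ _ hw'w (htrans _ _ _ (hws j) (hs j.1 j.2).2.1))
  rcases isEmpty_or_nonempty ι with hE | hE
  · exact ⟨v, hv, hrefl v, fun i => (hE.false i).elim⟩
  · obtain ⟨w, hw, hws⟩ := hclos ι hι s (fun i => (hs i).2.2.1)
      (fun i j hij => (hs j).1 i hij)
    obtain ⟨i0⟩ := hE
    exact ⟨w, hw, htrans _ _ _ (hws i0) (hs i0).2.1,
      fun i => hopen i (s i) w (hs i).2.2.1 hw (hws i) (hs i).2.2.2⟩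

end Pool.P2
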