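import Pool.Agent.Lib.MP_ad72f3_p2.Dom

/-!
# The two cofinal families (V-side)
-/

set_option autoImplicit false
set_option linter.unusedSectionVars false

open Cardinal Set Order

namespace Pool.P2

variable {Ω : Type} [LinearOrder Ω] [WellFoundedLT Ω] {X : Type} [D : PD Ω X]

lemma PD.nonempty (Ω : Type) [LinearOrder Ω] [WellFoundedLT Ω] (X : Type) [D : PD Ω X] :
    (univ : Set Ω).Nonempty := by
  have h1 : #Ω ≠ 0 := by
    rw [D.mk_Ω]
    exact (aleph0_pos.trans D.κ_inacc.aleph0_lt).ne'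
  obtain ⟨a⟩ := mk_ne_zero_iff.1 h1
  exact ⟨a, mem_univ a⟩

/-- The ordinal `0`. -/
noncomputable def zz (Ω : Type) [LinearOrder Ω] [WellFoundedLT Ω] (X : Type) [D : PD Ω X] : Ω :=
  wellFounded_lt.min univ (PD.nonempty Ω X)

lemma crd_zz : crd (zz Ω X) = 0 := by
  have h1 : IsEmpty (Iio (zz Ω X)) :=
    ⟨fun a => wellFounded_lt.not_lt_min univ (mem_univ a.1) a.2⟩
  exact mk_eq_zero _

/-- The cardinal `ℵ_j` as decided by `q`. -/
noncomputable def alc (q : Cond Ω X) (j : ℕ) : Cardinal.{0} :=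
  if j = 0 then ℵ₀ else sc ((j - 1) % 4 + 1) (pw (q.pt ((j - 1) / 4)))

/-- `q` decides `ℵ_j`. -/
def known (q : Cond Ω X) (j : ℕ) : Prop := j = 0 ∨ (j - 1) / 4 < q.len

open Classical in
/-- Cut off at `ℵ_j`. -/
noncomputable def cap (q : Cond Ω X) (j : ℕ) (w : Ω) : Ω :=
  if crd w < alc q j then w else zz Ω X

/-- `q` decides that the `j`-th value of the element with index `z` is `v`: the generic function
of the coordinate `can z.1` at `4k+1`, `z.2.1 (κ_k)` at `4k+4`, and finitely many prescribed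
values. -/
def TR0 (z : Z0 Ω X) (q : Cond Ω X) (j : ℕ) (v : Ω) : Prop :=
  known q j ∧ ((∃ w, z.2.2[j]? = some w ∧ v = cap q j w) ∨ (z.2.2[j]? = none ∧
    ((j % 4 = 1 ∧ ((∃ w, q.Rt (can Ω z.1) ((j - 1) / 4) w ∧ v = cap q j w) ∨
      (q.Ru (can Ω z.1) ((j - 1) / 4) ∧ v = zz Ω X))) ∨
    (j % 4 ≠ 1 ∧ v = cap q j (z.2.1 (q.pt ((j - 1) / 4)))))))

/-- The family for the residues `2, 3`: the generic functions of the two coordinates, and finitely
many prescribed values. -/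
def TR1 (z : Crd Ω X × Crd Ω X × List Ω) (q : Cond Ω X) (j : ℕ) (v : Ω) : Prop :=
  known q j ∧ ((∃ w, z.2.2[j]? = some w ∧ v = cap q j w) ∨ (z.2.2[j]? = none ∧
    ((∃ w, q.Rt (if j % 4 = 2 then z.1 else z.2.1) ((j - 1) / 4) w ∧ v = cap q j w) ∨
      (q.Ru (if j % 4 = 2 then z.1 else z.2.1) ((j - 1) / 4) ∧ v = zz Ω X))))

/-- Names `T z` for elements of the product `∏ ℵ_j`, given by relations
`T z q j v` (`q ⊩ τ_z(j) = v`). -/
structure TT {Z : Type} (T : Z → Cond Ω X → ℕ → Ω → Prop) : Prop where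
  mono : ∀ z q q' j v, q' ≤ q → T z q j v → T z q' j v
  uniq : ∀ z q j v v', T z q j v → T z q j v' → v = v'
  dense : ∀ z p j, ∃ q ≤ p, ∃ v, T z q j v
  lt : ∀ z q j v, T z q j v → known q j ∧ crd v < alc q j

/-- A name for a partial element of the product `∏ ℵ_j`, seen below `p`. -/
structure EN (p : Cond Ω X) (R : Cond Ω X → ℕ → Ω → Prop) : Prop where
  mono : ∀ q q' j v, q' ≤ q → R q j v → R q' j v
  uniq : ∀ q ≤ p, ∀ j v v', R q j v → R q j v' → v = v'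
  bd : ∀ q ≤ p, ∀ j v, known q j → R q j v → crd v < alc q j

namespace M1

lemma len_pos (q : Cond Ω X) : 0 < q.len := Nat.succ_pos _

lemma pt_eq {q q' : Cond Ω X} {j : ℕ} (h : q' ≤ q) (hk : known q j) :
    q'.pt ((j - 1) / 4) = q.pt ((j - 1) / 4) := by
  refine Cond.pt_of_le h ?_
  rcases hk with rfl | hk
  · simpa using len_pos q
  · exact hk

end M1

/-- Task M1. -/
lemma known.mono {q q' : Cond Ω X} {j : ℕ} (h : q' ≤ q) (hk : known q j) : known q' j ∧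
    alc q' j = alc q j := by
  constructor
  · rcases hk with h0 | hk
    · exact Or.inl h0
    · exact Or.inr (hk.trans_le (Cond.len_le h))
  · unfold alc
    rw [M1.pt_eq h hk]

lemma dense_known (p : Cond Ω X) (j : ℕ) : ∃ q ≤ p, known q j := by
  obtain ⟨q, hq, h1, -⟩ := Cond.exists_len p ((j - 1) / 4 + 1) p.m
  exact ⟨q, hq, Or.inr h1⟩

namespace M1

lemma cap_eq {q q' : Cond Ω X} {j : ℕ} (h : q' ≤ q) (hk : known q j) (w : Ω) :
    cap q' j w = cap q j w := by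
  unfold cap
  rw [(hk.mono h).2]

lemma alc_pos (q : Cond Ω X) (j : ℕ) : 0 < alc q j := by
  unfold alc
  split_ifs
  · exact aleph0_pos
  · change 0 < succ (sc ((j - 1) % 4) (pw (q.pt ((j - 1) / 4))))
    exact (bot_le).trans_lt (lt_succ _)

lemma crd_zz_lt (q : Cond Ω X) (j : ℕ) : crd (zz Ω X) < alc q j := by
  rw [crd_zz]
  exact alc_pos q j

lemma cap_lt (q : Cond Ω X) (j : ℕ) (w : Ω) : crd (cap q j w) < alc q j := by
  unfold cap
  split_ifs with h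
  · exact h
  · exact crd_zz_lt q j

end M1

theorem TR0.tt : TT (TR0 (Ω := Ω) (X := X)) where
  mono := by
    rintro z q q' j v h ⟨hk, hv⟩
    refine ⟨(hk.mono h).1, ?_⟩
    rcases hv with ⟨w, h1, h2⟩ | ⟨h0, ⟨hj, ⟨w, h1, h2⟩ | ⟨h1, h2⟩⟩ | ⟨hj, h2⟩⟩
    · exact Or.inl ⟨w, h1, by rw [M1.cap_eq h hk]; exact h2⟩
    · exact Or.inr ⟨h0, Or.inl ⟨hj, Or.inl ⟨w, h1.mono h, by rw [M1.cap_eq h hk]; exact h2⟩⟩⟩
    · exact Or.inr ⟨h0, Or.inl ⟨hj, Or.inr ⟨h1.mono h, h2⟩⟩⟩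
    · exact Or.inr ⟨h0, Or.inr ⟨hj, by rw [M1.cap_eq h hk, M1.pt_eq h hk]; exact h2⟩⟩
  uniq := by
    rintro z q j v v' ⟨-, hv⟩ ⟨-, hv'⟩
    rcases hv with ⟨w, h1, h2⟩ | ⟨h0, hv⟩
    · rcases hv' with ⟨w', h1', h2'⟩ | ⟨h0', -⟩
      · rw [h1] at h1'
        rw [h2, h2', Option.some.inj h1']
      · rw [h1] at h0'
        exact absurd h0' (by simp)
    · rcases hv' with ⟨w', h1', h2'⟩ | ⟨-, hv'⟩
      · rw [h1'] at h0
        exact absurd h0 (by simp)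
      · rcases hv with ⟨hj, hv⟩ | ⟨hj, h2⟩
        · rcases hv' with ⟨-, hv'⟩ | ⟨hj', -⟩
          · rcases hv with ⟨w, h1, h2⟩ | ⟨h1, h2⟩
            · rcases hv' with ⟨w', h1', h2'⟩ | ⟨h1', h2'⟩
              · rw [h2, h2', h1.uniq h1']
              · exact absurd h1' h1.not_Ru
            · rcases hv' with ⟨w', h1', h2'⟩ | ⟨h1', h2'⟩
              · exact absurd h1 h1'.not_Ru
              · rw [h2, h2']
          · exact absurd hj hj'
        · rcases hv' with ⟨hj', -⟩ | ⟨-, h2'⟩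
          · exact absurd hj' hj
          · rw [h2, h2']
  dense := by
    intro z p j
    obtain ⟨q, hq, hk⟩ := dense_known p j
    rcases h0 : z.2.2[j]? with _ | w
    · by_cases hj : j % 4 = 1
      · obtain ⟨r, hr, hv⟩ := Cond.dense_Rt q (can Ω z.1) ((j - 1) / 4)
        rcases hv with ⟨w, hw⟩ | hu
        · exact ⟨r, hr.trans hq, cap r j w, (hk.mono hr).1,
            Or.inr ⟨h0, Or.inl ⟨hj, Or.inl ⟨w, hw, rfl⟩⟩⟩⟩
        · exact ⟨r, hr.trans hq, zz Ω X, (hk.mono hr).1,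
            Or.inr ⟨h0, Or.inl ⟨hj, Or.inr ⟨hu, rfl⟩⟩⟩⟩
      · exact ⟨q, hq, _, hk, Or.inr ⟨h0, Or.inr ⟨hj, rfl⟩⟩⟩
    · exact ⟨q, hq, cap q j w, hk, Or.inl ⟨w, h0, rfl⟩⟩
  lt := by
    rintro z q j v ⟨hk, hv⟩
    refine ⟨hk, ?_⟩
    rcases hv with ⟨w, -, rfl⟩ | ⟨-, ⟨-, ⟨w, -, rfl⟩ | ⟨-, rfl⟩⟩ | ⟨-, rfl⟩⟩
    · exact M1.cap_lt _ _ _
    · exact M1.cap_lt _ _ _
    · exact M1.crd_zz_lt _ _
    · exact M1.cap_lt _ _ _

theorem TR1.tt : TT (TR1 (Ω := Ω) (X := X)) where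
  mono := by
    rintro z q q' j v h ⟨hk, hv⟩
    refine ⟨(hk.mono h).1, ?_⟩
    rcases hv with ⟨w, h1, h2⟩ | ⟨h0, ⟨w, h1, h2⟩ | ⟨h1, h2⟩⟩
    · exact Or.inl ⟨w, h1, by rw [M1.cap_eq h hk]; exact h2⟩
    · exact Or.inr ⟨h0, Or.inl ⟨w, h1.mono h, by rw [M1.cap_eq h hk]; exact h2⟩⟩
    · exact Or.inr ⟨h0, Or.inr ⟨h1.mono h, h2⟩⟩
  uniq := by
    rintro z q j v v' ⟨-, hv⟩ ⟨-, hv'⟩
    rcases hv with ⟨w, h1, h2⟩ | ⟨h0, hv⟩
    · rcases hv' with ⟨w', h1', h2'⟩ | ⟨h0', -⟩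
      · rw [h1] at h1'
        rw [h2, h2', Option.some.inj h1']
      · rw [h1] at h0'
        exact absurd h0' (by simp)
    · rcases hv' with ⟨w', h1', h2'⟩ | ⟨-, hv'⟩
      · rw [h1'] at h0
        exact absurd h0 (by simp)
      · rcases hv with ⟨w, h1, h2⟩ | ⟨h1, h2⟩
        · rcases hv' with ⟨w', h1', h2'⟩ | ⟨h1', h2'⟩
          · rw [h2, h2', h1.uniq h1']
          · exact absurd h1' h1.not_Ru
        · rcases hv' with ⟨w', h1', h2'⟩ | ⟨h1', h2'⟩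
          · exact absurd h1 h1'.not_Ru
          · rw [h2, h2']
  dense := by
    intro z p j
    obtain ⟨q, hq, hk⟩ := dense_known p j
    rcases h0 : z.2.2[j]? with _ | w
    · obtain ⟨r, hr, hv⟩ := Cond.dense_Rt q (if j % 4 = 2 then z.1 else z.2.1) ((j - 1) / 4)
      rcases hv with ⟨w, hw⟩ | hu
      · exact ⟨r, hr.trans hq, cap r j w, (hk.mono hr).1, Or.inr ⟨h0, Or.inl ⟨w, hw, rfl⟩⟩⟩
      · exact ⟨r, hr.trans hq, zz Ω X, (hk.mono hr).1, Or.inr ⟨h0, Or.inr ⟨hu, rfl⟩⟩⟩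
    · exact ⟨q, hq, cap q j w, hk, Or.inl ⟨w, h0, rfl⟩⟩
  lt := by
    rintro z q j v ⟨hk, hv⟩
    refine ⟨hk, ?_⟩
    rcases hv with ⟨w, -, rfl⟩ | ⟨-, ⟨w, -, rfl⟩ | ⟨-, rfl⟩⟩
    · exact M1.cap_lt _ _ _
    · exact M1.cap_lt _ _ _
    · exact M1.crd_zz_lt _ _


namespace M2

/-- Every nonempty type of size at most `θ` is coded by the ordinals below `θ`. -/
lemma exists_dec {Z : Type} [hne : Nonempty Z] {θ : Cardinal.{0}} (h : #Z ≤ θ) :
    ∃ dec : Ordinal.{0} → Z, ∀ z, ∃ ξ < θ.ord, dec ξ = z := by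
  classical
  have h1 : #Z ≤ #θ.ord.ToType := by rwa [mk_ord_toType]
  obtain ⟨e⟩ := h1
  obtain ⟨z₀⟩ := hne
  refine ⟨fun ξ => if hξ : ∃ z, (Ordinal.ToType.toOrd (e z)).1 = ξ then hξ.choose else z₀,
    fun z => ?_⟩
  refine ⟨(Ordinal.ToType.toOrd (e z)).1, (Ordinal.ToType.toOrd (e z)).2, ?_⟩
  have h2 : ∃ z', (Ordinal.ToType.toOrd (e z')).1 = (Ordinal.ToType.toOrd (e z)).1 := ⟨z, rfl⟩
  simp only [h2, dif_pos]
  have h3 := h2.choose_spec
  have h4 : Ordinal.ToType.toOrd (e h2.choose) = Ordinal.ToType.toOrd (e z) := Subtype.ext h3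
  exact e.injective (EquivLike.injective _ h4)

end M2

variable (Ω X) in
/-- Codes of the elements of `κ⁺`. -/
lemma exists_dec0 : ∃ dec : Ordinal.{0} → K1 Ω X, ∀ k, ∃ ξ < (succ D.κ).ord, dec ξ = k := by
  have h1 : #(K1 Ω X) = succ D.κ := mk_ord_toType _
  have h2 : Nonempty (K1 Ω X) := by
    rw [← mk_ne_zero_iff, h1]
    exact (succ_ne_zero _)
  exact M2.exists_dec h1.le

variable (Ω X) in
/-- Codes of the elements of `δ⁺`. -/
lemma exists_dec1 : ∃ dec : Ordinal.{0} → D1 Ω X,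
    ∀ d, ∃ ξ < (succ (PD.del Ω X)).ord, dec ξ = d := by
  have h1 : #(D1 Ω X) = succ (PD.del Ω X) := mk_ord_toType _
  have h2 : Nonempty (D1 Ω X) := by
    rw [← mk_ne_zero_iff, h1]
    exact (succ_ne_zero _)
  exact M2.exists_dec h1.le

/-! ### Fresh arguments of `g` and `g'` -/

lemma exists_free_g (p : Cond Ω X) : ∃ k, p.u.g k = none := by
  by_contra hcon
  push Not at hcon
  have h1 : pdom p.u.g = Set.univ := eq_univ_of_forall hcon
  have h2 := p.up.hg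
  rw [h1, mk_univ, mk_ord_toType] at h2
  exact absurd h2 (not_le.2 (lt_succ _))

lemma exists_free_g' (p : Cond Ω X) : ∃ d, p.u.g' d = none := by
  by_contra hcon
  push Not at hcon
  have h1 : pdom p.u.g' = Set.univ := eq_univ_of_forall hcon
  have h2 := p.up.hg'
  rw [h1, mk_univ, mk_ord_toType] at h2
  exact absurd h2 (not_le.2 (lt_succ _))

lemma pdom_update {A B : Type} [DecidableEq A] {c : Cardinal.{0}} (hc : ℵ₀ ≤ c) (f : A → Option B) (a : A) (b : B)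
    (h : #(pdom f) ≤ c) : #(pdom (Function.update f a (some b))) ≤ c := by
  have h1 : pdom (Function.update f a (some b)) ⊆ insert a (pdom f) := by
    intro a' ha'
    by_cases h3 : a' = a
    · exact Or.inl h3
    · right
      change Function.update f a (some b) a' ≠ none at ha'
      rwa [Function.update_of_ne h3] at ha'
  exact (mk_le_mk_of_subset h1).trans (mk_insert_le.trans
    (add_le_of_le hc h (one_le_aleph0.trans hc)))

lemma sub_update {A B : Type} [DecidableEq A] (f : A → Option B) (a : A) (b : B)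
    (h : f a = none) : Sub f (Function.update f a (some b)) := by
  intro a' b' hab
  have h1 : a' ≠ a := by
    rintro rfl
    rw [h] at hab
    exact absurd hab (by simp)
  rwa [Function.update_of_ne h1]

open Classical in
lemma exists_set_g (p : Cond Ω X) {k : K1 Ω X} (hk : p.u.g k = none) (z : Z0 Ω X) :
    ∃ q : Cond Ω X, q.Dle p ∧ q.u.g k = some z := by
  refine ⟨p.withU ⟨p.u.c, p.u.f, p.u.A, p.u.F, Function.update p.u.g k (some z), p.u.g'⟩
    ⟨p.up.hc, p.up.ff, p.up.fs, p.up.hA, p.up.hF,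
      pdom_update D.κ_inacc.aleph0_lt.le p.u.g k z p.up.hg, p.up.hg'⟩,
    Cond.withU_dle _ ⟨Sub.refl _, fun α ρ σ h => ⟨ρ, h, rfl⟩, fun x hx _ => hx,
      fun _ _ _ => Sub.refl _, sub_update _ _ _ hk, Sub.refl _⟩, ?_⟩
  exact Function.update_self _ _ _

open Classical in
lemma exists_set_g' (p : Cond Ω X) {d : D1 Ω X} (hd : p.u.g' d = none) (z : Z1 Ω X) :
    ∃ q : Cond Ω X, q.Dle p ∧ q.u.g' d = some z := by
  refine ⟨p.withU ⟨p.u.c, p.u.f, p.u.A, p.u.F, p.u.g, Function.update p.u.g' d (some z)⟩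
    ⟨p.up.hc, p.up.ff, p.up.fs, p.up.hA, p.up.hF, p.up.hg,
      pdom_update (D.κ_inacc.aleph0_lt.le.trans (κ_lt_del (X := X)).le) p.u.g' d z p.up.hg'⟩,
    Cond.withU_dle _ ⟨Sub.refl _, fun α ρ σ h => ⟨ρ, h, rfl⟩, fun x hx _ => hx,
      fun _ _ _ => Sub.refl _, Sub.refl _, sub_update _ _ _ hd⟩, ?_⟩
  exact Function.update_self _ _ _

variable (Ω X) in
lemma nonempty_S : Nonempty D.S := by
  rw [← mk_ne_zero_iff, D.mk_S]
  exact succ_ne_zero _

/-- The element of the product given by the generic collapse of `δ` to `κ⁺`. -/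
def TG0 (k : K1 Ω X) (q : Cond Ω X) (j : ℕ) (v : Ω) : Prop :=
  ∃ z, q.u.g k = some z ∧ TR0 z q j v

/-- The element of the product given by the generic collapse to `δ⁺`. -/
def TG1 (d : D1 Ω X) (q : Cond Ω X) (j : ℕ) (v : Ω) : Prop :=
  ∃ z, q.u.g' d = some z ∧ TR1 z q j v

theorem TG0.tt : TT (TG0 (Ω := Ω) (X := X)) where
  mono := by
    rintro k q q' j v h ⟨z, hz, hv⟩
    exact ⟨z, (Cond.ext_gg h).1 k z hz, TR0.tt.mono z q q' j v h hv⟩
  uniq := by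
    rintro k q j v v' ⟨z, hz, hv⟩ ⟨z', hz', hv'⟩
    rw [hz] at hz'
    obtain rfl := Option.some.inj hz'
    exact TR0.tt.uniq z q j v v' hv hv'
  dense := by
    intro k p j
    obtain ⟨s⟩ := nonempty_S Ω X
    obtain ⟨q, hq, z, hz⟩ : ∃ q ≤ p, ∃ z, q.u.g k = some z := by
      cases h : p.u.g k with
      | some z => exact ⟨p, le_rfl, z, h⟩
      | none =>
        obtain ⟨q, hq, h1⟩ := exists_set_g p h (s, id, [])
        exact ⟨q, hq.le, _, h1⟩
    obtain ⟨r, hr, v, hv⟩ := TR0.tt.dense z q j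
    exact ⟨r, hr.trans hq, v, z, (Cond.ext_gg hr).1 k z hz, hv⟩
  lt := by
    rintro k q j v ⟨z, -, hv⟩
    exact TR0.tt.lt z q j v hv

theorem TG1.tt : TT (TG1 (Ω := Ω) (X := X)) where
  mono := by
    rintro k q q' j v h ⟨z, hz, hv⟩
    exact ⟨z, (Cond.ext_gg h).2 k z hz, TR1.tt.mono z q q' j v h hv⟩
  uniq := by
    rintro k q j v v' ⟨z, hz, hv⟩ ⟨z', hz', hv'⟩
    rw [hz] at hz'
    obtain rfl := Option.some.inj hz'
    exact TR1.tt.uniq z q j v v' hv hv'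
  dense := by
    intro k p j
    obtain ⟨s⟩ := nonempty_S Ω X
    obtain ⟨q, hq, z, hz⟩ : ∃ q ≤ p, ∃ z, q.u.g' k = some z := by
      cases h : p.u.g' k with
      | some z => exact ⟨p, le_rfl, z, h⟩
      | none =>
        obtain ⟨q, hq, h1⟩ := exists_set_g' p h (can Ω s, can Ω s, [])
        exact ⟨q, hq.le, _, h1⟩
    obtain ⟨r, hr, v, hv⟩ := TR1.tt.dense z q j
    exact ⟨r, hr.trans hq, v, z, (Cond.ext_gg hr).2 k z hz, hv⟩
  lt := by
    rintro k q j v ⟨z, -, hv⟩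
    exact TR1.tt.lt z q j v hv

/-- The residue classes. -/
def A0 : Set ℕ := {n | n % 4 = 0 ∨ n % 4 = 1}

/-- The residue classes. -/
def A1 : Set ℕ := {n | n % 4 = 2 ∨ n % 4 = 3}

namespace M4

/-- decide finitely many values -/
lemma decide_list (p : Cond Ω X) {R : Cond Ω X → ℕ → Ω → Prop}
    (hmono : ∀ q q' j v, q' ≤ q → R q j v → R q' j v) (N : ℕ) :
    ∃ q ≤ p, ∃ l : List Ω, l.length = N ∧ ∀ j (hj : j < l.length),
      R q j l[j] ∨ ∀ q' ≤ q, ∀ v, ¬ R q' j v := by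
  induction N with
  | zero => exact ⟨p, le_refl p, [], rfl, fun j hj => absurd hj (by simp)⟩
  | succ N ih =>
    obtain ⟨q, hq, l, hl, hd⟩ := ih
    by_cases h : ∃ q' ≤ q, ∃ v, R q' N v
    · obtain ⟨q', hq', v, hv⟩ := h
      refine ⟨q', hq'.trans hq, l ++ [v], by simp [hl], fun j hj => ?_⟩
      by_cases hj' : j < l.length
      · rw [List.getElem_append_left hj']
        rcases hd j hj' with h1 | h1
        · exact Or.inl (hmono _ _ _ _ hq' h1)
        · exact Or.inr fun q'' hq'' => h1 q'' (hq''.trans hq')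
      · have hjN : j = N := by
          simp only [List.length_append, List.length_cons, List.length_nil] at hj
          omega
        subst hjN
        left
        rw [List.getElem_append_right (by omega)]
        simpa using hv
    · push Not at h
      refine ⟨q, hq, l ++ [zz Ω X], by simp [hl], fun j hj => ?_⟩
      by_cases hj' : j < l.length
      · rw [List.getElem_append_left hj']
        exact hd j hj'
      · have hjN : j = N := by
          simp only [List.length_append, List.length_cons, List.length_nil] at hj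
          omega
        subst hjN
        exact Or.inr h

lemma exists_lt_pt (q : Cond Ω X) {k : ℕ} (hk : k < q.len) : ∃ ξ, ξ < q.pt k := by
  have h1 := aleph0_lt_crd (q.pt_mem_W hk)
  have h2 : crd (q.pt k) ≠ 0 := (aleph0_pos.trans h1).ne'
  obtain ⟨a⟩ := mk_ne_zero_iff.1 h2
  exact ⟨a.1, a.2⟩

end M4

/-! ### Auxiliary lemmas for M5 and M7 -/

lemma M5_known2 {q : Cond Ω X} {k : ℕ} (hk : k < q.len) : known q (4 * k + 2) := by
  right
  have h1 : (4 * k + 2 - 1) / 4 = k := by omega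
  rw [h1]
  exact hk

lemma M5_known3 {q : Cond Ω X} {k : ℕ} (hk : k < q.len) : known q (4 * k + 3) := by
  right
  have h1 : (4 * k + 3 - 1) / 4 = k := by omega
  rw [h1]
  exact hk

lemma M5_alc2 (q : Cond Ω X) (k : ℕ) : alc q (4 * k + 2) = sc 2 (pw (q.pt k)) := by
  unfold alc
  have h1 : (4 * k + 2 - 1) / 4 = k := by omega
  have h2 : (4 * k + 2 - 1) % 4 + 1 = 2 := by omega
  rw [if_neg (by omega), h1, h2]

lemma M5_alc3 (q : Cond Ω X) (k : ℕ) : alc q (4 * k + 3) = sc 3 (pw (q.pt k)) := by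
  unfold alc
  have h1 : (4 * k + 3 - 1) / 4 = k := by omega
  have h2 : (4 * k + 3 - 1) % 4 + 1 = 3 := by omega
  rw [if_neg (by omega), h1, h2]

lemma M5_zz_lt (q : Cond Ω X) {k : ℕ} (hk : k < q.len) : zz Ω X < q.pt k := by
  have hW := Cond.pt_mem_W q hk
  rw [← crd_lt_iff hW, crd_zz]
  exact aleph0_pos.trans (aleph0_lt_crd hW)

lemma M5_cap {q : Cond Ω X} {j : ℕ} {w : Ω} (h : crd w < alc q j) : cap q j w = w := by
  unfold cap
  rw [if_pos h]

lemma M5_len_pos (q : Cond Ω X) : 1 ≤ q.len := by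
  change 1 ≤ (q.m :: q.s).length
  simp

/-- Deciding finitely many values. -/
lemma M5_decide {p : Cond Ω X} {R : Cond Ω X → ℕ → Ω → Prop}
    (hmono : ∀ q q' j v, q' ≤ q → R q j v → R q' j v) (N : ℕ) :
    ∃ q ≤ p, ∀ j < N, (∃ v, R q j v) ∨ ∀ q' ≤ q, ∀ v, ¬ R q' j v := by
  induction N with
  | zero => exact ⟨p, le_rfl, fun j hj => absurd hj (Nat.not_lt_zero j)⟩
  | succ N ih =>
    obtain ⟨q, hq, h⟩ := ih
    by_cases h1 : ∃ r ≤ q, ∃ v, R r N v
    · obtain ⟨r, hr, v, hv⟩ := h1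
      refine ⟨r, hr.trans hq, fun j hj => ?_⟩
      rcases Nat.lt_succ_iff_lt_or_eq.1 hj with h2 | rfl
      · rcases h j h2 with ⟨w, hw⟩ | h3
        · exact Or.inl ⟨w, hmono _ _ _ _ hr hw⟩
        · exact Or.inr fun q' hq' => h3 q' (hq'.trans hr)
      · exact Or.inl ⟨v, hv⟩
    · push Not at h1
      refine ⟨q, hq, fun j hj => ?_⟩
      rcases Nat.lt_succ_iff_lt_or_eq.1 hj with h2 | rfl
      · exact h j h2
      · exact Or.inr h1

/-- Task M5: the family `TR1` is cofinal. -/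
theorem up1z (p : Cond Ω X) (R : Cond Ω X → ℕ → Ω → Prop) (hR : EN p R) :
    ∃ q ≤ p, ∃ z : Z1 Ω X, ∀ q' ≤ q, ∀ j ∈ A1, ∀ v w, R q' j v →
      TR1 z q' j w → v ≤ w := by
  classical
  have hF2 : FNB 2 p (fun q (a : ℕ × Ω) b => R q (4 * a.1 + 2) b) :=
    { mono := fun q q' a b hq hr => hR.mono q q' _ b hq hr
      uniq := fun q hq a b b' h h' => hR.uniq q hq _ b b' h h'
      bd := fun q hq k ξ b hk hb => by
        have h1 := hR.bd q hq (4 * k + 2) b (M5_known2 hk) hb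
        rwa [M5_alc2] at h1 }
  obtain ⟨q₁, hq₁, h₁, hb₁, hd₁⟩ := dom_two ⟨by omega, by omega⟩ hF2
  have hF3 : FNB 3 q₁ (fun q (a : ℕ × Ω) b => R q (4 * a.1 + 3) b) :=
    { mono := fun q q' a b hq hr => hR.mono q q' _ b hq hr
      uniq := fun q hq a b b' h h' => hR.uniq q (hq.trans hq₁) _ b b' h h'
      bd := fun q hq k ξ b hk hb => by
        have h1 := hR.bd q (hq.trans hq₁) (4 * k + 3) b (M5_known3 hk) hb
        rwa [M5_alc3] at h1 }
  obtain ⟨q₂, hq₂, h₂, hb₂, hd₂⟩ := dom_two ⟨by omega, le_rfl⟩ hF3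
  obtain ⟨q₃, hq₃, K₁, hK₁⟩ := Cond.t_bd q₂ h₁ 2 (Filter.Eventually.of_forall hb₁)
  obtain ⟨q₄, hq₄, K₂, hK₂⟩ := Cond.t_bd q₃ h₂ 3 (Filter.Eventually.of_forall hb₂)
  obtain ⟨q₅, hq₅, hlen, -⟩ := Cond.exists_len q₄ (max (max K₁ K₂) (max q₁.len q₂.len)) (zz Ω X)
  obtain ⟨q₆, hq₆, hdec6⟩ := M5_decide (p := q₅) hR.mono (4 * q₅.len + 1)
  have hle : q₆ ≤ p :=
    hq₆.trans (hq₅.trans (hq₄.trans (hq₃.trans (hq₂.trans hq₁))))
  let l : List Ω := (List.range (4 * q₅.len + 1)).map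
    (fun j => if h : ∃ v, R q₆ j v then h.choose else zz Ω X)
  have hl1 : ∀ j < 4 * q₅.len + 1, l[j]? =
      some (if h : ∃ v, R q₆ j v then h.choose else zz Ω X) := by
    intro j hj
    simp only [l, List.getElem?_map, List.getElem?_range hj, Option.map_some]
  have hl2 : ∀ j, l[j]? = none → 4 * q₅.len + 1 ≤ j := by
    intro j hj
    by_contra hcon
    rw [hl1 j (by omega)] at hj
    exact absurd hj (by simp)
  refine ⟨q₆, hle, (h₁, h₂, l), fun q' hq' j hj v w hv hw => ?_⟩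
  obtain ⟨hkn, hw⟩ := hw
  have hvb := hR.bd q' (hq'.trans hle) j v hkn hv
  rcases hw with ⟨w', hw', rfl⟩ | ⟨hnone, hw⟩
  · have hj4 : j < 4 * q₅.len + 1 := by
      by_contra hcon
      have h1 : l.length ≤ j := by
        simp only [l, List.length_map, List.length_range]
        omega
      rw [List.getElem?_eq_none h1] at hw'
      exact absurd hw' (by simp)
    rw [hl1 j hj4] at hw'
    have hex : ∃ v, R q₆ j v := by
      rcases hdec6 j hj4 with h1 | h1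
      · exact h1
      · exact absurd hv (h1 q' hq' v)
    rw [dif_pos hex] at hw'
    have h2 : hex.choose = w' := Option.some.inj hw'
    have h3 : R q' j w' := hR.mono _ _ _ _ hq' (h2 ▸ hex.choose_spec)
    have h4 : v = w' := hR.uniq q' (hq'.trans hle) j v w' hv h3
    rw [← h4, M5_cap hvb]
  · have hjN := hl2 j hnone
    simp only [A1, Set.mem_ofPred_eq] at hj
    set k : ℕ := (j - 1) / 4 with hk
    have hkl : k < q'.len := by
      rcases hkn with h1 | h1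
      · omega
      · exact h1
    have hk1 : q₅.len ≤ k := by omega
    have hkpos : k - 1 < q'.len := by omega
    have hzz : zz Ω X < q'.pt (k - 1) := M5_zz_lt q' hkpos
    have h5 := hq'.trans hq₆
    have hmax1 : K₁ ≤ k := ((le_max_left _ _).trans (le_max_left _ _)).trans (hlen.trans hk1)
    have hmax2 : K₂ ≤ k := ((le_max_right _ _).trans (le_max_left _ _)).trans (hlen.trans hk1)
    have hmax3 : q₁.len ≤ k := ((le_max_left _ _).trans (le_max_right _ _)).trans (hlen.trans hk1)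
    have hmax4 : q₂.len ≤ k := ((le_max_right _ _).trans (le_max_right _ _)).trans
      (hlen.trans hk1)
    rcases hj with hj | hj
    · have hjk : j = 4 * k + 2 := by omega
      rw [if_pos hj] at hw
      have hv2 : R q' (4 * k + 2) v := hjk ▸ hv
      obtain ⟨v', hv', hlt⟩ := hd₁ k hmax3 q'
        (h5.trans (hq₅.trans (hq₄.trans (hq₃.trans hq₂)))) hkl (zz Ω X) hzz v hv2
      obtain ⟨v'', hv'', hb''⟩ := hK₁ q' (h5.trans (hq₅.trans hq₄)) k hmax1 hkl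
      rcases hw with ⟨w', hw', rfl⟩ | ⟨hRu, -⟩
      · have e1 := Cond.Rt.uniq hv' hw'
        have e2 := Cond.Rt.uniq hv'' hw'
        subst e1
        subst e2
        rw [hjk, M5_cap (by rw [M5_alc2]; exact hb'')]
        exact hlt.le
      · exact absurd hRu hv'.not_Ru
    · have hjk : j = 4 * k + 3 := by omega
      rw [if_neg (by omega)] at hw
      have hv2 : R q' (4 * k + 3) v := hjk ▸ hv
      obtain ⟨v', hv', hlt⟩ := hd₂ k hmax4 q'
        (h5.trans (hq₅.trans (hq₄.trans hq₃))) hkl (zz Ω X) hzz v hv2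
      obtain ⟨v'', hv'', hb''⟩ := hK₂ q' (h5.trans hq₅) k hmax2 hkl
      rcases hw with ⟨w', hw', rfl⟩ | ⟨hRu, -⟩
      · have e1 := Cond.Rt.uniq hv' hw'
        have e2 := Cond.Rt.uniq hv'' hw'
        subst e1
        subst e2
        rw [hjk, M5_cap (by rw [M5_alc3]; exact hb'')]
        exact hlt.le
      · exact absurd hRu hv'.not_Ru



/-- The family `TG1` is cofinal. -/
theorem up1 {dec : Ordinal.{0} → D1 Ω X}
    (hdec : ∀ d, ∃ ξ < (succ (PD.del Ω X)).ord, dec ξ = d) (p : Cond Ω X)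
    (R : Cond Ω X → ℕ → Ω → Prop) (hR : EN p R) :
    ∃ q ≤ p, ∃ ξ < (succ (PD.del Ω X)).ord, ∀ q' ≤ q, ∀ j ∈ A1, ∀ v w, R q' j v →
      TG1 (dec ξ) q' j w → v ≤ w := by
  obtain ⟨q, hq, z, h⟩ := up1z p R hR
  obtain ⟨d, hd⟩ := exists_free_g' q
  obtain ⟨r, hr, hr'⟩ := exists_set_g' q hd z
  obtain ⟨ξ, hξ, hξd⟩ := hdec d
  refine ⟨r, hr.le.trans hq, ξ, hξ, ?_⟩
  rintro q' hq' j hj v w hv ⟨z', hz', hw⟩
  rw [hξd, (Cond.ext_gg hq').2 d z hr'] at hz'
  obtain rfl := Option.some.inj hz'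
  exact h q' (hq'.trans hr.le) j hj v w hv hw

/-- The family `TR0` is cofinal. -/
theorem up0z (p : Cond Ω X) (R : Cond Ω X → ℕ → Ω → Prop) (hR : EN p R) :
    ∃ q ≤ p, ∃ z : Z0 Ω X, ∀ q' ≤ q, ∀ j ∈ A0, ∀ v w, R q' j v → TR0 z q' j w → v ≤ w := by
  have hR4 : FNB 4 p (fun q kx b => R q (4 * kx.1 + 4) b) :=
    { mono := fun q q' a b h1 h2 => hR.mono q q' _ b h1 h2
      uniq := fun q hq a b b' h1 h2 => hR.uniq q hq _ b b' h1 h2
      bd := by
        intro q hq k ξ b hk hb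
        have h1 := hR.bd q hq (4 * k + 4) b (Or.inr (by omega)) hb
        unfold alc at h1
        rw [if_neg (by omega), show (4 * k + 4 - 1) % 4 + 1 = 4 by omega,
          show (4 * k + 4 - 1) / 4 = k by omega] at h1
        exact h1 }
  obtain ⟨q₁, hq₁, F₄, hF₄, hd₄⟩ := dom_four hR4
  have hR1 : FNB 1 q₁ (fun q kx b => R q (4 * kx.1 + 1) b) :=
    { mono := fun q q' a b h1 h2 => hR.mono q q' _ b h1 h2
      uniq := fun q hq a b b' h1 h2 => hR.uniq q (hq.trans hq₁) _ b b' h1 h2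
      bd := by
        intro q hq k ξ b hk hb
        have h1 := hR.bd q (hq.trans hq₁) (4 * k + 1) b (Or.inr (by omega)) hb
        unfold alc at h1
        rw [if_neg (by omega), show (4 * k + 1 - 1) % 4 + 1 = 1 by omega,
          show (4 * k + 1 - 1) / 4 = k by omega] at h1
        exact h1 }
  obtain ⟨q₂, hq₂, s, K₁, hd₁⟩ := dom_one hR1
  obtain ⟨q₃, hq₃, K₂, hK₂⟩ := Cond.t_bd q₂ (can Ω s) 1
    (Filter.Eventually.of_forall fun x => D.piS_lt s x)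
  obtain ⟨q₄, hq₄, hlen, -⟩ := Cond.exists_len q₃ (max K₁ K₂) (zz Ω X)
  obtain ⟨q₅, hq₅, l, hl, hd⟩ := M4.decide_list q₄ hR.mono (4 * q₄.len + 1)
  have hq₅₃ : q₅ ≤ q₃ := hq₅.trans hq₄
  have hq₅₁ : q₅ ≤ q₁ := hq₅₃.trans (hq₃.trans hq₂)
  have hq₄₁ : q₄ ≤ q₁ := hq₄.trans (hq₃.trans hq₂)
  refine ⟨q₅, hq₅₁.trans hq₁, (s, F₄, l), ?_⟩
  intro q' hq' j hj v w hv hw
  obtain ⟨hk, hw⟩ := hw
  have hq'p : q' ≤ p := hq'.trans (hq₅₁.trans hq₁)
  rcases hw with ⟨w', hw', rfl⟩ | ⟨hnone, hw⟩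
  · obtain ⟨hjl, hjw⟩ := List.getElem?_eq_some_iff.1 hw'
    rcases hd j hjl with h2 | h2
    · rw [hjw] at h2
      have h3 := hR.mono _ _ _ _ hq' h2
      rw [M5_cap (hR.bd q' hq'p j _ hk h3)]
      exact (hR.uniq q' hq'p j _ _ hv h3).le
    · exact absurd hv (h2 q' hq' v)
  · have hjl : l.length ≤ j := List.getElem?_eq_none_iff.1 hnone
    have hjN : 4 * q₄.len + 1 ≤ j := by omega
    have hk' : (j - 1) / 4 < q'.len := by
      rcases hk with h2 | h2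
      · omega
      · exact h2
    have hlen₁ : q₁.len ≤ q₄.len := Cond.len_le hq₄₁
    have hlen' : q₄.len ≤ (j - 1) / 4 := by omega
    obtain ⟨ζ, hζ⟩ := M4.exists_lt_pt q' (k := (j - 1) / 4 - 1) (by omega)
    have hW := q'.pt_mem_W hk'
    rcases hw with ⟨hj1, hw⟩ | ⟨hj1, rfl⟩
    · have hje : 4 * ((j - 1) / 4) + 1 = j := by omega
      have halc : alc q' j = sc 1 (pw (q'.pt ((j - 1) / 4))) := by
        unfold alc
        rw [if_neg (by omega), show (j - 1) % 4 + 1 = 1 by omega]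
      obtain ⟨v', hv', hlt⟩ := hd₁ ((j - 1) / 4)
        ((le_max_left K₁ K₂).trans (hlen.trans hlen')) q' (hq'.trans (hq₅₃.trans hq₃)) hk' ζ hζ v
        (by simpa only [hje] using hv)
      obtain ⟨v'', hv'', hb''⟩ := hK₂ q' (hq'.trans hq₅₃) ((j - 1) / 4)
        ((le_max_right K₁ K₂).trans (hlen.trans hlen')) hk'
      rcases hw with ⟨w', hw', rfl⟩ | ⟨hRu, -⟩
      · have e1 := Cond.Rt.uniq hv' hw'
        have e2 := Cond.Rt.uniq hv'' hw'
        subst e1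
        subst e2
        rw [M5_cap (by rw [halc]; exact hb'')]
        exact hlt.le
      · exact absurd hRu hv'.not_Ru
    · have hj0 : j % 4 = 0 := by
        rcases hj with h2 | h2
        · exact h2
        · exact absurd h2 hj1
      have hje : 4 * ((j - 1) / 4) + 4 = j := by omega
      have halc : alc q' j = sc 4 (pw (q'.pt ((j - 1) / 4))) := by
        unfold alc
        rw [if_neg (by omega), show (j - 1) % 4 + 1 = 4 by omega]
      rw [M5_cap (by rw [halc]; exact hF₄ _ hW)]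
      exact hd₄ _ (hlen₁.trans hlen') q' (hq'.trans hq₅₁) hk' ζ hζ v
        (by simpa only [hje] using hv)

/-- The family `TG0` is cofinal. -/
theorem up0 {dec : Ordinal.{0} → K1 Ω X}
    (hdec : ∀ d, ∃ ξ < (succ D.κ).ord, dec ξ = d) (p : Cond Ω X)
    (R : Cond Ω X → ℕ → Ω → Prop) (hR : EN p R) :
    ∃ q ≤ p, ∃ ξ < (succ D.κ).ord, ∀ q' ≤ q, ∀ j ∈ A0, ∀ v w, R q' j v →
      TG0 (dec ξ) q' j w → v ≤ w := by
  obtain ⟨q, hq, z, h⟩ := up0z p R hR
  obtain ⟨d, hd⟩ := exists_free_g q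
  obtain ⟨r, hr, hr'⟩ := exists_set_g q hd z
  obtain ⟨ξ, hξ, hξd⟩ := hdec d
  refine ⟨r, hr.le.trans hq, ξ, hξ, ?_⟩
  rintro q' hq' j hj v w hv ⟨z', hz', hw⟩
  rw [hξd, (Cond.ext_gg hq').1 d z hr'] at hz'
  obtain rfl := Option.some.inj hz'
  exact h q' (hq'.trans hr.le) j hj v w hv hw

/-- No family of size `κ` is cofinal. -/
theorem lo0z {S : Type} (hS : #S ≤ D.κ) (p : Cond Ω X)
    (R : Cond Ω X → S → ℕ → Ω → Prop) (hR : ∀ s, EN p (fun q => R q s)) :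
    ∃ q ≤ p, ∃ z : Z0 Ω X, ∀ s, ∀ p' ≤ q, ∃ r ≤ p', ∃ j ∈ A0, ∀ q' ≤ r, ∀ v w,
      R q' s j v → TR0 z q' j w → v < w := by
  obtain ⟨s₀⟩ := nonempty_S Ω X
  rcases isEmpty_or_nonempty S with hSe | hSn
  · exact ⟨p, le_refl p, (s₀, id, []), fun s => hSe.elim s⟩
  -- a surjection from `Ω` onto `S`
  obtain ⟨e, he⟩ : ∃ e : Ω → S, Function.Surjective e := by
    have h1 : #S ≤ #Ω := by rw [D.mk_Ω]; exact hS
    obtain ⟨f⟩ := h1
    exact ⟨Function.invFun f, Function.invFun_surjective f.injective⟩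
  have hkn : ∀ (q : Cond Ω X) (k : ℕ), k < q.len → known q (4 * k + 1) := fun q k hk =>
    Or.inr (by rwa [show (4 * k + 1 - 1) / 4 = k by omega])
  have halc : ∀ (q : Cond Ω X) (k : ℕ), alc q (4 * k + 1) = sc 1 (pw (q.pt k)) := by
    intro q k
    unfold alc
    rw [if_neg (by omega), show (4 * k + 1 - 1) % 4 + 1 = 1 by omega,
      show (4 * k + 1 - 1) / 4 = k by omega]
  have h1 : FNB 1 p (fun q (x : ℕ × Ω) b => R q (e x.2) (4 * x.1 + 1) b) := by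
    refine ⟨⟨fun q q' x b hq h => (hR (e x.2)).mono q q' _ b hq h,
      fun q hq x b b' h h' => (hR (e x.2)).uniq q hq _ b b' h h'⟩, ?_⟩
    intro q hq k ξ b hk h
    have h2 := (hR (e ξ)).bd q hq (4 * k + 1) b (hkn q k hk) h
    rwa [halc] at h2
  obtain ⟨q₁, hq₁, s, K, hdom⟩ := dom_one h1
  obtain ⟨q, hq, K₂, hK₂⟩ := Cond.t_bd q₁ (can Ω s) 1
    (Filter.Eventually.of_forall fun x => D.piS_lt s x)
  refine ⟨q, hq.trans hq₁, (s, id, []), fun t p' hp' => ?_⟩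
  obtain ⟨a, rfl⟩ := he t
  obtain ⟨r, hr, hrl, har⟩ := Cond.exists_len p' (max K K₂) a
  refine ⟨r, hr, 4 * r.len + 1, Or.inr (by omega), fun q' hq' v w hv hw => ?_⟩
  have hlen : 0 < r.len := by
    change 0 < (r.m :: r.s).length
    simp
  obtain ⟨hw1, hw⟩ := hw
  have e4 : (4 * r.len + 1 - 1) / 4 = r.len := by omega
  have hk : r.len < q'.len := by
    rcases hw1 with h2 | h2
    · omega
    · rwa [e4] at h2
  have hq'q : q' ≤ q := hq'.trans (hr.trans hp')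
  obtain ⟨v', hv', hlt⟩ := hdom r.len ((le_max_left _ _).trans hrl) q' (hq'q.trans hq) hk a (by
    rw [Cond.pt_of_le hq' (by omega : r.len - 1 < r.len), Cond.pt_last]
    exact har) v hv
  obtain ⟨v'', hv'', hb''⟩ := hK₂ q' hq'q r.len ((le_max_right _ _).trans hrl) hk
  rcases hw with ⟨w', hw', rfl⟩ | ⟨-, ⟨-, ⟨w', hw', rfl⟩ | ⟨hRu, -⟩⟩ | ⟨h5, -⟩⟩
  · exact absurd hw' (by simp)
  · rw [e4] at hw'
    have e1 := Cond.Rt.uniq hv' hw'
    have e2 := Cond.Rt.uniq hv'' hw'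
    subst e1
    subst e2
    rw [M5_cap (by rw [halc]; exact hb'')]
    exact hlt
  · rw [e4] at hRu
    exact absurd hRu hv'.not_Ru
  · exact absurd (by omega) h5

/-- No family of size `κ` is cofinal. -/
theorem lo0 {dec : Ordinal.{0} → K1 Ω X}
    (hdec : ∀ d, ∃ ξ < (succ D.κ).ord, dec ξ = d) {S : Type} (hS : #S ≤ D.κ)
    (p : Cond Ω X) (R : Cond Ω X → S → ℕ → Ω → Prop) (hR : ∀ s, EN p (fun q => R q s)) :
    ∃ q ≤ p, ∃ ξ < (succ D.κ).ord, ∀ s, ∀ p' ≤ q, ∃ r ≤ p', ∃ j ∈ A0, ∀ q' ≤ r,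
      ∀ v w, R q' s j v → TG0 (dec ξ) q' j w → v < w := by
  obtain ⟨q, hq, z, h⟩ := lo0z hS p R hR
  obtain ⟨d, hd⟩ := exists_free_g q
  obtain ⟨r, hr, hr'⟩ := exists_set_g q hd z
  obtain ⟨ξ, hξ, hξd⟩ := hdec d
  refine ⟨r, hr.le.trans hq, ξ, hξ, fun s p' hp' => ?_⟩
  obtain ⟨r₁, hr₁, j, hj, h1⟩ := h s p' (hp'.trans hr.le)
  refine ⟨r₁, hr₁, j, hj, ?_⟩
  rintro q' hq' v w hv ⟨z', hz', hw⟩
  rw [hξd, (Cond.ext_gg (hq'.trans (hr₁.trans hp'))).1 d z hr'] at hz'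
  obtain rfl := Option.some.inj hz'
  exact h1 q' hq' v w hv hw

/-- No family of size `δ` is cofinal. -/
theorem lo1z {S : Type} (hS : #S ≤ PD.del Ω X)
    (p : Cond Ω X) (R : Cond Ω X → S → ℕ → Ω → Prop) (hR : ∀ s, EN p (fun q => R q s)) :
    ∃ q ≤ p, ∃ z : Z1 Ω X, ∀ s, ∀ p' ≤ q, ∃ r ≤ p', ∃ j ∈ A1, ∀ q' ≤ r, ∀ v w,
      R q' s j v → TR1 z q' j w → v < w := by
  have hF : ∀ s, FNB 2 p (fun q (a : ℕ × Ω) b => R q s (4 * a.1 + 2) b) := fun s =>
    { mono := fun q q' a b hq hr => (hR s).mono q q' _ b hq hr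
      uniq := fun q hq a b b' h h' => (hR s).uniq q hq _ b b' h h'
      bd := fun q hq k ξ b hk hb => by
        have h1 := (hR s).bd q hq (4 * k + 2) b (M5_known2 hk) hb
        rwa [M5_alc2] at h1 }
  obtain ⟨p₀, hp₀, h, hb, hd⟩ := dom_family (Or.inl rfl) hS
    (fun s q (a : ℕ × Ω) b => R q s (4 * a.1 + 2) b) hF
  obtain ⟨q, hq, K₀, hK₀⟩ := Cond.t_bd p₀ h 2 (Filter.Eventually.of_forall hb)
  refine ⟨q, hq.trans hp₀.le, (h, h, []), fun s p' hp' => ?_⟩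
  obtain ⟨r, hr, K, hK⟩ := hd s p' (hp'.trans hq)
  refine ⟨r, hr, 4 * max K (max K₀ 1) + 2, Or.inl (by omega), ?_⟩
  intro q' hq' v w hv hw
  obtain ⟨hkn, hw⟩ := hw
  set k : ℕ := max K (max K₀ 1) with hk
  have hk4 : (4 * k + 2 - 1) / 4 = k := by omega
  have hkK : K ≤ k := le_max_left _ _
  have hkK0 : K₀ ≤ k := (le_max_left _ _).trans (le_max_right _ _)
  have hk1 : 1 ≤ k := (le_max_right _ _).trans (le_max_right _ _)
  have hkl : k < q'.len := by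
    rcases hkn with h1 | h1
    · omega
    · rwa [hk4] at h1
  have hzz : zz Ω X < q'.pt (k - 1) := M5_zz_lt q' (by omega)
  obtain ⟨v', hv', hlt⟩ := hK k hkK q' hq' hkl (zz Ω X) hzz v hv
  obtain ⟨v'', hv'', hb''⟩ := hK₀ q' (hq'.trans (hr.trans hp')) k hkK0 hkl
  rcases hw with ⟨w', hw', rfl⟩ | ⟨-, hw⟩
  · exact absurd hw' (by simp)
  · rw [if_pos (by omega), hk4] at hw
    rcases hw with ⟨w', hw', rfl⟩ | ⟨hRu, -⟩
    · have e1 := Cond.Rt.uniq hv' hw'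
      have e2 := Cond.Rt.uniq hv'' hw'
      subst e1
      subst e2
      rw [M5_cap (by rw [M5_alc2]; exact hb'')]
      exact hlt
    · exact absurd hRu hv'.not_Ru


/-- No family of size `δ` is cofinal. -/
theorem lo1 {dec : Ordinal.{0} → D1 Ω X}
    (hdec : ∀ d, ∃ ξ < (succ (PD.del Ω X)).ord, dec ξ = d) {S : Type} (hS : #S ≤ PD.del Ω X)
    (p : Cond Ω X) (R : Cond Ω X → S → ℕ → Ω → Prop) (hR : ∀ s, EN p (fun q => R q s)) :
    ∃ q ≤ p, ∃ ξ < (succ (PD.del Ω X)).ord, ∀ s, ∀ p' ≤ q, ∃ r ≤ p', ∃ j ∈ A1, ∀ q' ≤ r,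
      ∀ v w, R q' s j v → TG1 (dec ξ) q' j w → v < w := by
  obtain ⟨q, hq, z, h⟩ := lo1z hS p R hR
  obtain ⟨d, hd⟩ := exists_free_g' q
  obtain ⟨r, hr, hr'⟩ := exists_set_g' q hd z
  obtain ⟨ξ, hξ, hξd⟩ := hdec d
  refine ⟨r, hr.le.trans hq, ξ, hξ, fun s p' hp' => ?_⟩
  obtain ⟨r₁, hr₁, j, hj, h1⟩ := h s p' (hp'.trans hr.le)
  refine ⟨r₁, hr₁, j, hj, ?_⟩
  rintro q' hq' v w hv ⟨z', hz', hw⟩
  rw [hξd, (Cond.ext_gg (hq'.trans (hr₁.trans hp'))).2 d z hr'] at hz'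
  obtain rfl := Option.some.inj hz'
  exact h1 q' hq' v w hv hw

end Pool.P2
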