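import Pool.Agent.Lib.MP_ad72f3_p2.Gn
import Pool.Agent.Lib.MP_ad72f3_p2.Fam

/-!
# The cofinalities (N-side)
-/

set_option autoImplicit false
set_option linter.unusedSectionVars false

open Cardinal Set Order

namespace Pool.P2

open Pool.PC Pool.MP_3ade05_lc

variable {Ω : Type} [LinearOrder Ω] [WellFoundedLT Ω] {X : Type} [D : PD Ω X]

/-- `ℵ_j` of the generic model. -/
noncomputable abbrev alN (U : Set (Name (PP Ω X))) (H : Set (PP Ω X)) (K : ℕ → Ω) (j : ℕ) :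
    ZFSet.{0} := Name.val U H (ordN _ (alO K j))

namespace M3

section names
variable {Z : Type} (A : Set ℕ) {T : Z → Cond Ω X → ℕ → Ω → Prop} (hT : TT T)

/-- The name of the element with code `z`. -/
noncomputable def gN (z : Z) : Name (PP Ω X) :=
  relN (I := ℕ) (J := Ω) (fun j => ordN _ (j : Ordinal.{0})) (fun v => ordN _ (oo v))
    (fun q j v => j ∈ A ∧ T z q.down j v)
    (fun _ _ _ _ h h' => ⟨h'.1, hT.mono _ _ _ _ _ (ULift.down_le.2 h) h'.2⟩)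

/-- The name of the family. -/
noncomputable def FN (lam : Ordinal.{0}) (dec : Ordinal.{0} → Z) : Name (PP Ω X) :=
  relN (I := lam.ToType) (J := lam.ToType) (fun i => ordN _ (Ordinal.ToType.toOrd i).1)
    (fun i => gN A hT (dec (Ordinal.ToType.toOrd i).1))
    (fun _ i j => i = j) (fun _ _ _ _ _ h => h)

end names

/-- Elements of the value of a relation name. -/
lemma mem_val_relN {P : Type 1} [Preorder P] {U : Set (Name P)} {H : Set P} (hB : Base U H)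
    {I J : Type} {d : I → Name P} {v : J → Name P} {R : P → I → J → Prop}
    {hR : ∀ q q' i j, q' ≤ q → R q i j → R q' i j} {z : ZFSet.{0}}
    (hpart : ∀ i j, oN (d i) (v j) ∈ U → d i ∈ U ∧ v j ∈ U) 
    (hz : z ∈ Name.val U H (relN d v R hR)) :
    ∃ i j, d i ∈ U ∧ v j ∈ U ∧ (∃ q ∈ H, R q i j) ∧
      z = ZFSet.pair (Name.val U H (d i)) (Name.val U H (v j)) := by
  obtain ⟨k, h1, ⟨q, hq, h2⟩, h3⟩ := Name.mem_val.1 hz
  obtain ⟨h4, h5⟩ := hpart k.1 k.2 h1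
  refine ⟨k.1, k.2, h4, h5, ⟨q, hq, h2⟩, ?_⟩
  rw [h3]
  exact val_oN hB h4 h5

end M3

/-- Task M3: names of elements and of families of elements of the product. -/
theorem Ev.family {Z : Type} (A : Set ℕ) {T : Z → Cond Ω X → ℕ → Ω → Prop} (hT : TT T)
    (lam : Ordinal.{0}) (dec : Ordinal.{0} → Z) :
    Ev (P := PP Ω X) (fun U H => ∀ K, GB U H K → ordN _ lam ∈ U →
      ∃ F ∈ MM U H, FunOn F (Name.val U H (ordN _ lam)) ∧
        (∀ x ∈ Name.val U H (ordN _ lam), ∀ g, ZFSet.pair x g ∈ F →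
          Elt (MM U H) (alN U H K) A g) ∧
        ∀ ξ < lam, ordN _ ξ ∈ U → ∃ g, ZFSet.pair (Name.val U H (ordN _ ξ)) g ∈ F ∧
          ∀ j ∈ A, ∀ y, ZFSet.pair (num j) y ∈ g ↔
            ∃ v : Ω, ordN _ (oo v) ∈ U ∧ y = Name.val U H (ordN _ (oo v)) ∧
              ∃ q ∈ H, T (dec ξ) q.down j v) := by
  classical
  have e1 := Ev.op (P := PP Ω X) (n := 0) (fun _ => M3.FN A hT lam dec)
  have e2 := Ev.op (P := PP Ω X) (n := 1) (fun v =>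
    if h : ∃ ξ, v 0 = ordN _ ξ then M3.gN A hT (dec h.choose) else v 0)
  have e3 := Ev.ogen2 (P := PP Ω X) (fun ξ β q η => ∃ n : ℕ, β = n ∧ ∃ v : Ω, η = oo v ∧
    T (dec ξ) q.down n v)
  refine (((e1.and e2).and e3).and Ev.parts).mono ?_
  rintro U H ⟨⟨⟨h1, h2⟩, h3⟩, h4⟩ K hB hlam
  have hb : Base U H := hB.toBase
  -- closure
  have hF : M3.FN A hT lam dec ∈ U := h1 Fin.elim0 (fun i => i.elim0)
  have hg : ∀ ξ, ordN _ ξ ∈ U → M3.gN A hT (dec ξ) ∈ U := by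
    intro ξ hξ
    have h5 := h2 (fun _ => ordN _ ξ) (fun _ => hξ)
    have h6 : ∃ ξ', ordN (PP Ω X) ξ = ordN _ ξ' := ⟨ξ, rfl⟩
    simp only [h6, dif_pos] at h5
    have h7 : ξ = h6.choose := ordN_injective h6.choose_spec
    rwa [← h7] at h5
  -- pairs of the elements
  have hpg : ∀ (ξ : Ordinal.{0}) (x y : ZFSet.{0}),
      ZFSet.pair x y ∈ Name.val U H (M3.gN A hT (dec ξ)) ↔ ∃ (j : ℕ) (v : Ω), ordN _ (oo v) ∈ U ∧
        (j ∈ A ∧ ∃ q ∈ H, T (dec ξ) q.down j v) ∧ x = num j ∧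
        y = Name.val U H (ordN _ (oo v)) := by
    intro ξ x y
    rw [M3.gN, pair_mem_val_relN hb (fun i j h => h4 _ _ h)]
    constructor
    · rintro ⟨i, j, _, h6, ⟨q, hq, h7⟩, h8, h9⟩
      exact ⟨i, j, h6, ⟨h7.1, q, hq, h7.2⟩, by rw [h8, val_ordN_nat hb], h9⟩
    · rintro ⟨i, j, h6, ⟨h7, q, hq, h7'⟩, h8, h9⟩
      exact ⟨i, j, hb.nat i, h6, ⟨q, hq, h7, h7'⟩, by rw [h8, val_ordN_nat hb], h9⟩
  have hnum := num_injective hb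
  have huniq : ∀ (ξ : Ordinal.{0}) (j : ℕ) (v v' : Ω) (q q' : PP Ω X), q ∈ H → q' ∈ H →
      T (dec ξ) q.down j v → T (dec ξ) q'.down j v' → v = v' := by
    intro ξ j v v' q q' hq hq' h h'
    obtain ⟨r, _, hr1, hr2⟩ := hb.filt.dir q hq q' hq'
    exact hT.uniq _ _ _ _ _ (hT.mono _ _ _ _ _ (ULift.down_le.2 hr1) h)
      (hT.mono _ _ _ _ _ (ULift.down_le.2 hr2) h')
  have helt : ∀ ξ, ordN _ ξ ∈ U → Elt (MM U H) (alN U H K) A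
      (Name.val U H (M3.gN A hT (dec ξ))) := by
    intro ξ hξ
    refine ⟨⟨_, mem_univ _, hg ξ hξ, rfl⟩, ⟨?_, ?_⟩, ?_⟩
    · intro z hz
      obtain ⟨i, j, _, h6, ⟨q, hq, h7⟩, h8⟩ := M3.mem_val_relN hb (fun i j h => h4 _ _ h) hz
      refine ⟨num i, (nset_eq hb A _).2 ⟨i, h7.1, rfl⟩, Name.val U H (ordN _ (oo j)), ?_⟩
      rw [h8, val_ordN_nat hb]
    · intro x hx
      obtain ⟨n, hn, rfl⟩ := (nset_eq hb A _).1 hx
      rcases h3 ξ n hξ (hb.nat n) with ⟨q, hq, η, hη, n', hn', v, rfl, h6⟩ | ⟨p, hp, h6⟩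
      · have hn'' : n' = n := (Nat.cast_injective hn').symm
        subst hn''
        refine ⟨Name.val U H (ordN _ (oo v)), (hpg ξ _ _).2 ⟨n', v, hη, ⟨hn, q, hq, h6⟩, rfl, rfl⟩,
          fun y hy => ?_⟩
        obtain ⟨j, v', h7, ⟨_, q', hq', h8⟩, h9, rfl⟩ := (hpg ξ _ _).1 hy
        have hj : j = n' := (hnum h9).symm
        subst hj
        rw [huniq ξ j v' v q' q hq' hq h8 h6]
      · exfalso
        obtain ⟨q, hq, v, hv⟩ := hT.dense (dec ξ) p.down n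
        exact h6 ⟨q⟩ (ULift.down_le.1 hq) (oo v) ⟨n, rfl, v, rfl, hv⟩
    · intro n _ y hy
      obtain ⟨j, v, h7, ⟨_, q, hq, h8⟩, h9, rfl⟩ := (hpg ξ _ _).1 hy
      have hj : j = n := (hnum h9).symm
      subst hj
      obtain ⟨h10, h11⟩ := hT.lt _ _ _ _ h8
      refine (mem_val_ordN hb).2 ⟨oo v, ?_, h7, rfl⟩
      rw [hB.card_alO hq h10]
      exact oo_lt_ord.2 h11
  have hpF : ∀ (ξ : Ordinal.{0}) (y : ZFSet.{0}), ordN _ ξ ∈ U → ξ < lam →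
      (ZFSet.pair (Name.val U H (ordN _ ξ)) y ∈ Name.val U H (M3.FN A hT lam dec) ↔
        y = Name.val U H (M3.gN A hT (dec ξ))) := by
    intro ξ y hξ hlt
    rw [M3.FN, pair_mem_val_relN hb (fun i j h => h4 _ _ h)]
    constructor
    · rintro ⟨i, j, h5, h6, ⟨q, hq, h7⟩, h8, h9⟩
      subst h7
      rw [val_ordN_inj hb hξ h5] at h8
      rw [h9, ← h8]
    · intro hy
      obtain ⟨q, hq⟩ := hb.filt.ne
      refine ⟨Ordinal.ToType.mk ⟨ξ, hlt⟩, Ordinal.ToType.mk ⟨ξ, hlt⟩, ?_, ?_, ⟨q, hq, rfl⟩, ?_, ?_⟩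
      · simpa using hξ
      · simpa using hg ξ hξ
      · simp
      · simpa using hy
  refine ⟨Name.val U H (M3.FN A hT lam dec), ⟨_, mem_univ _, hF, rfl⟩, ⟨?_, ?_⟩, ?_, ?_⟩
  · intro z hz
    obtain ⟨i, j, h5, h6, ⟨q, hq, h7⟩, h8⟩ := M3.mem_val_relN hb (fun i j h => h4 _ _ h) hz
    exact ⟨_, (mem_val_ordN hb).2 ⟨_, (Ordinal.ToType.toOrd i).2, h5, rfl⟩, _, h8⟩
  · intro x hx
    obtain ⟨ξ, hlt, hξ, rfl⟩ := (mem_val_ordN hb).1 hx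
    exact ⟨_, (hpF ξ _ hξ hlt).2 rfl, fun y hy => (hpF ξ _ hξ hlt).1 hy⟩
  · intro x hx g hxg
    obtain ⟨ξ, hlt, hξ, rfl⟩ := (mem_val_ordN hb).1 hx
    rw [(hpF ξ _ hξ hlt).1 hxg]
    exact helt ξ hξ
  · intro ξ hlt hξ
    refine ⟨_, (hpF ξ _ hξ hlt).2 rfl, fun j hj y => ?_⟩
    rw [hpg]
    constructor
    · rintro ⟨j', v, h6, ⟨_, h7⟩, h8, h9⟩
      have hj' : j' = j := (hnum h8).symm
      subst hj'
      exact ⟨v, h6, h9, h7⟩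
    · rintro ⟨v, h6, h9, h7⟩
      exact ⟨j, v, h6, ⟨hj, h7⟩, rfl, h9⟩

/-! ### Row Q1: helper lemmas -/

namespace Q1

lemma oo_inj {a b : Ω} (h : oo a = oo b) : a = b := by
  rcases lt_trichotomy a b with hlt | heq | hgt
  · exact absurd h (oo_lt_iff.2 hlt).ne
  · exact heq
  · exact absurd h (oo_lt_iff.2 hgt).ne'

lemma alO_le (K : ℕ → Ω) (j : ℕ) : alO K j ≤ D.κ.ord := by
  unfold alO
  split_ifs with h
  · rw [← ord_aleph0]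
    exact ord_le_ord.2 D.κ_inacc.aleph0_lt.le
  · exact ord_le_ord.2 (sc_pw_lt_κ _ _).le

section
variable {U : Set (Name (PP Ω X))} {H : Set (PP Ω X)} {K : ℕ → Ω}

lemma exists_val (hB : GB U H K) {j : ℕ} {y : ZFSet.{0}} (hy : y ∈ alN U H K j) :
    ∃ v : Ω, ordN _ (oo v) ∈ U ∧ y = Name.val U H (ordN _ (oo v)) := by
  obtain ⟨β, hβ, hβU, rfl⟩ := (mem_val_ordN hB.toBase).1 hy
  obtain ⟨v, rfl⟩ := (exists_oo (Ω := Ω) X).1 (hβ.trans_le (alO_le K j))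
  exact ⟨v, hβU, rfl⟩

/-- Membership of a pair in the value of a name. -/
lemma pair_mem_iff (hB : Base U H) {σ ρ τ : Name (PP Ω X)} (hσ : σ ∈ U) (hρ : ρ ∈ U)
    (hτ : τ ∈ U) : ZFSet.pair (Name.val U H σ) (Name.val U H ρ) ∈ Name.val U H τ ↔
      ∃ p ∈ H, Name.fmem (oN σ ρ) τ p := by
  rw [← val_oN hB hσ hρ]
  exact Name.val_mem_iff hB.full.at' (oN_mem hB hσ hρ) hτ

lemma num_pair_mem_iff (hB : Base U H) {τ : Name (PP Ω X)} (hτ : τ ∈ U) {j : ℕ} {v : Ω}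
    (hv : ordN _ (oo v) ∈ U) :
    ZFSet.pair (num j) (Name.val U H (ordN _ (oo v))) ∈ Name.val U H τ ↔
      ∃ p ∈ H, Name.fmem (oN (ordN _ (j : Ordinal.{0})) (ordN _ (oo v))) τ p := by
  rw [← val_ordN_nat hB j]
  exact pair_mem_iff hB (hB.nat j) hv hτ

/-- Values of elements of the product are unique. -/
lemma elt_uniq (hB : GB U H K) {A : Set ℕ} {g : ZFSet.{0}}
    (hg : Elt (MM U H) (alN U H K) A g) {j : ℕ} (hj : j ∈ A) {v v' : Ω}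
    (hv : ordN _ (oo v) ∈ U) (hv' : ordN _ (oo v') ∈ U)
    (h : ZFSet.pair (num j) (Name.val U H (ordN _ (oo v))) ∈ g)
    (h' : ZFSet.pair (num j) (Name.val U H (ordN _ (oo v'))) ∈ g) : v = v' := by
  have hn : num j ∈ nset A := (nset_eq hB.toBase A _).2 ⟨j, hj, rfl⟩
  have h1 := (hg.2.1.2 _ hn).unique h h'
  exact oo_inj ((val_ordN_inj hB.toBase hv hv').1 h1)

/-- Values of elements of the product are bounded. -/
lemma elt_bd (hB : GB U H K) {A : Set ℕ} {g : ZFSet.{0}}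
    (hg : Elt (MM U H) (alN U H K) A g) {j : ℕ} (hj : j ∈ A) {v : Ω}
    (hv : ordN _ (oo v) ∈ U)
    (h : ZFSet.pair (num j) (Name.val U H (ordN _ (oo v))) ∈ g) {q : PP Ω X} (hq : q ∈ H)
    (hk : known q.down j) : crd v < alc q.down j := by
  have h1 := hg.2.2 j hj _ h
  have h2 := (val_ordN_mem_iff hB.toBase hv (hB.alO_mem j)).1 h1
  rw [hB.card_alO hq hk] at h2
  exact oo_lt_ord.1 h2

end

/-- The relation given by a name of an element. -/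
def RE (A : Set ℕ) (τ : Name (PP Ω X)) (q : Cond Ω X) (j : ℕ) (v : Ω) : Prop :=
  j ∈ A ∧ Name.fmem (oN (ordN _ (j : Ordinal.{0})) (ordN _ (oo v))) τ (ULift.up q)

lemma RE.mono {A : Set ℕ} {τ : Name (PP Ω X)} {q q' : Cond Ω X} {j : ℕ} {v : Ω}
    (h : RE A τ q j v) (hq : q' ≤ q) : RE A τ q' j v :=
  ⟨h.1, Name.fmem_mono h.2 (show (ULift.up q' : PP Ω X) ≤ ULift.up q from hq)⟩

end Q1

/-- Task Q1: names of elements of the product. For `g ∈ ∏` there is a relation `R`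
(`q ⊩ g(j) = v`) of the following kind. `S` is any relation; if the conditions `r` with an answer
`ξ` such that `S R r ξ` are dense below some element of `H`, there is such an element of `H` with
an answer in `U`. -/
theorem Ev.elt (A : Set ℕ)
    (S : (Cond Ω X → ℕ → Ω → Prop) → Cond Ω X → Ordinal.{0} → Prop) :
    Ev (P := PP Ω X) (fun U H => ∀ K, GB U H K → ∀ g, Elt (MM U H) (alN U H K) A g →
      ∃ R : Cond Ω X → ℕ → Ω → Prop, (∃ p ∈ H, EN p.down R) ∧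
        (∀ j ∈ A, ∀ y, ZFSet.pair (num j) y ∈ g → ∃ v : Ω, ordN _ (oo v) ∈ U ∧
          y = Name.val U H (ordN _ (oo v)) ∧ ∃ q ∈ H, R q.down j v) ∧
        ((∃ p ∈ H, ∀ q ≤ p.down, ∃ r ≤ q, ∃ ξ, S R r ξ) →
          ∃ q ∈ H, ∃ ξ, ordN _ ξ ∈ U ∧ S R q.down ξ)) := by
  have t1 := Ev.gen (P := PP Ω X) (n := 1) (fun v q ρ => ∃ (j : ℕ) (a b : Ω), a ≠ b ∧
    ρ = oN (ordN _ (j : Ordinal.{0})) (oN (ordN _ (oo a)) (ordN _ (oo b))) ∧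
      Q1.RE A (v 0) q.down j a ∧ Q1.RE A (v 0) q.down j b)
  have t2 := Ev.gen (P := PP Ω X) (n := 1) (fun v q ρ => ∃ (j : ℕ) (a : Ω),
    ρ = oN (ordN _ (j : Ordinal.{0})) (ordN _ (oo a)) ∧ known q.down j ∧
      Q1.RE A (v 0) q.down j a ∧ ¬ crd a < alc q.down j)
  have t3 := Ev.ogen (P := PP Ω X) (n := 1) (fun v q ξ => S (Q1.RE A (v 0)) q.down ξ)
  refine (((t1.and t2).and t3).and Ev.parts).mono ?_
  rintro U H ⟨⟨⟨h1, h2⟩, h3⟩, h4⟩ K hB g hg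
  obtain ⟨τ, -, hτ, hgτ⟩ := hg.1
  have hτ' : ∀ i, (![τ] : Fin 1 → Name (PP Ω X)) i ∈ U := by
    intro i
    fin_cases i
    exact hτ
  have hmem : ∀ {q : PP Ω X}, q ∈ H → ∀ {j : ℕ} {v : Ω}, ordN _ (oo v) ∈ U →
      Q1.RE A τ q.down j v → ZFSet.pair (num j) (Name.val U H (ordN _ (oo v))) ∈ g := by
    intro q hq j v hv hR
    rw [hgτ]
    exact (Q1.num_pair_mem_iff hB.toBase hτ hv).2 ⟨q, hq, hR.2⟩
  refine ⟨Q1.RE A τ, ?_, ?_, ?_⟩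
  · -- below some condition this is a name of an element
    obtain ⟨p₁, hp₁, hn₁⟩ : ∃ p ∈ H, ∀ q ≤ p, ∀ (j : ℕ) (a b : Ω), Q1.RE A τ q.down j a →
        Q1.RE A τ q.down j b → a = b := by
      rcases h1 ![τ] hτ' with ⟨q, hq, ρ, hρ, j, a, b, hab, rfl, ha, hb⟩ | ⟨p, hp, hn⟩
      · exfalso
        obtain ⟨-, hρ2⟩ := h4 _ _ hρ
        obtain ⟨haU, hbU⟩ := h4 _ _ hρ2
        exact hab (Q1.elt_uniq hB hg ha.1 haU hbU (hmem hq haU ha) (hmem hq hbU hb))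
      · refine ⟨p, hp, fun q hq j a b ha hb => ?_⟩
        by_contra hab
        exact hn q hq _ ⟨j, a, b, hab, rfl, ha, hb⟩
    obtain ⟨p₂, hp₂, hn₂⟩ : ∃ p ∈ H, ∀ q ≤ p, ∀ (j : ℕ) (a : Ω), known q.down j →
        Q1.RE A τ q.down j a → crd a < alc q.down j := by
      rcases h2 ![τ] hτ' with ⟨q, hq, ρ, hρ, j, a, rfl, hk, ha, hno⟩ | ⟨p, hp, hn⟩
      · exfalso
        obtain ⟨-, haU⟩ := h4 _ _ hρ
        exact hno (Q1.elt_bd hB hg ha.1 haU (hmem hq haU ha) hq hk)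
      · refine ⟨p, hp, fun q hq j a hk ha => ?_⟩
        by_contra hab
        exact hn q hq _ ⟨j, a, rfl, hk, ha, hab⟩
    obtain ⟨p, hp, hle₁, hle₂⟩ := hB.filt.dir p₁ hp₁ p₂ hp₂
    refine ⟨p, hp, ⟨fun q q' j v hq h => h.mono hq, fun q hq j v v' h h' => ?_,
      fun q hq j v hk h => ?_⟩⟩
    · exact hn₁ (ULift.up q) ((show ULift.up q ≤ p from hq).trans hle₁) j v v' h h'
    · exact hn₂ (ULift.up q) ((show ULift.up q ≤ p from hq).trans hle₂) j v hk h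
  · intro j hj y hy
    obtain ⟨v, hvU, rfl⟩ := Q1.exists_val hB (hg.2.2 j hj y hy)
    refine ⟨v, hvU, rfl, ?_⟩
    rw [hgτ] at hy
    obtain ⟨p, hp, hf⟩ := (Q1.num_pair_mem_iff hB.toBase hτ hvU).1 hy
    exact ⟨p, hp, hj, hf⟩
  · rintro ⟨p, hp, hd⟩
    rcases h3 ![τ] hτ' with ⟨q, hq, ξ, hξ, hS⟩ | ⟨p', hp', hn⟩
    · exact ⟨q, hq, ξ, hξ, hS⟩
    · exfalso
      obtain ⟨r, hr, hle₁, hle₂⟩ := hB.filt.dir p hp p' hp'
      obtain ⟨s, hs, ξ, hS⟩ := hd r.down hle₁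
      exact hn (ULift.up s) ((show ULift.up s ≤ r from hs).trans hle₂) ξ hS


/-! ### Row Q2: helper lemmas -/

namespace Q2

/-- The relation given by a name `τ` of a family: for the index `a` and the argument `j` the
value is `v`. -/
def RF (A : Set ℕ) (τ : Name (PP Ω X)) (a : Ordinal.{0}) (q : Cond Ω X) (j : ℕ) (v : Ω) : Prop :=
  j ∈ A ∧ ∀ q' ≤ (ULift.up q : PP Ω X), ∃ r ≤ q', ∃ ν : Name (PP Ω X),
    Name.fmem (oN (ordN _ a) ν) τ r ∧ Q1.RE A ν r.down j v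

lemma RF.mono {A : Set ℕ} {τ : Name (PP Ω X)} {a : Ordinal.{0}} {q q' : Cond Ω X} {j : ℕ} {v : Ω}
    (h : RF A τ a q j v) (hq : q' ≤ q) : RF A τ a q' j v :=
  ⟨h.1, fun q'' hq'' => h.2 q'' (hq''.trans (show (ULift.up q' : PP Ω X) ≤ ULift.up q from hq))⟩

/-- The relation for a family indexed by `δ`. -/
def RD (A : Set ℕ) (τ : Name (PP Ω X)) (δ : Ordinal.{0}) (q : Cond Ω X) (s : δ.ToType) (j : ℕ)
    (v : Ω) : Prop := RF A τ (Ordinal.ToType.toOrd s).1 q j v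

lemma toOrd_inj {δ : Ordinal.{0}} {s s' : δ.ToType}
    (h : (Ordinal.ToType.toOrd s).1 = (Ordinal.ToType.toOrd s').1) : s = s' :=
  Ordinal.ToType.mk.symm.injective (Subtype.ext h)

end Q2

/-- Task Q2: the same for families `F` indexed by an ordinal `δ`. -/
theorem Ev.fam (A : Set ℕ)
    (S : (δ : Ordinal.{0}) → (Cond Ω X → δ.ToType → ℕ → Ω → Prop) → Cond Ω X →
      Ordinal.{0} → Prop)
    (S' : (δ : Ordinal.{0}) → (Cond Ω X → δ.ToType → ℕ → Ω → Prop) → Ordinal.{0} → δ.ToType →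
      Cond Ω X → Prop) :
    Ev (P := PP Ω X) (fun U H => ∀ K, GB U H K → ∀ δ : Ordinal.{0}, ordN _ δ ∈ U →
      ∀ F ∈ MM U H, FunOn F (Name.val U H (ordN _ δ)) →
      (∀ x ∈ Name.val U H (ordN _ δ), ∀ g, ZFSet.pair x g ∈ F →
        Elt (MM U H) (alN U H K) A g) →
      ∃ R : Cond Ω X → δ.ToType → ℕ → Ω → Prop, (∃ p ∈ H, ∀ s, EN p.down (fun q => R q s)) ∧
        (∀ x ∈ Name.val U H (ordN _ δ), ∀ g, ZFSet.pair x g ∈ F → ∃ s : δ.ToType,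
          ordN (PP Ω X) (Ordinal.ToType.toOrd s).1 ∈ U ∧
          ∀ j ∈ A, ∀ y, ZFSet.pair (num j) y ∈ g → ∃ v : Ω, ordN _ (oo v) ∈ U ∧
            y = Name.val U H (ordN _ (oo v)) ∧ ∃ q ∈ H, R q.down s j v) ∧
        ((∃ p ∈ H, ∀ q ≤ p.down, ∃ r ≤ q, ∃ ξ, S δ R r ξ) →
          ∃ q ∈ H, ∃ ξ, ordN _ ξ ∈ U ∧ S δ R q.down ξ) ∧
        ∀ ξ, ordN _ ξ ∈ U → ∀ s : δ.ToType, ordN (PP Ω X) (Ordinal.ToType.toOrd s).1 ∈ U →
          (∃ p ∈ H, ∀ q ≤ p.down, ∃ r ≤ q, S' δ R ξ s r) → ∃ q ∈ H, S' δ R ξ s q.down) := by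
  have t1 := Ev.gen (P := PP Ω X) (n := 1) (fun v q ρ => ∃ (α : Ordinal.{0}) (j : ℕ) (a b : Ω)
    (ν ν' : Name (PP Ω X)), a ≠ b ∧
      ρ = oN (oN (ordN _ α) (oN ν ν')) (oN (ordN _ (oo a)) (ordN _ (oo b))) ∧
      Name.fmem (oN (ordN _ α) ν) (v 0) q ∧ Name.fmem (oN (ordN _ α) ν') (v 0) q ∧
      Q1.RE A ν q.down j a ∧ Q1.RE A ν' q.down j b)
  have t2 := Ev.gen (P := PP Ω X) (n := 1) (fun v q ρ => ∃ (α : Ordinal.{0}) (j : ℕ) (a : Ω)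
    (ν : Name (PP Ω X)),
      ρ = oN (oN (ordN _ α) ν) (ordN _ (oo a)) ∧ known q.down j ∧
      Name.fmem (oN (ordN _ α) ν) (v 0) q ∧ Q1.RE A ν q.down j a ∧ ¬ crd a < alc q.down j)
  have t3 := Ev.ogen (P := PP Ω X) (n := 2) (fun v q ξ => ∃ δ : Ordinal.{0}, v 1 = ordN _ δ ∧
    S δ (Q2.RD A (v 0) δ) q.down ξ)
  have t4 := Ev.gen' (P := PP Ω X) (n := 4) (fun v q => ∃ (δ ξ : Ordinal.{0}) (s : δ.ToType),
    v 1 = ordN _ δ ∧ v 2 = ordN _ ξ ∧ v 3 = ordN _ (Ordinal.ToType.toOrd s).1 ∧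
    S' δ (Q2.RD A (v 0) δ) ξ s q.down)
  refine ((((t1.and t2).and t3).and t4).and Ev.parts).mono ?_
  rintro U H ⟨⟨⟨⟨h1, h2⟩, h3⟩, h4⟩, h5⟩ K hB δ hδ F hF hFun hElt
  obtain ⟨τ, -, hτ, hFτ⟩ := hF
  have hτ' : ∀ i, (![τ] : Fin 1 → Name (PP Ω X)) i ∈ U := by
    intro i
    fin_cases i
    exact hτ
  -- membership in `F` for a condition in `H`
  have hmem : ∀ {q : PP Ω X}, q ∈ H → ∀ {α : Ordinal.{0}} {ν : Name (PP Ω X)}, ordN _ α ∈ U →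
      ν ∈ U → Name.fmem (oN (ordN _ α) ν) τ q →
      ZFSet.pair (Name.val U H (ordN _ α)) (Name.val U H ν) ∈ F := by
    intro q hq α ν hα hν hf
    rw [hFτ]
    exact (Q1.pair_mem_iff hB.toBase hα hν hτ).2 ⟨q, hq, hf⟩
  have hdom : ∀ {x y : ZFSet.{0}}, ZFSet.pair x y ∈ F → x ∈ Name.val U H (ordN _ δ) := by
    intro x y hxy
    obtain ⟨x', hx', y', e⟩ := hFun.1 _ hxy
    rw [(ZFSet.pair_injective e).1]
    exact hx'
  have hmem' : ∀ {q : PP Ω X}, q ∈ H → ∀ {ν : Name (PP Ω X)} {j : ℕ} {v : Ω}, ν ∈ U →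
      ordN _ (oo v) ∈ U → Q1.RE A ν q.down j v →
      ZFSet.pair (num j) (Name.val U H (ordN _ (oo v))) ∈ Name.val U H ν := by
    intro q hq ν j v hν hv hR
    exact (Q1.num_pair_mem_iff hB.toBase hν hv).2 ⟨q, hq, hR.2⟩
  refine ⟨Q2.RD A τ δ, ?_, ?_, ?_, ?_⟩
  · obtain ⟨p₁, hp₁, hn₁⟩ : ∃ p ∈ H, ∀ q ≤ p, ∀ (α : Ordinal.{0}) (j : ℕ) (a b : Ω)
        (ν ν' : Name (PP Ω X)), Name.fmem (oN (ordN _ α) ν) τ q →
        Name.fmem (oN (ordN _ α) ν') τ q → Q1.RE A ν q.down j a → Q1.RE A ν' q.down j b →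
        a = b := by
      rcases h1 ![τ] hτ' with
        ⟨q, hq, ρ, hρ, α, j, a, b, ν, ν', hab, rfl, hν, hν', ha, hb⟩ | ⟨p, hp, hn⟩
      · exfalso
        obtain ⟨hρ1, hρ2⟩ := h5 _ _ hρ
        obtain ⟨hαU, hρ3⟩ := h5 _ _ hρ1
        obtain ⟨hνU, hνU'⟩ := h5 _ _ hρ3
        obtain ⟨haU, hbU⟩ := h5 _ _ hρ2
        have e1 := hmem hq hαU hνU hν
        have e2 := hmem hq hαU hνU' hν'
        have e3 := (hFun.2 _ (hdom e1)).unique e1 e2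
        have e4 := hElt _ (hdom e1) _ e1
        have e5 := hmem' hq hνU' hbU hb
        rw [← e3] at e5
        exact hab (Q1.elt_uniq hB e4 ha.1 haU hbU (hmem' hq hνU haU ha) e5)
      · refine ⟨p, hp, fun q hq α j a b ν ν' hν hν' ha hb => ?_⟩
        by_contra hab
        exact hn q hq _ ⟨α, j, a, b, ν, ν', hab, rfl, hν, hν', ha, hb⟩
    obtain ⟨p₂, hp₂, hn₂⟩ : ∃ p ∈ H, ∀ q ≤ p, ∀ (α : Ordinal.{0}) (j : ℕ) (a : Ω)
        (ν : Name (PP Ω X)), known q.down j → Name.fmem (oN (ordN _ α) ν) τ q →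
        Q1.RE A ν q.down j a → crd a < alc q.down j := by
      rcases h2 ![τ] hτ' with ⟨q, hq, ρ, hρ, α, j, a, ν, rfl, hk, hν, ha, hno⟩ | ⟨p, hp, hn⟩
      · exfalso
        obtain ⟨hρ1, haU⟩ := h5 _ _ hρ
        obtain ⟨hαU, hνU⟩ := h5 _ _ hρ1
        have e1 := hmem hq hαU hνU hν
        exact hno (Q1.elt_bd hB (hElt _ (hdom e1) _ e1) ha.1 haU (hmem' hq hνU haU ha) hq hk)
      · refine ⟨p, hp, fun q hq α j a ν hk hν ha => ?_⟩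
        by_contra hab
        exact hn q hq _ ⟨α, j, a, ν, rfl, hk, hν, ha, hab⟩
    obtain ⟨p, hp, hle₁, hle₂⟩ := hB.filt.dir p₁ hp₁ p₂ hp₂
    refine ⟨p, hp, fun s => ⟨fun q q' j v hq h => h.mono hq, fun q hq j v v' h h' => ?_,
      fun q hq j v hk h => ?_⟩⟩
    · have hqp : (ULift.up q : PP Ω X) ≤ p := hq
      obtain ⟨r, hr, ν, hν, hv⟩ := h.2 (ULift.up q) le_rfl
      obtain ⟨r', hr', ν', hν', hv'⟩ := h'.2 r hr
      exact hn₁ r' ((hr'.trans hr).trans (hqp.trans hle₁)) _ j v v' ν ν' (Name.fmem_mono hν hr')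
        hν' (hv.mono hr') hv'
    · have hqp : (ULift.up q : PP Ω X) ≤ p := hq
      obtain ⟨r, hr, ν, hν, hv⟩ := h.2 (ULift.up q) le_rfl
      have hrq : r.down ≤ q := hr
      obtain ⟨hk', hal⟩ := hk.mono hrq
      rw [← hal]
      exact hn₂ r (hr.trans (hqp.trans hle₂)) _ j v ν hk' hν hv
  · intro x hx g hg
    obtain ⟨β, hβ, hβU, rfl⟩ := (mem_val_ordN hB.toBase).1 hx
    have hE := hElt _ hx _ hg
    obtain ⟨ν, -, hν, rfl⟩ := hE.1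
    refine ⟨Ordinal.ToType.mk ⟨β, hβ⟩, by simpa using hβU, fun j hj y hy => ?_⟩
    obtain ⟨v, hvU, rfl⟩ := Q1.exists_val hB (hE.2.2 j hj y hy)
    refine ⟨v, hvU, rfl, ?_⟩
    obtain ⟨p₁, hp₁, hf₁⟩ := (Q1.num_pair_mem_iff hB.toBase hν hvU).1 hy
    rw [hFτ] at hg
    obtain ⟨p₂, hp₂, hf₂⟩ := (Q1.pair_mem_iff hB.toBase hβU hν hτ).1 hg
    obtain ⟨p, hp, hle₁, hle₂⟩ := hB.filt.dir p₁ hp₁ p₂ hp₂
    refine ⟨p, hp, hj, fun q' hq' => ⟨q', le_rfl, ν, ?_, hj, ?_⟩⟩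
    · have := Name.fmem_mono hf₂ (hq'.trans hle₂)
      simpa using this
    · exact Name.fmem_mono hf₁ (hq'.trans hle₁)
  · rintro ⟨p, hp, hd⟩
    rcases h3 ![τ, ordN _ δ] (Name.forall2 hτ hδ) with ⟨q, hq, ξ, hξ, δ', he, hS⟩ | ⟨p', hp', hn⟩
    · obtain rfl := ordN_injective (show ordN _ δ = ordN _ δ' from he)
      exact ⟨q, hq, ξ, hξ, hS⟩
    · exfalso
      obtain ⟨r, hr, hle₁, hle₂⟩ := hB.filt.dir p hp p' hp'
      obtain ⟨s, hs, ξ, hS⟩ := hd r.down hle₁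
      exact hn (ULift.up s) ((show ULift.up s ≤ r from hs).trans hle₂) ξ ⟨δ, rfl, hS⟩
  · rintro ξ hξ s hs ⟨p, hp, hd⟩
    have hv : ∀ i, (![τ, ordN _ δ, ordN _ ξ, ordN _ (Ordinal.ToType.toOrd s).1] :
        Fin 4 → Name (PP Ω X)) i ∈ U := by
      intro i
      fin_cases i
      · exact hτ
      · exact hδ
      · exact hξ
      · exact hs
    rcases h4 _ hv with ⟨q, hq, δ', ξ', s', he1, he2, he3, hS⟩ | ⟨p', hp', hn⟩
    · obtain rfl := ordN_injective (show ordN _ δ = ordN _ δ' from he1)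
      obtain rfl := ordN_injective (show ordN _ ξ = ordN _ ξ' from he2)
      obtain rfl := Q2.toOrd_inj (ordN_injective (show ordN _ (Ordinal.ToType.toOrd s).1 =
        ordN _ (Ordinal.ToType.toOrd s').1 from he3))
      exact ⟨q, hq, hS⟩
    · exfalso
      obtain ⟨r, hr, hle₁, hle₂⟩ := hB.filt.dir p hp p' hp'
      obtain ⟨t, ht, hS⟩ := hd r.down hle₁
      exact hn (ULift.up t) ((show ULift.up t ≤ r from ht).trans hle₂) ⟨δ, ξ, s, rfl, rfl, rfl, hS⟩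

namespace Q3

lemma oo_le {v w : Ω} (h : v ≤ w) : oo v ≤ oo w :=
  not_lt.1 fun h' => not_lt.2 h (oo_lt_iff.1 h')

/-- The restriction of a name to a stronger condition. -/
lemma EN_restrict {p q : Cond Ω X} {R : Cond Ω X → ℕ → Ω → Prop} (h : EN p R) (hq : q ≤ p) :
    EN q R :=
  ⟨h.mono, fun r hr => h.uniq r (hr.trans hq), fun r hr => h.bd r (hr.trans hq)⟩

end Q3

/-- Task Q3: the upper bound for the cofinality. -/
theorem Ev.upper {Z : Type} (A : Set ℕ) {T : Z → Cond Ω X → ℕ → Ω → Prop} (hT : TT T)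
    (lam : Ordinal.{0}) (dec : Ordinal.{0} → Z)
    (hup : ∀ (p : Cond Ω X) (R : Cond Ω X → ℕ → Ω → Prop), EN p R →
      ∃ q ≤ p, ∃ ξ < lam, ∀ q' ≤ q, ∀ j ∈ A, ∀ v w, R q' j v → T (dec ξ) q' j w → v ≤ w) :
    Ev (P := PP Ω X) (fun U H => ∀ K, GB U H K → ordN _ lam ∈ U →
      CofFam (MM U H) (alN U H K) A (Name.val U H (ordN _ lam))) := by
  have e1 := Ev.family A hT lam dec
  have e2 := Ev.elt (Ω := Ω) (X := X) A (fun R q ξ => ξ < lam ∧ ∀ q' ≤ q, ∀ j ∈ A, ∀ v w,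
    R q' j v → T (dec ξ) q' j w → v ≤ w)
  refine (e1.and e2).mono ?_
  rintro U H ⟨h1, h2⟩ K hK hlam
  obtain ⟨F, hF, hFfun, hFelt, hFval⟩ := h1 K hK hlam
  refine ⟨F, hF, hFfun, hFelt, ?_⟩
  intro g hg
  obtain ⟨R, ⟨p, hp, hEN⟩, hRval, hRgen⟩ := h2 K hK g hg
  have hdense : ∃ p ∈ H, ∀ q ≤ p.down, ∃ r ≤ q, ∃ ξ, ξ < lam ∧ ∀ q' ≤ r, ∀ j ∈ A, ∀ v w,
      R q' j v → T (dec ξ) q' j w → v ≤ w := by
    refine ⟨p, hp, fun q hq => ?_⟩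
    obtain ⟨r, hr, ξ, hξ, h⟩ := hup q R (Q3.EN_restrict hEN hq)
    exact ⟨r, hr, ξ, hξ, h⟩
  obtain ⟨q, hq, ξ, hξU, hξ, hS⟩ := hRgen hdense
  obtain ⟨g', hg', hg'val⟩ := hFval ξ hξ hξU
  refine ⟨_, (val_ordN_mem_iff hK.toBase hξU hlam).2 hξ, g', hg', ?_⟩
  intro j hj y y' hy hy'
  obtain ⟨v, hvU, rfl, q1, hq1, hR1⟩ := hRval j hj y hy
  obtain ⟨w, hwU, rfl, q2, hq2, hT2⟩ := (hg'val j hj y').1 hy'
  obtain ⟨r, -, h3, h4, h5⟩ := hK.filt.dir3 hq hq1 hq2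
  have hvw : v ≤ w :=
    hS r.down h3 j hj v w (hEN.mono _ _ _ _ h4 hR1) (hT.mono _ _ _ _ _ h5 hT2)
  exact (val_ordN_subset_iff hK.toBase hvU hwU).2 (Q3.oo_le hvw)

/-- Task Q4: the lower bound for the cofinality. -/
theorem Ev.lower {Z : Type} (A : Set ℕ) {T : Z → Cond Ω X → ℕ → Ω → Prop} (hT : TT T)
    (lam : Ordinal.{0}) (dec : Ordinal.{0} → Z)
    (hlo : ∀ δ < lam, ∀ (p : Cond Ω X) (R : Cond Ω X → δ.ToType → ℕ → Ω → Prop),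
      (∀ s, EN p (fun q => R q s)) →
      ∃ q ≤ p, ∃ ξ < lam, ∀ s, ∀ p' ≤ q, ∃ r ≤ p', ∃ j ∈ A, ∀ q' ≤ r, ∀ v w, R q' s j v →
        T (dec ξ) q' j w → v < w) :
    Ev (P := PP Ω X) (fun U H => ∀ K, GB U H K → ordN _ lam ∈ U →
      ∀ d ∈ Name.val U H (ordN _ lam), ¬ CofFam (MM U H) (alN U H K) A d) := by
  have e1 := Ev.family A hT lam dec
  have e2 := Ev.fam (Ω := Ω) (X := X) A
    (fun δ R q ξ => δ < lam ∧ ξ < lam ∧ ∀ s, ∀ p' ≤ q, ∃ r ≤ p', ∃ j ∈ A, ∀ q' ≤ r, ∀ v w,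
      R q' s j v → T (dec ξ) q' j w → v < w)
    (fun _ R ξ s r => ∃ j ∈ A, ∀ q' ≤ r, ∀ v w, R q' s j v → T (dec ξ) q' j w → v < w)
  refine (e1.and e2).mono ?_
  rintro U H ⟨h1, h2⟩ K hK hlam d hd ⟨F, hF, hFfun, hFelt, hFcof⟩
  obtain ⟨δ, hδ, hδU, rfl⟩ := (mem_val_ordN hK.toBase).1 hd
  obtain ⟨R, ⟨p, hp, hEN⟩, hRval, hRgen, hRgen'⟩ := h2 K hK δ hδU F hF hFfun hFelt
  have hdense : ∃ p ∈ H, ∀ q ≤ p.down, ∃ r ≤ q, ∃ ξ, δ < lam ∧ ξ < lam ∧ ∀ s, ∀ p' ≤ r,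
      ∃ r ≤ p', ∃ j ∈ A, ∀ q' ≤ r, ∀ v w, R q' s j v → T (dec ξ) q' j w → v < w := by
    refine ⟨p, hp, fun q hq => ?_⟩
    obtain ⟨r, hr, ξ, hξ, h⟩ := hlo δ hδ q R (fun s => Q3.EN_restrict (hEN s) hq)
    exact ⟨r, hr, ξ, hδ, hξ, h⟩
  obtain ⟨q, hq, ξ, hξU, -, hξ, hS⟩ := hRgen hdense
  obtain ⟨G, -, -, hGelt, hGval⟩ := h1 K hK hlam
  obtain ⟨g, hg, hgval⟩ := hGval ξ hξ hξU
  have hgelt := hGelt _ ((val_ordN_mem_iff hK.toBase hξU hlam).2 hξ) g hg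
  obtain ⟨x, hx, g', hg', hle⟩ := hFcof g hgelt
  obtain ⟨s, hsU, hsval⟩ := hRval x hx g' hg'
  obtain ⟨q3, hq3, j, hj, hS'⟩ := hRgen' ξ hξU s hsU ⟨q, hq, fun p' hp' => hS s p' hp'⟩
  have hnum : num j ∈ nset A := (nset_eq hK.toBase A _).2 ⟨j, hj, rfl⟩
  obtain ⟨y, hy, -⟩ := hgelt.2.1.2 (num j) hnum
  obtain ⟨y', hy', -⟩ := (hFelt x hx g' hg').2.1.2 (num j) hnum
  have hsub := hle j hj y y' hy hy'
  obtain ⟨w, hwU, rfl, q1, hq1, hT1⟩ := (hgval j hj y).1 hy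
  obtain ⟨v, hvU, rfl, q2, hq2, hR2⟩ := hsval j hj y' hy'
  obtain ⟨r, -, h3, h4, h5⟩ := hK.filt.dir3 hq3 hq1 hq2
  have hvw : v < w :=
    hS' r.down h3 v w ((hEN s).mono _ _ _ _ h5 hR2) (hT.mono _ _ _ _ _ h4 hT1)
  have hle' : oo w ≤ oo v := (val_ordN_subset_iff hK.toBase hwU hvU).1 hsub
  exact absurd (oo_lt_iff.2 hvw) (not_lt.2 hle')

end Pool.P2
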