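import Mathlib

/-!
# Prikry data, version 2 (no GCH): the interface to the large cardinal

`crd a` is the cardinality of the set of predecessors of `a`.  An element `a` of the
well-ordered type `Ω` (of order type `κ`) is an ordinal below a cardinal `θ` iff `crd a < θ`.
`pw m` is `2 ^ crd m`. The large cardinal `κ` is `δ`-supercompact for `δ = (2 ^ κ)⁺`.
-/

set_option autoImplicit false

open Cardinal Set Order

namespace Pool.P2

/-- The cardinality of the ordinal `a`. -/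
noncomputable def crd {Ω : Type} [LinearOrder Ω] (a : Ω) : Cardinal.{0} := #(Iio a)

/-- The cardinal `2 ^ a`. -/
noncomputable def pw {Ω : Type} [LinearOrder Ω] (a : Ω) : Cardinal.{0} := 2 ^ crd a

/-- The `i`-th successor cardinal. -/
noncomputable def sc : ℕ → Cardinal.{0} → Cardinal.{0}
  | 0, c => c
  | i + 1, c => succ (sc i c)

/-- Everything we need about the ordinals below `κ` and about the measure. -/
class PD (Ω : Type) [LinearOrder Ω] [WellFoundedLT Ω] (X : Type) where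
  /-- the large cardinal -/
  κ : Cardinal.{0}
  /-- the measure on `P_κ(δ)` -/
  U : Ultrafilter X
  /-- the ordinal `x ∩ κ` -/
  kx : X → Ω
  /-- the set of the inaccessible cardinals below `κ` -/
  W : Set Ω
  /-- the ordinals below `2 ^ κ` -/
  T : Type
  /-- the order type of `x ∩ t` -/
  piT : X → T → Ω
  /-- the ordinals below `δ` -/
  S : Type
  /-- the order type of `x ∩ s` -/
  piS : X → S → Ω
  κ_inacc : κ.IsInaccessible
  mk_Ω : #Ω = κ
  crd_lt : ∀ a : Ω, crd a < κ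
  mk_T : #T ≤ 2 ^ κ
  mk_S : #S = succ (2 ^ κ)
  W_init : ∀ m ∈ W, ∀ a < m, crd a < crd m
  W_inacc : ∀ m ∈ W, (crd m).IsInaccessible
  kx_W : ∀ᶠ x in (U : Filter X), kx x ∈ W
  unb : ∀ a : Ω, ∀ᶠ x in (U : Filter X), a < kx x
  diag : ∀ {Z : Type} (rk : Z → Ω) (B : Z → Set X), (∀ a : Ω, #{z | rk z < a} < κ) →
    (∀ z, B z ∈ U) → ∀ᶠ x in (U : Filter X), ∀ z, rk z < kx x → x ∈ B z
  piT_lt : ∀ t : T, ∀ᶠ x in (U : Filter X), crd (piT x t) < pw (kx x)
  codeT : ∀ φ : X → Ω, (∀ᶠ x in (U : Filter X), crd (φ x) < pw (kx x)) →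
    ∃ t : T, ∀ᶠ x in (U : Filter X), φ x = piT x t
  piS_lt : ∀ (s : S) (x : X), crd (piS x s) < sc 1 (pw (kx x))
  codeS : ∀ φ : X → Ω, (∀ᶠ x in (U : Filter X), crd (φ x) < sc 1 (pw (kx x))) →
    ∃ s : S, ∀ᶠ x in (U : Filter X), φ x = piS x s
  bound2 : ∀ {ι : Type} (_ : #ι ≤ succ (2 ^ κ)) (i : ℕ) (_ : 2 ≤ i) (h : ι → X → Ω),
    (∀ s, ∀ᶠ x in (U : Filter X), crd (h s x) < sc i (pw (kx x))) →
    ∃ g : X → Ω, (∀ x, crd (g x) < sc i (pw (kx x))) ∧ ∀ s, ∀ᶠ x in (U : Filter X), h s x < g x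

/-- The cardinal `δ = (2 ^ κ)⁺`. -/
noncomputable def PD.del (Ω : Type) [LinearOrder Ω] [WellFoundedLT Ω] (X : Type) [D : PD Ω X] :
    Cardinal.{0} := succ (2 ^ D.κ)

end Pool.P2
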