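import Pool.Agent.Lib.MP_ad72f3_p2.Cover
import Pool.Agent.Lib.MP_ad72f3_p2.CC

/-!
# Task G: domination
-/

set_option autoImplicit false
set_option linter.unusedSectionVars false

open Cardinal Set Order

namespace Pool.P2

variable {Ω : Type} [LinearOrder Ω] [WellFoundedLT Ω] {X : Type} [D : PD Ω X]

/-- `R` is a name for a double sequence `τ(k, ξ)` of ordinals `< (2 ^ κ_k)^{+i}`. -/
structure FNB (i : ℕ) (p : Cond Ω X) (R : Cond Ω X → ℕ × Ω → Ω → Prop) : Prop extends FN p R where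
  bd : ∀ q ≤ p, ∀ k ξ b, k < q.len → R q (k, ξ) b → crd b < sc i (pw (q.pt k))

/-- The basic bound. -/
theorem dom_basic {i : ℕ} (hi : 1 ≤ i) (hi' : i ≤ 4) {p : Cond Ω X}
    {R : Cond Ω X → ℕ × Ω → Ω → Prop} (hR : FNB i p R) :
    ∃ q : Cond Ω X, q.Dle p ∧ ∃ B : Cond Ω X → Ω, (∀ q', crd (B q') < sc i (pw q'.m)) ∧
      ∀ q₀, q.Reach q₀ → q.len < q₀.len → ∀ q' ≤ q₀, ∀ ξ, ξ < q₀.pt (q₀.len - 2) →
        ∀ b, R q' (q₀.len - 1, ξ) b → b ≤ B q₀ := by
  classical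
  -- the property of the bound at a condition
  let Bd : Cond Ω X → Ω → Prop := fun q β => crd β < sc i (pw q.m) ∧
    ∀ q' ≤ q, q' ≤ p → ∀ ξ < q.m, ∀ b, R q' (q.s.length, ξ) b → b ≤ β
  let Φ : Ω → List Ω → Set (Up Ω X) := fun m s =>
    {v | ∀ (h : LowV X (m :: s) (Cond.triv (m :: s).length)) (hv : v.V m),
      ∃ β, Bd (⟨m, s, Cond.triv (m :: s).length, v, h, hv⟩ : Cond Ω X) β}
  obtain ⟨u, hu, hle, hΦ⟩ := multi Φ (by
    intro m s v v' hm hv hv' hvv hin h hv''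
    obtain ⟨β, hβ, hq⟩ := hin h hv
    refine ⟨β, hβ, fun q hqv => hq q (hqv.trans ?_)⟩
    exact Cond.Dle.le ⟨rfl, rfl, List.forall₂_same.2 fun c _ => Sub.refl c, hvv⟩) (by
    intro m s v hlow hv
    have hmW : m ∈ D.W := hlow.mem_W
    let Bt : Type := {b : Ω // crd b < sc i (pw m)}
    have hBt : #Bt < D.κ := (mk_crd_lt (sc i (pw m))).trans_lt (sc_pw_lt_κ (X := X) m i)
    have hAt : #(Set.Iio m) ≤ sc 3 (pw m) :=
      (crd_lt_pw m).le.trans (sc_le (Nat.zero_le 3) (pw m))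
    have hR' : FN p (fun q (a : Set.Iio m) (b : Bt) => R q (s.length, a.1) b.1) :=
      ⟨fun q q' a b => hR.mono q q' _ _,
        fun q hq a b b' h h' => Subtype.ext (hR.uniq q hq _ _ _ h h')⟩
    obtain ⟨u, hu, hle, Y, hY, hq⟩ := cover_upper hBt hR'
      (⟨m, s, Cond.triv (m :: s).length, v, hlow, hv⟩ : Cond Ω X) hAt
    refine ⟨u, hu, hle, fun h hv' => ?_⟩
    have hinf : ℵ₀ ≤ pw m := (aleph0_lt_pw hmW).le
    have hU : #(⋃ a, Y a) ≤ pw m := mk_iUnion_le hinf (crd_lt_pw m).le Y hY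
    obtain ⟨j, rfl⟩ : ∃ j, i = j + 1 := ⟨i - 1, by omega⟩
    have hreg : (sc (j + 1) (pw m)).IsRegular := sc_isRegular hinf j
    have himg : #(Subtype.val '' (⋃ a, Y a) : Set Ω) < sc (j + 1) (pw m) :=
      (Cardinal.mk_image_le.trans hU).trans_lt (sc_lt (Nat.succ_pos j) (pw m))
    obtain ⟨β, hβ, hβ'⟩ := exists_bound hreg (sc_pw_lt_κ (X := X) m (j + 1)).le himg (by
      rintro a ⟨b, -, rfl⟩
      exact b.2)
    refine ⟨β, hβ, fun q' hq' hq'p ξ hξ b hb => ?_⟩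
    have hlen : s.length < q'.len := by
      have h1 := Cond.len_le hq'
      change (m :: s).length ≤ q'.len at h1
      simpa using h1
    have hpt : q'.pt s.length = m := by
      rw [Cond.pt_of_le hq' (by change s.length < (m :: s).length; simp)]
      have h1 := Cond.pt_last (⟨m, s, Cond.triv (m :: s).length, u, h, hv'⟩ : Cond Ω X)
      exact h1
    have hbd := hR.bd q' hq'p s.length ξ b hlen hb
    rw [hpt] at hbd
    have h2 := hq q' hq' hq'p ⟨ξ, hξ⟩ ⟨b, hbd⟩ hb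
    exact (hβ' b ⟨⟨b, hbd⟩, Set.mem_iUnion.2 ⟨_, h2⟩, rfl⟩).le) p
  set q : Cond Ω X := p.withU u hu with hqdef
  have hqd : q.Dle p := Cond.withU_dle hu hle
  refine ⟨q, hqd, fun q' => if h : ∃ β, Bd q' β then h.choose else q'.m, ?_, ?_⟩
  · intro q'
    dsimp only
    split_ifs with h
    · exact h.choose_spec.1
    · exact (crd_lt_pw _).trans (sc_lt (by omega : 0 < i) (pw q'.m))
  · intro q₀ hq₀ hlen q' hq' ξ hξ b hb
    obtain ⟨β, hβ, hβ'⟩ := hΦ q₀ hq₀ (Cond.low_triv q₀.low) q₀.up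
    have hex : ∃ β, Bd q₀ β :=
      ⟨β, hβ, fun q'' hq'' => hβ' q'' (hq''.trans (Cond.dle_erase q₀).le)⟩
    have h1 : 1 ≤ q.len := by
      change 1 ≤ (q.m :: q.s).length
      simp
    have hξ' : ξ < q₀.m := by
      refine hξ.trans ?_
      rw [← Cond.pt_last q₀]
      exact Cond.pt_lt_pt q₀ (by omega) (by omega)
    dsimp only
    rw [dif_pos hex]
    refine hex.choose_spec.2 q' hq' (hq'.trans (hq₀.le.trans hqd.le)) ξ hξ' b ?_
    exact hb

/-- The reachable condition which belongs to the `k`-th point. -/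
lemma G2_reach {q q' : Cond Ω X} {k : ℕ} (hk : q.len ≤ k) (hq' : q' ≤ q) (hk' : k < q'.len) :
    ∃ q₀, q.Reach q₀ ∧ q₀.len = k + 1 ∧ q' ≤ q₀ ∧ q₀.m = q'.pt k ∧
      q₀.pt (q₀.len - 2) = q'.pt (k - 1) := by
  obtain ⟨q₀, h1, h2, h3⟩ := Cond.exists_reach_len hq' (show q.len ≤ k + 1 by omega)
    (show k + 1 ≤ q'.len by omega)
  refine ⟨q₀, h1, h2, h3, ?_, ?_⟩
  · rw [← Cond.pt_last q₀, h2, Nat.add_sub_cancel]
    exact (Cond.pt_of_le h3 (by omega)).symm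
  · rw [h2, show k + 1 - 2 = k - 1 by omega]
    exact (Cond.pt_of_le h3 (by omega)).symm

/-- Domination by ground model functions, `i = 4`. -/
theorem dom_four {p : Cond Ω X} {R : Cond Ω X → ℕ × Ω → Ω → Prop} (hR : FNB 4 p R) :
    ∃ q ≤ p, ∃ F : Ω → Ω, (∀ m ∈ D.W, crd (F m) < sc 4 (pw m)) ∧
      ∀ k, q.len ≤ k → ∀ q' ≤ q, k < q'.len → ∀ ξ < q'.pt (k - 1), ∀ b, R q' (k, ξ) b →
        b ≤ F (q'.pt k) := by
  obtain ⟨q, hq, B, hB, hdom⟩ := dom_basic (by norm_num) le_rfl hR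
  have hex : ∀ μ : Ω, ∃ b : Ω, μ ∈ D.W → crd b < sc 4 (pw μ) ∧
      ∀ q₀, q.Reach q₀ → q₀.m = μ → B q₀ < b := by
    intro μ
    by_cases hμ : μ ∈ D.W
    · have hS : #(B '' {q₀ | q.Reach q₀ ∧ q₀.m = μ} : Set Ω) < sc 4 (pw μ) :=
        (mk_image_le.trans (Cond.mk_reach_eq q μ)).trans_lt (sc_lt (by norm_num) _)
      obtain ⟨b, hb, hb'⟩ := exists_bound (D := D) (sc_isRegular (aleph0_lt_pw hμ).le 3)
        (sc_pw_lt_κ μ 4).le hS (by
          rintro _ ⟨q₀, ⟨-, h⟩, rfl⟩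
          rw [← h]
          exact hB q₀)
      exact ⟨b, fun _ => ⟨hb, fun q₀ h1 h2 => hb' _ ⟨q₀, ⟨h1, h2⟩, rfl⟩⟩⟩
    · exact ⟨μ, fun h => absurd h hμ⟩
  choose F hF using hex
  refine ⟨q, hq.le, F, fun m hm => (hF m hm).1, ?_⟩
  intro k hk q' hq' hk' ξ hξ b hb
  obtain ⟨q₀, h1, h2, h3, h4, h5⟩ := G2_reach hk hq' hk'
  have h6 := hdom q₀ h1 (by omega) q' h3 ξ (by rw [h5]; exact hξ) b
    (by rw [h2, Nat.add_sub_cancel]; exact hb)
  refine h6.trans ?_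
  rw [← h4]
  exact ((hF q₀.m (Cond.pt_last q₀ ▸ Cond.pt_mem_W q₀ (by omega))).2 q₀ h1 rfl).le

/-- Steps do not change the measure one set. -/
lemma G2_A {p q : Cond Ω X} (h : p.Reach q) : q.u.A = p.u.A := by
  induction h with
  | refl => rfl
  | step q x hx _ ih => exact ih

/-- A reachable condition which is longer is a step of a reachable condition. -/
lemma G2_cases {p q : Cond Ω X} (h : p.Reach q) (hl : p.len < q.len) :
    ∃ q₀ x, ∃ hx : q₀.u.OK q₀.m x, p.Reach q₀ ∧ q = q₀.step x hx := by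
  cases h with
  | refl => exact absurd hl (lt_irrefl _)
  | step q₀ x hx h => exact ⟨q₀, x, hx, h, rfl⟩

-- BEGIN G3
/-- The coordinate `h` along extensions: the rank changes only below the last point, undecided
values above the length stay undecided. -/
lemma G3_ext {h : Crd Ω X} {p' p : Cond Ω X} (hle : Cond.Ext p' p) :
    ∀ ρ σ, p.u.f h = some (ρ, σ) → p.len ≤ p'.len ∧ p.m ≤ p'.m ∧
      ∃ ρ' σ', p'.u.f h = some (ρ', σ') ∧ max ρ' p'.m = max ρ p'.m ∧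
        ∀ j, p'.len ≤ j → σ j = none → σ' j = none := by
  induction hle with
  | @dir p hd =>
    intro ρ σ e
    obtain ⟨ρ', e', h1⟩ := hd.u.f h ρ σ e
    refine ⟨hd.len.ge, hd.m.ge, ρ', σ, e', ?_, fun j _ hj => hj⟩
    rw [hd.m]
    exact h1
  | @step p x hx _ ih =>
    intro ρ σ e
    have e1 : (p.step x hx).u.f h = some (ρ, updf p.len x h ρ σ) := stepf_some e
    obtain ⟨h1, h2, ρ', σ', e2, h3, h4⟩ := ih ρ _ e1
    have hl : (p.step x hx).len = p.len + 1 := rfl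
    refine ⟨by omega, le_trans hx.lt.le h2, ρ', σ', e2, h3, ?_⟩
    intro j hj hσ
    refine h4 j hj ?_
    have hne : j ≠ p.len := by omega
    unfold updf
    split_ifs
    · rw [Function.update_of_ne hne]; exact hσ
    · exact hσ

/-- The coordinate `h` along steps. -/
lemma G3_reach {h : Crd Ω X} {p q : Cond Ω X} (hr : p.Reach q) :
    ∀ ρ σ, p.u.f h = some (ρ, σ) → p.len ≤ q.len ∧ p.m ≤ q.m ∧
      ∃ σ', q.u.f h = some (ρ, σ') ∧ ∀ j, q.len ≤ j → σ j = none → σ' j = none := by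
  induction hr with
  | refl => exact fun ρ σ e => ⟨le_rfl, le_rfl, σ, e, fun j _ hj => hj⟩
  | step r x hx _ ih =>
    intro ρ σ e
    obtain ⟨h1, h2, σ', e1, h3⟩ := ih ρ σ e
    have e2 : (r.step x hx).u.f h = some (ρ, updf r.len x h ρ σ') := stepf_some e1
    have hl : (r.step x hx).len = r.len + 1 := rfl
    refine ⟨by omega, le_trans h2 hx.lt.le, _, e2, ?_⟩
    intro j hj hσ
    have hne : j ≠ r.len := by omega
    have h4 := h3 j (by omega) hσ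
    unfold updf
    split_ifs
    · rw [Function.update_of_ne hne]; exact h4
    · exact h4

/-- The supremum of the bounds over the reachable conditions to which `x` can be added. -/
lemma G3_sup {i : ℕ} (hi : 1 ≤ i) (q : Cond Ω X) (B : Cond Ω X → Ω)
    (hB : ∀ q', crd (B q') < sc i (pw q'.m)) (x : X) :
    ∃ b : Ω, crd b < sc i (pw (D.kx x)) ∧
      ∀ r, q.Reach r → ∀ hx : r.u.OK r.m x, B (r.step x hx) < b := by
  classical
  by_cases hW : D.kx x ∈ D.W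
  · obtain ⟨j, rfl⟩ : ∃ j, i = j + 1 := ⟨i - 1, by omega⟩
    have hreg : (sc (j + 1) (pw (D.kx x))).IsRegular :=
      sc_isRegular (aleph0_lt_pw hW).le j
    let S : Set Ω := {b | ∃ r, q.Reach r ∧ ∃ hx : r.u.OK r.m x, b = B (r.step x hx)}
    have hS : #S < sc (j + 1) (pw (D.kx x)) := by
      have h1 : #S ≤ #{r | q.Reach r ∧ r.m < D.kx x} := by
        let g : {r | q.Reach r ∧ r.m < D.kx x} → Ω := fun r =>
          if hx : r.1.u.OK r.1.m x then B (r.1.step x hx) else B q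
        have h2 : S ⊆ Set.range g := by
          rintro b ⟨r, hr, hx, rfl⟩
          exact ⟨⟨r, hr, hx.lt⟩, dif_pos hx⟩
        exact (mk_le_mk_of_subset h2).trans mk_range_le
      refine (h1.trans (Cond.mk_reach_lt q hW)).trans_lt ?_
      exact (crd_lt_pw _).trans (sc_lt (i := 0) (j := j + 1) (by omega) (pw (D.kx x)))
    obtain ⟨b, hb, hb'⟩ := exists_bound (X := X) hreg (sc_pw_lt_κ (X := X) _ _).le hS (by
      rintro a ⟨r, hr, hx, rfl⟩
      exact hB (r.step x hx))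
    exact ⟨b, hb, fun r hr hx => hb' _ ⟨r, hr, hx, rfl⟩⟩
  · refine ⟨D.kx x, ?_, fun r hr hx => absurd hx.W hW⟩
    exact (crd_lt_pw _).trans (sc_lt (i := 0) (j := i) (by omega) (pw (D.kx x)))

/-- Domination by the generic functions, `i = 1, 2, 3`. -/
theorem dom_two {i : ℕ} (hi : 1 ≤ i ∧ i ≤ 3) {p : Cond Ω X}
    {R : Cond Ω X → ℕ × Ω → Ω → Prop} (hR : FNB i p R) :
    ∃ q ≤ p, ∃ h : Crd Ω X, (∀ x, crd (h.1 x) < sc i (pw (D.kx x))) ∧
      ∀ k, q.len ≤ k → ∀ q' ≤ q, k < q'.len → ∀ ξ < q'.pt (k - 1), ∀ b, R q' (k, ξ) b →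
        ∃ v, q'.Rt h k v ∧ b < v := by
  have hi1 : 1 ≤ i := by omega
  obtain ⟨q, hqp, B, hB, hdom⟩ := dom_basic hi1 (by omega) hR
  choose h₀ hh₀ hh₁ using fun x => G3_sup hi1 q B hB x
  let h : Crd Ω X := ⟨h₀, fun x => (hh₀ x).trans_le (sc_le (by omega) _)⟩
  obtain ⟨q₁, hq₁, ρ, σ, hf⟩ := Cond.dense_crd q h
  obtain ⟨N, hN⟩ := (q₁.up.ff h ρ σ hf).bddAbove
  obtain ⟨q₂, hq₂, hlen, hm⟩ := Cond.exists_len q₁ (N + 1) ρ
  obtain ⟨-, -, ρ₂, σ₂, hf₂, hρ₂, hσ₂⟩ := G3_ext hq₂ ρ σ hf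
  have hρm : ρ₂ ≤ q₂.m := by
    rw [max_eq_right hm.le] at hρ₂
    exact le_of_max_le_left hρ₂.le
  have hσn : ∀ j, q₂.len ≤ j → σ₂ j = none := by
    intro j hj
    refine hσ₂ j hj ?_
    by_contra hne
    have := hN hne
    omega
  have hle2 : q₂ ≤ q := hq₂.trans hq₁.le
  obtain ⟨q₃, hq₃, hq₂₃⟩ := Cond.exists_reach hle2
  refine ⟨q₂, hle2.trans hqp.le, h, hh₀, ?_⟩
  intro k hk q' hq' hkq ξ hξ b hb
  obtain ⟨q'', hr, hlen'', hq''⟩ := Cond.exists_reach_len hq' (k := k + 1) (by omega) hkq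
  cases hr with
  | refl => omega
  | step r x hx hr =>
    have hl : (r.step x hx).len = r.len + 1 := rfl
    have hlr : r.len = k := by omega
    -- the value of the generic function
    obtain ⟨-, hmr, σr, hfr, hσr⟩ := G3_reach hr ρ₂ σ₂ hf₂
    have hnone : σr k = none := hσr k (by omega) (hσn k (by omega))
    have hval : (r.step x hx).Rt h k (h₀ x) := by
      refine ⟨ρ₂, _, stepf_some hfr, ?_⟩
      have hc : ρ₂ < D.kx x ∧ σr r.len = none :=
        ⟨lt_of_le_of_lt (hρm.trans hmr) hx.lt, by rw [hlr]; exact hnone⟩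
      unfold updf
      rw [if_pos hc, hlr, Function.update_self]
    refine ⟨h₀ x, hval.mono hq'', ?_⟩
    -- the bound
    obtain ⟨r', hr', hrr'⟩ := Cond.Dle.reach hq₂₃ hr
    have hx' : r'.u.OK r'.m x := hrr'.OK hx
    have hreach : q.Reach r' := by
      clear hx' hrr'
      induction hr' with
      | refl => exact hq₃
      | step s y hy _ ih => exact .step s y hy ih
    have hreach' : q.Reach (r'.step x hx') := .step r' x hx' hreach
    have hle' : q' ≤ r'.step x hx' := hq''.trans (hrr'.step hx).le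
    have hl' : (r'.step x hx').len = r'.len + 1 := rfl
    have hlr' : r'.len = r.len := hrr'.len.symm
    have hlq : q.len ≤ r'.len := Cond.len_le hreach.le
    have hpt : q'.pt (k - 1) = (r'.step x hx').pt (k - 1) :=
      Cond.pt_of_le hle' (by omega)
    have hξ' : ξ < (r'.step x hx').pt ((r'.step x hx').len - 2) := by
      have : (r'.step x hx').len - 2 = k - 1 := by omega
      rw [this, ← hpt]
      exact hξ
    have hb' : R q' ((r'.step x hx').len - 1, ξ) b := by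
      have : (r'.step x hx').len - 1 = k := by omega
      rw [this]
      exact hb
    exact lt_of_le_of_lt (hdom _ hreach' (by omega) q' hle' ξ hξ' b hb') (hh₁ x r' hreach hx')
-- END G3

variable (Ω) in
/-- The coordinate given by the ordinal `s < δ`. -/
noncomputable def can (s : D.S) : Crd Ω X :=
  ⟨fun x => D.piS x s, fun x => (D.piS_lt s x).trans_le (sc_le (by omega) _)⟩

/-- Domination by the generic functions of the coordinates `can s`, `i = 1`. -/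
theorem dom_one {p : Cond Ω X} {R : Cond Ω X → ℕ × Ω → Ω → Prop} (hR : FNB 1 p R) :
    ∃ q ≤ p, ∃ s : D.S, ∃ K, ∀ k, K ≤ k → ∀ q' ≤ q, k < q'.len → ∀ ξ < q'.pt (k - 1), ∀ b,
      R q' (k, ξ) b → ∃ v, q'.Rt (can Ω s) k v ∧ b < v := by
  obtain ⟨q, hq, h, hh, hd⟩ := dom_two ⟨le_rfl, by omega⟩ hR
  obtain ⟨s, hs⟩ := D.codeS h.1 (Filter.Eventually.of_forall hh)
  obtain ⟨q₁, hq₁, K, hK⟩ := Cond.t_eq q h (can Ω s) hs
  refine ⟨q₁, hq₁.trans hq, s, max K q.len, ?_⟩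
  intro k hk q' hq' hkl ξ hξ b hb
  obtain ⟨v, hv, hbv⟩ := hd k ((le_max_right _ _).trans hk) q' (hq'.trans hq₁) hkl ξ hξ b hb
  obtain ⟨v', hv', hv''⟩ := hK q' hq' k ((le_max_left _ _).trans hk) hkl
  obtain rfl := Cond.Rt.uniq hv hv'
  exact ⟨v, hv'', hbv⟩

/-- A family of `δ` many sequences is bounded: after a direct extension there is one coordinate
which works for all. -/
theorem dom_family {i : ℕ} (hi : i = 2 ∨ i = 3) {p : Cond Ω X} {S : Type}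
    (hS : #S ≤ PD.del Ω X)
    (R : S → Cond Ω X → ℕ × Ω → Ω → Prop) (hR : ∀ s, FNB i p (R s)) :
    ∃ q₀ : Cond Ω X, q₀.Dle p ∧ ∃ h : Crd Ω X, (∀ x, crd (h.1 x) < sc i (pw (D.kx x))) ∧
      ∀ s, ∀ p' ≤ q₀, ∃ q ≤ p', ∃ K,
      ∀ k, K ≤ k → ∀ q' ≤ q, k < q'.len → ∀ ξ < q'.pt (k - 1), ∀ b, R s q' (k, ξ) b →
        ∃ v, q'.Rt h k v ∧ b < v := by
  have hi3 : i ≤ 3 := by omega
  have hi2 : 2 ≤ i := by omega
  let G : S → Cond Ω X → Crd Ω X → Prop := fun s q h =>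
    (∀ x, crd (h.1 x) < sc i (pw (D.kx x))) ∧
      ∀ k, q.len ≤ k → ∀ q' ≤ q, k < q'.len → ∀ ξ < q'.pt (k - 1), ∀ b, R s q' (k, ξ) b →
        ∃ v, q'.Rt h k v ∧ b < v
  have hdense : ∀ s, ∀ q ≤ p, ∃ r ≤ q, r ∈ {r : Cond Ω X | ∃ h, G s r h} := by
    intro s q hq
    have hR' : FNB i q (R s) :=
      { toFN := (hR s).toFN.of_le hq
        bd := fun q' hq' => (hR s).bd q' (hq'.trans hq) }
    obtain ⟨r, hr, h, h1, h2⟩ := dom_two ⟨by omega, hi3⟩ hR'
    exact ⟨r, hr, h, h1, h2⟩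
  obtain ⟨q₀, hq₀, hpre⟩ := exists_predense hS _ hdense
  choose S' hS'sub hS'card hS'pre using hpre
  have hch : ∀ z : (Σ s, S' s), ∃ h, G z.1 z.2.1 h := fun z => hS'sub z.1 z.2.2
  choose h hh using hch
  have hZ : #(Σ s, S' s) ≤ PD.del Ω X := by
    rw [Cardinal.mk_sigma]
    have hinf : ℵ₀ ≤ PD.del Ω X := D.κ_inacc.aleph0_lt.le.trans (κ_lt_del (X := X)).le
    refine (Cardinal.sum_le_mk_mul_iSup _).trans ?_
    refine Cardinal.mul_le_of_le hinf hS ?_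
    exact ciSup_le' hS'card
  obtain ⟨g, hg, hg'⟩ := D.bound2 hZ i hi2 (fun z x => (h z).1 x)
    (fun z => Filter.Eventually.of_forall (hh z).1)
  refine ⟨q₀, hq₀, ⟨g, fun x => (hg x).trans_le (sc_le hi3 _)⟩, hg, ?_⟩
  intro s p' hp'
  obtain ⟨s', hs', r, hr, hr'⟩ := hS'pre s p' hp'
  obtain ⟨q, hq, K, hK⟩ := Cond.t_lt r (h ⟨s, ⟨s', hs'⟩⟩)
    ⟨g, fun x => (hg x).trans_le (sc_le hi3 _)⟩ (hg' ⟨s, ⟨s', hs'⟩⟩)
  refine ⟨q, hq.trans hr, max K s'.len, ?_⟩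
  intro k hk q' hq' hkl ξ hξ b hb
  obtain ⟨v, v', hv, hv', hlt⟩ := hK q' hq' k ((le_max_left _ _).trans hk) hkl
  obtain ⟨w, hw, hbw⟩ := (hh ⟨s, ⟨s', hs'⟩⟩).2 k ((le_max_right _ _).trans hk) q'
    (hq'.trans (hq.trans hr')) hkl ξ hξ b hb
  have hvw : w = v := Cond.Rt.uniq hw hv
  subst hvw
  exact ⟨v', hv', hbw.trans hlt⟩

end Pool.P2
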