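import Pool.Agent.Lib.MP_ad72f3_p2.Prik

/-!
# Task H: the conditions reachable by steps; iterated combination
-/

set_option autoImplicit false
set_option linter.unusedSectionVars false

open Cardinal Set Order

namespace Pool.P2

variable {Ω : Type} [LinearOrder Ω] [WellFoundedLT Ω] {X : Type} [D : PD Ω X]

namespace Cond

/-- `q` is obtained from `p` by finitely many steps. -/
inductive Reach (p : Cond Ω X) : Cond Ω X → Prop
  | refl : Reach p p
  | step (q : Cond Ω X) (x : X) (hx : q.u.OK q.m x) : Reach p q → Reach p (q.step x hx)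

/-! ### Row RA -/

lemma RA_trans {p q r : Cond Ω X} (h : p.Reach q) (h' : q.Reach r) : p.Reach r := by
  induction h' with
  | refl => exact h
  | step q' x hx _ ih => exact .step q' x hx ih

lemma RA_len_step (q : Cond Ω X) (x : X) (hx : q.u.OK q.m x) : (q.step x hx).len = q.len + 1 := rfl

lemma RA_t_step (q : Cond Ω X) (x : X) (hx : q.u.OK q.m x) :
    (q.step x hx).t = D.kx x :: q.t := rfl

lemma RA_reach_t {p q : Cond Ω X} (h : p.Reach q) : p.t <:+ q.t := by
  induction h with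
  | refl => exact List.suffix_refl _
  | step q' x hx _ ih =>
    rw [RA_t_step]
    exact ih.trans (List.suffix_cons _ _)

lemma RA_reach_len {p q : Cond Ω X} (h : p.Reach q) : p.len ≤ q.len :=
  (RA_reach_t h).length_le

lemma RA_reach_m {p q : Cond Ω X} (h : p.Reach q) : p.m ≤ q.m := by
  induction h with
  | refl => exact le_rfl
  | step q' x hx _ ih => exact ih.trans hx.lt.le

lemma RA_dle_t {p q : Cond Ω X} (h : q.Dle p) : q.t = p.t := by
  unfold Cond.t
  rw [h.m, h.s]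

lemma Reach.le {p q : Cond Ω X} (h : p.Reach q) : q ≤ p := by
  induction h with
  | refl => exact le_refl _
  | step q x hx _ ih => exact le_trans (step_le q x hx) ih

/-- Every extension is a direct extension of a reachable condition. -/
lemma exists_reach {p q : Cond Ω X} (h : q ≤ p) : ∃ q₀, p.Reach q₀ ∧ q.Dle q₀ := by
  rw [le_def] at h
  induction h with
  | dir h => exact ⟨_, .refl, h⟩
  | step x hx _ ih =>
    obtain ⟨q₀, h1, h2⟩ := ih
    exact ⟨q₀, RA_trans (.step _ x hx .refl) h1, h2⟩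

lemma RA_between {p q : Cond Ω X} (h : p.Reach q) {k : ℕ} (hk : p.len ≤ k) (hk' : k ≤ q.len) :
    ∃ q₀, p.Reach q₀ ∧ q₀.len = k ∧ q ≤ q₀ := by
  induction h with
  | refl => exact ⟨p, .refl, le_antisymm hk hk', le_rfl⟩
  | step q x hx hr ih =>
    rcases Nat.lt_or_ge q.len k with h1 | h1
    · rw [RA_len_step] at hk'
      exact ⟨q.step x hx, .step q x hx hr, by rw [RA_len_step]; omega, le_rfl⟩
    · obtain ⟨q₀, h2, h3, h4⟩ := ih h1
      exact ⟨q₀, h2, h3, (step_le q x hx).trans h4⟩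

/-- Intermediate reachable conditions. -/
lemma exists_reach_len {p q : Cond Ω X} (h : q ≤ p) {k : ℕ} (hk : p.len ≤ k) (hk' : k ≤ q.len) :
    ∃ q₀, p.Reach q₀ ∧ q₀.len = k ∧ q ≤ q₀ := by
  obtain ⟨q₁, h1, h2⟩ := exists_reach h
  rw [h2.len] at hk'
  obtain ⟨q₀, h3, h4, h5⟩ := RA_between h1 hk hk'
  exact ⟨q₀, h3, h4, h2.le.trans h5⟩

lemma Dle.reach {p p' q' : Cond Ω X} (h : p'.Dle p) (hq : p'.Reach q') :
    ∃ q, p.Reach q ∧ q'.Dle q := by
  induction hq with
  | refl => exact ⟨p, .refl, h⟩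
  | step q' x hx _ ih =>
    obtain ⟨q, h1, h2⟩ := ih
    exact ⟨q.step x (h2.OK hx), .step q x _ h1, h2.step hx⟩

/-- The stem is extended. -/
lemma le_t {p q : Cond Ω X} (h : q ≤ p) : p.t <:+ q.t := by
  obtain ⟨q₀, h1, h2⟩ := exists_reach h
  rw [RA_dle_t h2]
  exact RA_reach_t h1

lemma len_le {p q : Cond Ω X} (h : q ≤ p) : p.len ≤ q.len := (le_t h).length_le

lemma RA_eq_of_len {p q : Cond Ω X} (h : p.Reach q) (hl : q.len = p.len) : q = p := by
  cases h with
  | refl => rfl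
  | step q' x hx hr =>
    have h1 := RA_reach_len hr
    rw [RA_len_step] at hl
    omega

lemma dle_of_le {p q : Cond Ω X} (h : q ≤ p) (hl : q.len = p.len) : q.Dle p := by
  obtain ⟨q₀, h1, h2⟩ := exists_reach h
  rw [h2.len] at hl
  rw [← RA_eq_of_len h1 hl]
  exact h2

lemma RA_mem_W (p : Cond Ω X) : p.m ∈ D.W := p.low.mem_W

/-- Points exist: every condition can be extended by a step, above any given ordinal. -/
lemma exists_step (p : Cond Ω X) (a : Ω) : ∃ x, ∃ hx : p.u.OK p.m x, a < (p.step x hx).m := by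
  obtain ⟨x, h1, h2⟩ := ((P1.eventually_OK p.up).and (D.unb a)).exists
  exact ⟨x, h1, h2⟩

lemma exists_len (p : Cond Ω X) (n : ℕ) (a : Ω) : ∃ q ≤ p, n ≤ q.len ∧ a < q.m := by
  induction n with
  | zero =>
    obtain ⟨x, hx, h⟩ := exists_step p a
    exact ⟨_, step_le p x hx, Nat.zero_le _, h⟩
  | succ n ih =>
    obtain ⟨q, h1, h2, -⟩ := ih
    obtain ⟨x, hx, h⟩ := exists_step q a
    exact ⟨_, (step_le q x hx).trans h1, by rw [RA_len_step]; omega, h⟩

/-! ### Row RB -/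

lemma RB_step_congr {p : Cond Ω X} {x x' : X} {hx : p.u.OK p.m x} {hx' : p.u.OK p.m x'}
    (h : D.kx x = D.kx x') (hc : push x p.u.c = push x' p.u.c)
    (hf : ∀ α ρ σ, p.u.f α = some (ρ, σ) → ρ < D.kx x → α.1 x = α.1 x') :
    p.step x hx = p.step x' hx' := by
  have h1 : stepf p.len p.u.f x = stepf p.len p.u.f x' := by
    funext α
    unfold stepf
    cases e : p.u.f α with
    | none => rfl
    | some v =>
      obtain ⟨ρ, σ⟩ := v
      have h2 := hf α ρ σ e
      simp only [updf, ← h, Option.some.injEq, Prod.mk.injEq, true_and]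
      by_cases h3 : ρ < D.kx x
      · simp only [h3, h2 h3]
      · simp only [h3, false_and, if_false]
  have h2 : p.u.step p.len x = p.u.step p.len x' := by
    unfold Up.step
    rw [h, h1]
  unfold Cond.step
  simp only [h, h2, hc]

/-- The number of one step extensions with the new point `μ`. -/
lemma RB_mk_step (p : Cond Ω X) {μ : Ω} (hμ : μ ∈ D.W) :
    #{q | ∃ x, ∃ hx : p.u.OK p.m x, D.kx x = μ ∧ q = p.step x hx} ≤ sc 3 (pw μ) := by
  by_cases hlt : p.m < μ
  swap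
  · have h0 : {q | ∃ x, ∃ hx : p.u.OK p.m x, D.kx x = μ ∧ q = p.step x hx} = ∅ := by
      ext q
      simp only [mem_ofPred_eq, mem_empty_iff_false, iff_false]
      rintro ⟨x, hx, h1, -⟩
      exact hlt (h1 ▸ hx.lt)
    rw [h0]
    simp
  set S := {q | ∃ x, ∃ hx : p.u.OK p.m x, D.kx x = μ ∧ q = p.step x hx} with hS
  let Dom := {α : Crd Ω X // ∃ ρ σ, p.u.f α = some (ρ, σ) ∧ ρ < μ}
  let Vl := {a : Ω // crd a < sc 3 (pw μ)}
  let Cl := {c : PF Ω | IsCol (sc 4 (pw p.m)) c ∧ BelowC c μ}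
  have hDom : #Dom ≤ crd μ := p.up.fs μ hμ hlt
  have hVl : #Vl ≤ sc 3 (pw μ) := mk_crd_lt _
  have hle3 : pw μ ≤ sc 3 (pw μ) := sc_le (i := 0) (by omega) _
  have hCl : #Cl ≤ sc 3 (pw μ) := (mk_col_le hμ (sc_pw_lt hμ hlt 4)).trans hle3
  have hpos : ∀ q : S, ∃ x, ∃ hx : p.u.OK p.m x, D.kx x = μ ∧ q.1 = p.step x hx := fun q => q.2
  choose x hx hk hq using hpos
  let g : S → (Dom → Vl) × Cl := fun q =>
    (fun α => ⟨α.1.1 (x q), by have := α.1.2 (x q); rwa [hk] at this⟩,
      ⟨push (x q) p.u.c, p.up.hc.push, fun a b hab => by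
        obtain ⟨t, h1, rfl⟩ := push_eq_some hab
        have := (hx q).c a t h1
        rwa [hk] at this⟩)
  have hg : Function.Injective g := by
    intro q q' e
    apply Subtype.ext
    rw [hq q, hq q']
    have e1 := congrArg Prod.fst e
    have e2 := congrArg Prod.snd e
    refine RB_step_congr ((hk q).trans (hk q').symm) (congrArg Subtype.val e2)
      fun α ρ σ h1 h2 => ?_
    rw [hk] at h2
    have h3 := congrFun e1 ⟨α, ρ, σ, h1, h2⟩
    exact congrArg Subtype.val h3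
  have h1 : #S ≤ #((Dom → Vl) × Cl) := mk_le_of_injective hg
  have hs0 : sc 3 (pw μ) ≠ 0 := by
    have : (0 : Cardinal.{0}) < sc 3 (pw μ) := lt_of_le_of_lt zero_le (lt_succ (sc 2 (pw μ)))
    exact this.ne'
  have h2 : #(Dom → Vl) ≤ sc 3 (pw μ) := by
    have h3 : #(Dom → Vl) = #Vl ^ #Dom := by simp
    rw [h3]
    calc #Vl ^ #Dom ≤ sc 3 (pw μ) ^ #Dom := power_le_power_right hVl
      _ ≤ sc 3 (pw μ) ^ crd μ := power_le_power_left hs0 hDom
      _ ≤ sc 3 (pw μ) := sc_power hμ 3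
  refine h1.trans ?_
  rw [mk_prod, lift_id, lift_id]
  exact (mul_le_mul' h2 hCl).trans (mul_eq_self ((aleph0_lt_pw hμ).le.trans hle3)).le

lemma RB_reach_eq_m {p q : Cond Ω X} (h : p.Reach q) (hm : q.m = p.m) : q = p := by
  cases h with
  | refl => rfl
  | step q' x hx hr =>
    have h1 := RA_reach_m hr
    exact absurd hm (h1.trans_lt hx.lt).ne'

lemma RB_lt_of {p : Cond Ω X} {m : Ω} (hm : m ∈ D.W)
    (ih : ∀ μ < m, #{q | p.Reach q ∧ q.m = μ} ≤ sc 3 (pw μ)) :
    #{q | p.Reach q ∧ q.m < m} ≤ crd m := by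
  have h1 : {q | p.Reach q ∧ q.m < m} ⊆ ⋃ μ : Iio m, {q | p.Reach q ∧ q.m = μ.1} := by
    rintro q ⟨h1, h2⟩
    exact mem_iUnion.2 ⟨⟨q.m, h2⟩, h1, rfl⟩
  refine (mk_le_mk_of_subset h1).trans ?_
  refine mk_iUnion_le (aleph0_lt_crd hm).le le_rfl _ fun μ => ?_
  exact (ih μ.1 μ.2).trans (sc_pw_lt hm μ.2 3).le

/-- The number of reachable conditions with last point `m`. -/
lemma RB_reach_eq (p : Cond Ω X) (m : Ω) : #{q | p.Reach q ∧ q.m = m} ≤ sc 3 (pw m) := by
  induction m using WellFoundedLT.induction with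
  | ind m ih =>
  by_cases hpm : m = p.m
  · have h0 : {q | p.Reach q ∧ q.m = m} ⊆ {p} := by
      rintro q ⟨h1, h2⟩
      exact RB_reach_eq_m h1 (h2.trans hpm)
    refine (mk_le_mk_of_subset h0).trans ?_
    rw [mk_singleton]
    exact Cardinal.one_le_iff_pos.2 (lt_of_le_of_lt zero_le (lt_succ (sc 2 (pw m))))
  by_cases hm : m ∈ D.W
  swap
  · have h0 : {q | p.Reach q ∧ q.m = m} ⊆ ∅ := by
      rintro q ⟨-, h2⟩
      exact hm (h2 ▸ RA_mem_W q)
    refine (mk_le_mk_of_subset h0).trans ?_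
    simp
  have h1 := RB_lt_of hm ih
  have h2 : {q | p.Reach q ∧ q.m = m} ⊆ ⋃ q₀ : {q | p.Reach q ∧ q.m < m},
      {q | ∃ x, ∃ hx : q₀.1.u.OK q₀.1.m x, D.kx x = m ∧ q = q₀.1.step x hx} := by
    rintro q ⟨h3, h4⟩
    cases h3 with
    | refl => exact absurd h4.symm hpm
    | step q' x hx hr =>
      refine mem_iUnion.2 ⟨⟨q', hr, ?_⟩, x, hx, h4, rfl⟩
      have h5 : D.kx x = m := h4
      exact h5 ▸ hx.lt
  refine (mk_le_mk_of_subset h2).trans ?_
  have h3 : crd m ≤ sc 3 (pw m) := (crd_lt_pw m).le.trans (sc_le (i := 0) (by omega) _)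
  exact mk_iUnion_le ((aleph0_lt_crd hm).le.trans h3) (h1.trans h3) _ fun q₀ => RB_mk_step q₀.1 hm

/-- The number of reachable conditions. -/
lemma mk_reach (p : Cond Ω X) : #{q | p.Reach q} ≤ D.κ := by
  have h1 : {q | p.Reach q} ⊆ ⋃ μ : Ω, {q | p.Reach q ∧ q.m = μ} := by
    intro q h1
    exact mem_iUnion.2 ⟨q.m, h1, rfl⟩
  refine (mk_le_mk_of_subset h1).trans ?_
  exact mk_iUnion_le D.κ_inacc.aleph0_lt.le D.mk_Ω.le _ fun μ =>
    (RB_reach_eq p μ).trans (sc_pw_lt_κ μ 3).le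

/-- The number of reachable conditions with last point below `m`. -/
lemma mk_reach_lt (p : Cond Ω X) {m : Ω} (hm : m ∈ D.W) : #{q | p.Reach q ∧ q.m < m} ≤ crd m :=
  RB_lt_of hm fun μ _ => RB_reach_eq p μ

/-- The number of reachable conditions with last point `m`. -/
lemma mk_reach_eq (p : Cond Ω X) (m : Ω) : #{q | p.Reach q ∧ q.m = m} ≤ sc 3 (pw m) :=
  RB_reach_eq p m

/-- The number of one step extensions. -/
lemma mk_step (p : Cond Ω X) : #{q | ∃ x, ∃ hx : p.u.OK p.m x, q = p.step x hx} ≤ D.κ := by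
  refine (mk_le_mk_of_subset ?_).trans (mk_reach p)
  rintro q ⟨x, hx, rfl⟩
  exact Reach.step p x hx .refl

/-- Replace the upper part. -/
def withU (p : Cond Ω X) (u : Up Ω X) (hu : u.V p.m) : Cond Ω X := ⟨p.m, p.s, p.r, u, p.low, hu⟩

lemma withU_dle {p : Cond Ω X} {u : Up Ω X} (hu : u.V p.m) (h : u.Le p.m p.u) :
    (p.withU u hu).Dle p where
  m := rfl
  s := rfl
  r := List.forall₂_same.2 fun c _ => Sub.refl c
  u := h

variable (X) in
/-- The trivial lower part. -/
def triv (n : ℕ) : List (PF Ω) := List.replicate n (fun _ => none)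

lemma RD_isCol_none {θ : Cardinal.{0}} (hθ : 0 < θ) : IsCol θ (fun _ => none : PF Ω) := by
  refine ⟨?_, fun a b h => absurd h (by simp)⟩
  have h0 : pdom (fun _ => none : PF Ω) = ∅ := by
    ext a
    simp [pdom]
  rw [h0]
  simpa using hθ

lemma RD_th_pos (t : List Ω) : 0 < th t := by
  cases t with
  | nil => exact Cardinal.aleph0_pos
  | cons m t => exact lt_of_le_of_lt zero_le (lt_succ _)

lemma low_triv {t : List Ω} {r : List (PF Ω)} (h : LowV X t r) :
    LowV X t (triv t.length) := by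
  induction t generalizing r with
  | nil => trivial
  | cons m t ih =>
    cases r with
    | nil => exact absurd h (by simp [LowV])
    | cons c r =>
      obtain ⟨h1, h2, h3, h4, h5⟩ := h
      exact ⟨h1, h2, RD_isCol_none (RD_th_pos t), fun a b hab => absurd hab (by simp), ih h5⟩

/-- Make the lower part trivial. -/
def erase (p : Cond Ω X) : Cond Ω X :=
  ⟨p.m, p.s, triv (p.m :: p.s).length, p.u, low_triv p.low, p.up⟩

lemma RD_low_length {t : List Ω} {r : List (PF Ω)} (h : LowV X t r) : r.length = t.length := by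
  induction t generalizing r with
  | nil =>
    cases r with
    | nil => rfl
    | cons c r => exact absurd h (by simp [LowV])
  | cons m t ih =>
    cases r with
    | nil => exact absurd h (by simp [LowV])
    | cons c r => simp [ih h.2.2.2.2]

lemma RD_triv_sub : ∀ (r : List (PF Ω)) (n : ℕ), r.length = n →
    List.Forall₂ Sub (triv n : List (PF Ω)) r
  | [], n, h => by
    subst h
    exact List.Forall₂.nil
  | c :: r, n, h => by
    subst h
    refine List.Forall₂.cons (fun a b hab => absurd hab (by simp)) ?_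
    exact RD_triv_sub r _ rfl

lemma dle_erase (p : Cond Ω X) : p.Dle p.erase where
  m := rfl
  s := rfl
  r := RD_triv_sub _ _ (RD_low_length p.low)
  u := Up.Le.refl _ _

/-- The stem and the lower part of an extension. -/
lemma RD_split {p q : Cond Ω X} (h : q ≤ p) : ∃ t₁ r₁ r₀, q.t = t₁ ++ p.t ∧ q.r = r₁ ++ r₀ ∧
    t₁.length = r₁.length ∧ List.Forall₂ Sub p.r r₀ := by
  change Ext q p at h
  induction h with
  | dir h1 =>
    refine ⟨[], [], _, ?_, rfl, rfl, h1.r⟩
    unfold Cond.t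
    rw [h1.m, h1.s]
    rfl
  | step x hx _ ih =>
    obtain ⟨t₁, r₁, r₀, h1, h2, h3, h4⟩ := ih
    change List.Forall₂ Sub (_ :: _) r₀ at h4
    rw [List.forall₂_cons_left_iff] at h4
    obtain ⟨c, r₂, h5, h6, h7⟩ := h4
    refine ⟨t₁ ++ [D.kx x], r₁ ++ [c], r₂, ?_, ?_, ?_, h6⟩
    · rw [h1, List.append_assoc]
      rfl
    · rw [h2, h7, List.append_assoc]
      rfl
    · simp [h3]

lemma RD_low_append {t₁ t : List Ω} {r₁ r₀ : List (PF Ω)} (hl : t₁.length = r₁.length)
    (h : LowV X (t₁ ++ t) (r₁ ++ r₀)) : LowV X t r₀ := by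
  induction t₁ generalizing r₁ with
  | nil =>
    cases r₁ with
    | nil => exact h
    | cons c r₁ => exact absurd hl (by simp)
  | cons m t₁ ih =>
    cases r₁ with
    | nil => exact absurd hl (by simp)
    | cons c r₁ =>
      exact ih (by simpa using hl) h.2.2.2.2

lemma RD_low_replace {t₁ t : List Ω} {r₁ r₀ r : List (PF Ω)} (hl : t₁.length = r₁.length)
    (h : LowV X (t₁ ++ t) (r₁ ++ r₀)) (hr : LowV X t r) : LowV X (t₁ ++ t) (r₁ ++ r) := by
  induction t₁ generalizing r₁ with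
  | nil =>
    cases r₁ with
    | nil => exact hr
    | cons c r₁ => exact absurd hl (by simp)
  | cons m t₁ ih =>
    cases r₁ with
    | nil => exact absurd hl (by simp)
    | cons c r₁ =>
      obtain ⟨h1, h2, h3, h4, h5⟩ := h
      exact ⟨h1, h2, h3, h4, ih (by simpa using hl) h5⟩

lemma RD_common {p q : Cond Ω X} (h : Ext q p) : ∀ (r₁ r₀ r : List (PF Ω)), q.r = r₁ ++ r₀ →
    r₀.length = p.len → List.Forall₂ Sub r₀ r → ∀ hr : LowV X p.t r,
    ∃ h' : LowV X (q.m :: q.s) (r₁ ++ r),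
      Ext (⟨q.m, q.s, r₁ ++ r, q.u, h', q.up⟩ : Cond Ω X)
        (⟨p.m, p.s, r, p.u, hr, p.up⟩ : Cond Ω X) := by
  induction h with
  | @dir p h1 =>
    intro r₁ r₀ r e1 e2 e3 hr
    have e4 : r₁ = [] := by
      have h2 := RD_low_length q.low
      have h3 : (q.m :: q.s).length = (p.m :: p.s).length := by rw [h1.m, h1.s]
      rw [h3, e1, List.length_append, e2] at h2
      have h4 : p.len = (p.m :: p.s).length := rfl
      rw [← List.length_eq_zero_iff]
      omega
    subst e4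
    have h5 : LowV X (q.m :: q.s) r := by
      rw [h1.m, h1.s]
      exact hr
    refine ⟨h5, .dir ⟨h1.m, h1.s, ?_, h1.u⟩⟩
    exact List.forall₂_same.2 fun c _ => Sub.refl c
  | @step p x hx h1 ih =>
    intro r₁ r₀ r e1 e2 e3 hr
    obtain ⟨t₁, r₁', r₀', f1, f2, f3, f4⟩ := RD_split (show q ≤ p.step x hx from h1)
    change List.Forall₂ Sub (push x p.u.c :: p.r) r₀' at f4
    rw [List.forall₂_cons_left_iff] at f4
    obtain ⟨c, r₂, f5, f6, f7⟩ := f4
    have g1 : r₂.length = p.len := by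
      rw [← f6.length_eq]
      exact RD_low_length p.low
    have g2 : r₂ = r₀ ∧ r₁ = r₁' ++ [c] := by
      have h2 : r₁ ++ r₀ = (r₁' ++ [c]) ++ r₂ := by
        rw [← e1, f2, f7]
        simp
      have h3 := List.append_inj' h2 (by rw [e2, g1])
      exact ⟨h3.2.symm, h3.1⟩
    obtain ⟨rfl, rfl⟩ := g2
    have low := q.low
    change LowV X q.t q.r at low
    rw [f1, f2, f7] at low
    have low2 := RD_low_append f3 low
    change LowV X (D.kx x :: p.t) (c :: r₂) at low2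
    obtain ⟨k1, k2, k3, k4, k5⟩ := low2
    have hr2 : LowV X (p.step x hx).t (c :: r) := ⟨k1, k2, k3, k4, hr⟩
    obtain ⟨l1, l2⟩ := ih r₁' (c :: r₂) (c :: r) (by rw [f2, f7]) (by
      rw [List.length_cons, g1]
      rfl) (List.Forall₂.cons (Sub.refl c) e3) hr2
    have l3 : r₁' ++ [c] ++ r = r₁' ++ c :: r := by simp
    simp only [l3]
    refine ⟨l1, ?_⟩
    refine .step (p := (⟨p.m, p.s, r, p.u, hr, p.up⟩ : Cond Ω X)) x hx (l2.dle_trans ?_)
    exact ⟨rfl, rfl, List.Forall₂.cons f5 (List.forall₂_same.2 fun c _ => Sub.refl c),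
      Up.Le.refl _ _⟩

/-- If two conditions have the same stem and the same upper part and the second extends
the erased first one, they have a common extension. -/
lemma exists_common {p q : Cond Ω X} {r : List (PF Ω)} (hr : LowV X p.t r)
    (hp : List.Forall₂ Sub p.r r) (h : q ≤ p) (hq : List.Forall₂ Sub (q.r.rtake p.len) r) :
    ∃ q' ≤ q, q' ≤ (⟨p.m, p.s, r, p.u, hr, p.up⟩ : Cond Ω X) := by
  obtain ⟨t₁, r₁, r₀, f1, f2, f3, f4⟩ := RD_split h
  have g1 : r₀.length = p.len := by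
    rw [← f4.length_eq]
    exact RD_low_length p.low
  have g2 : q.r.rtake p.len = r₀ := by
    rw [f2, ← g1]
    unfold List.rtake
    simp
  rw [g2] at hq
  obtain ⟨h', h2⟩ := RD_common h r₁ r₀ r f2 g1 hq hr
  refine ⟨_, ?_, h2⟩
  refine Dle.le ⟨rfl, rfl, ?_, Up.Le.refl _ _⟩
  change List.Forall₂ Sub q.r (r₁ ++ r)
  rw [f2]
  exact List.rel_append (List.forall₂_same.2 fun c _ => Sub.refl c) hq

end Cond

/-- All the upper parts reachable in at most `k` steps are in `Φ`. -/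
def RC_Psi (Φ : Ω → List Ω → Set (Up Ω X)) : ℕ → Ω → List Ω → Up Ω X → Prop
  | 0, m, s, v => v ∈ Φ m s
  | k + 1, m, s, v => v ∈ Φ m s ∧
    ∀ x, v.OK m x → RC_Psi Φ k (D.kx x) (m :: s) (v.step (m :: s).length x)

lemma RC_open (Φ : Ω → List Ω → Set (Up Ω X))
    (hopen : ∀ m s (v v' : Up Ω X), m ∈ D.W → v.V m → v'.V m → v'.Le m v → v ∈ Φ m s → v' ∈ Φ m s)
    (k : ℕ) : ∀ m s (v v' : Up Ω X), m ∈ D.W → v.V m → v'.V m → v'.Le m v → RC_Psi Φ k m s v →
      RC_Psi Φ k m s v' := by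
  induction k with
  | zero => exact hopen
  | succ k ih =>
    intro m s v v' hm hv hv' hle h
    refine ⟨hopen m s v v' hm hv hv' hle h.1, fun x hx => ?_⟩
    exact ih _ _ _ _ hx.W (hv.step _ (hle.OK hx)) (hv'.step _ hx) (hle.step _ hx)
      (h.2 x (hle.OK hx))

lemma RC_mem (Φ : Ω → List Ω → Set (Up Ω X)) {k : ℕ} {m : Ω} {s : List Ω} {v : Up Ω X}
    (h : RC_Psi Φ k m s v) : v ∈ Φ m s := by
  cases k with
  | zero => exact h
  | succ k => exact h.1

lemma RC_dense (Φ : Ω → List Ω → Set (Up Ω X))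
    (hopen : ∀ m s (v v' : Up Ω X), m ∈ D.W → v.V m → v'.V m → v'.Le m v → v ∈ Φ m s → v' ∈ Φ m s)
    (hdense : ∀ m s (v : Up Ω X), LowV X (m :: s) (Cond.triv (m :: s).length) → v.V m →
      ∃ v' : Up Ω X, v'.V m ∧ v'.Le m v ∧ v' ∈ Φ m s) (k : ℕ) :
    ∀ m s (v : Up Ω X), LowV X (m :: s) (Cond.triv (m :: s).length) → v.V m →
      ∃ v' : Up Ω X, v'.V m ∧ v'.Le m v ∧ RC_Psi Φ k m s v' := by
  induction k with
  | zero => exact hdense
  | succ k ih =>
    intro m s v hl hv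
    obtain ⟨v₁, h1, h2, h3⟩ := hdense m s v hl hv
    obtain ⟨u', g1, g2, -, g4⟩ := combine m (m :: s).length
      (fun m' => {w | RC_Psi Φ k m' (m :: s) w})
      (fun m' hm' _ w w' hw hw' hle h => RC_open Φ hopen k m' (m :: s) w w' hm' hw hw' hle h)
      (fun m' hm' hlt w hw => ih m' (m :: s) w (by
        refine ⟨hm', ?_, Cond.RD_isCol_none (Cond.RD_th_pos _),
          fun a b hab => absurd hab (by simp), hl⟩
        intro a ha
        simp only [List.head?_cons, Option.mem_def, Option.some.injEq] at ha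
        exact ha ▸ hlt) hw) v₁ h1
    exact ⟨u', g1, g2.trans h2, hopen m s v₁ u' hl.mem_W h1 g1 g2 h3, g4⟩

/-- ITERATED COMBINATION. -/
theorem multi (Φ : Ω → List Ω → Set (Up Ω X))
    (hopen : ∀ m s (v v' : Up Ω X), m ∈ D.W → v.V m → v'.V m → v'.Le m v → v ∈ Φ m s → v' ∈ Φ m s)
    (hdense : ∀ m s (v : Up Ω X), LowV X (m :: s) (Cond.triv (m :: s).length) → v.V m →
      ∃ v' : Up Ω X, v'.V m ∧ v'.Le m v ∧ v' ∈ Φ m s)
    (p : Cond Ω X) :
    ∃ (u : Up Ω X) (hu : u.V p.m), u.Le p.m p.u ∧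
      ∀ q, (p.withU u hu).Reach q → q.u ∈ Φ q.m q.s := by
  classical
  have hl : LowV X (p.m :: p.s) (Cond.triv (p.m :: p.s).length) := Cond.low_triv p.low
  have hm : p.m ∈ D.W := p.low.mem_W
  have key : ∀ k, ∀ w : {w : Up Ω X // w.V p.m}, ∃ w' : {w : Up Ω X // w.V p.m},
      w'.1.Le p.m w.1 ∧ RC_Psi Φ k p.m p.s w'.1 := by
    intro k w
    obtain ⟨v', h1, h2, h3⟩ := RC_dense Φ hopen hdense k p.m p.s w.1 hl w.2
    exact ⟨⟨v', h1⟩, h2, h3⟩
  choose nx hnx1 hnx2 using key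
  let sq : ℕ → {w : Up Ω X // w.V p.m} := fun n => Nat.rec ⟨p.u, p.up⟩ (fun k w => nx k w) n
  have hsq : ∀ n, sq (n + 1) = nx n (sq n) := fun n => rfl
  have hstep : ∀ n, (sq (n + 1)).1.Le p.m (sq n).1 := fun n => by
    rw [hsq]
    exact hnx1 _ _
  have hmono : ∀ i j, i < j → (sq j).1.Le p.m (sq i).1 := by
    intro i j hij
    induction j with
    | zero => exact absurd hij (by omega)
    | succ j ih =>
      rcases Nat.lt_succ_iff_lt_or_eq.1 hij with h | h
      · exact (hstep j).trans (ih h)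
      · rw [h]
        exact hstep j
  have hcard : #ℕ ≤ sc 3 (pw p.m) := by
    rw [Cardinal.mk_nat]
    have h1 : ℵ₀ < pw p.m := aleph0_lt_pw hm
    refine h1.le.trans ?_
    exact (le_succ _).trans ((le_succ _).trans (le_succ _))
  obtain ⟨u, hu, hle⟩ := Up.closure hm ℕ hcard (fun n => (sq n).1) (fun n => (sq n).2) hmono
  refine ⟨u, hu, hle 0, ?_⟩
  intro q hq
  have main : ∀ k, RC_Psi Φ k q.m q.s q.u := by
    induction hq with
    | refl =>
      intro k
      refine RC_open Φ hopen k p.m p.s (sq (k + 1)).1 u hm (sq (k + 1)).2 hu (hle (k + 1)) ?_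
      rw [hsq]
      exact hnx2 _ _
    | step q x hx _ ih => exact fun k => (ih (k + 1)).2 x hx
  exact RC_mem Φ (main 0)

end Pool.P2
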