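import Pool.Agent.Lib.MP_ad72f3_p2.Prik
import Pool.Agent.Lib.MP_ad72f3_p2.Reach

/-!
# Names of functions, points, collapses (definitions), density facts
-/

set_option autoImplicit false
set_option linter.unusedSectionVars false

open Cardinal Set Order

namespace Pool.P2

variable {Ω : Type} [LinearOrder Ω] [WellFoundedLT Ω] {X : Type} [D : PD Ω X]

/-- `R` is (the relation `q ⊩ τ(a) = b` of) a name `τ` for a partial function from `A` to `B`,
as seen below `p`. -/
structure FN {A B : Type} (p : Cond Ω X) (R : Cond Ω X → A → B → Prop) : Prop where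
  mono : ∀ q q' a b, q' ≤ q → R q a b → R q' a b
  uniq : ∀ q ≤ p, ∀ a b b', R q a b → R q a b' → b = b'

lemma FN.of_le {A B : Type} {p q : Cond Ω X} {R : Cond Ω X → A → B → Prop} (h : FN p R)
    (hq : q ≤ p) : FN q R := ⟨h.mono, fun q' hq' => h.uniq q' (hq'.trans hq)⟩

namespace Cond

/-- The `k`-th point (in the order of time) of `q`; `q.m` if there is no such point. -/
def pt (q : Cond Ω X) (k : ℕ) : Ω := (q.t.reverse[k]?).getD q.m

/-- The `k`-th collapse (in the order of time) of `q`, from `thk k` onto `2 ^` the `k`-th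
point. -/
def cc (q : Cond Ω X) (k : ℕ) : PF Ω := (q.r.reverse[k]?).getD fun _ => none

/-- The `k`-th collapse starts from this cardinal. -/
noncomputable def thk (q : Cond Ω X) : ℕ → Cardinal.{0}
  | 0 => ℵ₀
  | k + 1 => sc 4 (pw (q.pt k))

/-! ### Lists -/

lemma LowV.length_eq : ∀ {t : List Ω} {r : List (PF Ω)}, LowV X t r → r.length = t.length
  | [], [], _ => rfl
  | [], _ :: _, h => absurd h (by simp [LowV])
  | _ :: _, [], h => absurd h (by simp [LowV])
  | _ :: _, _ :: _, h => by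
    have h1 := LowV.length_eq h.2.2.2.2
    simp only [List.length_cons, h1]

/-- The `k`-th collapse in a lower part, and the possibility to replace it. -/
lemma LowV.split : ∀ {t : List Ω} {r : List (PF Ω)} (_ : LowV X t r) {k : ℕ} (_ : k < t.length),
    ∃ (t₁ t₀ : List Ω) (r₁ r₀ : List (PF Ω)) (m : Ω) (c : PF Ω), t = t₁ ++ m :: t₀ ∧
      r = r₁ ++ c :: r₀ ∧ t₀.length = k ∧ r₀.length = k ∧ m ∈ D.W ∧ IsCol (th t₀) c ∧ BelowC c m ∧
      (∀ a ∈ t₀, a < m) ∧
      ∀ c', IsCol (th t₀) c' → BelowC c' m → LowV X t (r₁ ++ c' :: r₀)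
  | [], _, _, k, hk => absurd hk (by simp)
  | _ :: _, [], h, _, _ => absurd h (by simp [LowV])
  | m :: s, c :: r, h, k, hk => by
    have hlen := LowV.length_eq h.2.2.2.2
    rcases Nat.lt_or_ge k s.length with hks | hks
    · obtain ⟨t₁, t₀, r₁, r₀, m', c', e1, e2, e3, e4, e5, e6, e7, e9, e8⟩ :=
        LowV.split h.2.2.2.2 hks
      refine ⟨m :: t₁, t₀, c :: r₁, r₀, m', c', by rw [e1]; rfl, by rw [e2]; rfl, e3, e4, e5, e6,
        e7, e9, fun c'' h1 h2 => ?_⟩
      exact ⟨h.1, h.2.1, h.2.2.1, h.2.2.2.1, e8 c'' h1 h2⟩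
    · have hk2 : s.length = k := by
        simp only [List.length_cons] at hk
        omega
      refine ⟨[], s, [], r, m, c, rfl, rfl, hk2, by omega, h.1, h.2.2.1, h.2.2.2.1, ?_,
        fun c'' h1 h2 => ⟨h.1, h.2.1, h1, h2, h.2.2.2.2⟩⟩
      intro a ha
      cases s with
      | nil => exact absurd ha (by simp)
      | cons a₀ s' =>
        have h0 : a₀ < m := h.2.1 a₀ (by simp)
        rcases List.mem_cons.1 ha with rfl | ha'
        · exact h0
        · obtain ⟨t₁, t₀, r₁, r₀, m', c', e1, e2, e3, e4, e5, e6, e7, e9, e8⟩ :=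
            LowV.split h.2.2.2.2 (k := s'.length) (by simp)
          have h1 : t₁ = [] := by
            have h2 := congrArg List.length e1
            simp only [List.length_cons, List.length_append] at h2
            exact List.length_eq_zero_iff.1 (by omega)
          rw [h1] at e1
          simp only [List.nil_append, List.cons.injEq] at e1
          obtain ⟨rfl, rfl⟩ := e1
          exact (e9 a ha').trans h0

lemma reverse_get {α : Type} (l₁ l₀ : List α) (a : α) :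
    (l₁ ++ a :: l₀).reverse[l₀.length]? = some a := by
  rw [List.reverse_append, List.reverse_cons, List.append_assoc, List.getElem?_append_right
    (by simp)]
  simp

lemma pt_eq {p : Cond Ω X} {t₁ t₀ : List Ω} {m : Ω} (h : p.t = t₁ ++ m :: t₀) :
    p.pt t₀.length = m := by
  unfold pt
  rw [h, reverse_get]
  rfl

lemma cc_eq {p : Cond Ω X} {r₁ r₀ : List (PF Ω)} {c : PF Ω} (h : p.r = r₁ ++ c :: r₀) :
    p.cc r₀.length = c := by
  unfold cc
  rw [h, reverse_get]
  rfl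

lemma thk_eq {p : Cond Ω X} {t₁ t₀ : List Ω} (h : p.t = t₁ ++ t₀) :
    p.thk t₀.length = th t₀ := by
  cases t₀ with
  | nil => rfl
  | cons a t₀ =>
    change sc 4 (pw (p.pt t₀.length)) = sc 4 (pw a)
    rw [pt_eq h]

/-- The `k`-th point and the `k`-th collapse of a condition. -/
lemma exists_split (p : Cond Ω X) {k : ℕ} (hk : k < p.len) :
    ∃ (t₁ t₀ : List Ω) (r₁ r₀ : List (PF Ω)), p.t = t₁ ++ p.pt k :: t₀ ∧
      p.r = r₁ ++ p.cc k :: r₀ ∧ t₀.length = k ∧ r₀.length = k ∧ p.pt k ∈ D.W ∧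
      p.thk k = th t₀ ∧ IsCol (p.thk k) (p.cc k) ∧ BelowC (p.cc k) (p.pt k) ∧
      (∀ a ∈ t₀, a < p.pt k) ∧
      ∀ c', IsCol (p.thk k) c' → BelowC c' (p.pt k) → LowV X p.t (r₁ ++ c' :: r₀) := by
  obtain ⟨t₁, t₀, r₁, r₀, m', c', e1, e2, e3, e4, e5, e6, e7, e9, e8⟩ :=
    LowV.split (r := p.r) (t := p.t) p.low hk
  have h1 : p.pt k = m' := by rw [← e3]; exact pt_eq e1
  have h2 : p.cc k = c' := by rw [← e4]; exact cc_eq e2
  have h3 : p.thk k = th t₀ := by
    rw [← e3]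
    refine thk_eq (t₁ := t₁ ++ [m']) ?_
    rw [e1]
    simp
  rw [h1, h2, h3]
  exact ⟨t₁, t₀, r₁, r₀, e1, e2, e3, e4, e5, rfl, e6, e7, e9, e8⟩

lemma pt_of_le {p q : Cond Ω X} (h : q ≤ p) {k : ℕ} (hk : k < p.len) : q.pt k = p.pt k := by
  obtain ⟨t₁, t₀, r₁, r₀, e1, e2, e3, -⟩ := p.exists_split hk
  obtain ⟨l, hl⟩ := le_t h
  rw [← e3]
  refine pt_eq (t₁ := l ++ t₁) ?_
  rw [← hl, List.append_assoc, e3]
  congr 1

lemma pt_mem_W (p : Cond Ω X) {k : ℕ} (hk : k < p.len) : p.pt k ∈ D.W := by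
  obtain ⟨t₁, t₀, r₁, r₀, e1, e2, e3, e4, e5, -⟩ := p.exists_split hk
  exact e5

lemma pt_lt_pt (p : Cond Ω X) {k l : ℕ} (hk : k < l) (hl : l < p.len) : p.pt k < p.pt l := by
  obtain ⟨t₁, t₀, r₁, r₀, e1, e2, e3, e4, e5, e6, e7, e8, e9, e10⟩ := p.exists_split hl
  refine e9 _ ?_
  have h1 : k < t₀.length := by omega
  have h2 : p.pt k = t₀.reverse[k]'(by simpa using h1) := by
    unfold pt
    rw [e1, List.reverse_append, List.reverse_cons, List.append_assoc,
      List.getElem?_append_left (by simpa using h1), List.getElem?_eq_getElem (by simpa using h1)]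
    rfl
  rw [h2]
  exact List.mem_reverse.1 (List.getElem_mem _)

lemma pt_last (p : Cond Ω X) : p.pt (p.len - 1) = p.m := by
  have h : p.t = [] ++ p.m :: p.s := rfl
  exact pt_eq h

lemma thk_of_le {p q : Cond Ω X} (h : q ≤ p) {k : ℕ} (hk : k < p.len) : q.thk k = p.thk k := by
  cases k with
  | zero => rfl
  | succ k =>
    change sc 4 (pw (q.pt k)) = sc 4 (pw (p.pt k))
    rw [pt_of_le h (by omega)]

lemma low_length (p : Cond Ω X) : p.r.length = p.len := LowV.length_eq p.low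

lemma cc_get (p : Cond Ω X) {k : ℕ} (hk : k < p.len) :
    p.cc k = p.r.reverse[k]'(by simpa [low_length] using hk) := by
  unfold cc
  rw [List.getElem?_eq_getElem (by simpa [low_length] using hk)]
  rfl

lemma cc_sub {p q : Cond Ω X} (h : q ≤ p) {k : ℕ} (hk : k < p.len) : Sub (p.cc k) (q.cc k) := by
  rw [le_def] at h
  induction h with
  | dir h1 =>
    rename_i q p
    have h2 := List.rel_reverse h1.r
    rw [List.forall₂_iff_get] at h2
    rw [cc_get p hk, cc_get q (by rwa [h1.len])]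
    exact h2.2 k _ _
  | step x hx h1 ih =>
    rename_i q p
    have hl : (p.step x hx).len = p.len + 1 := rfl
    refine Sub.trans ?_ (ih (by omega))
    rw [cc_get p hk, cc_get (p.step x hx) (by omega)]
    have h3 : (p.step x hx).r.reverse = p.r.reverse ++ [push x p.u.c] := by
      change (push x p.u.c :: p.r).reverse = _
      simp
    have h4 : (p.step x hx).r.reverse[k]? = p.r.reverse[k]? := by
      rw [h3, List.getElem?_append_left (by simpa [low_length] using hk)]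
    rw [List.getElem?_eq_getElem (by rw [List.length_reverse, low_length]; omega),
      List.getElem?_eq_getElem (by rw [List.length_reverse, low_length]; omega)] at h4
    rw [Option.some.injEq] at h4
    rw [h4]
    exact Sub.refl _

lemma cc_dom (p : Cond Ω X) {k : ℕ} (hk : k < p.len) {a b : Ω} (h : p.cc k a = some b) :
    crd a < p.thk k ∧ crd b < pw (p.pt k) := by
  obtain ⟨t₁, t₀, r₁, r₀, e1, e2, e3, e4, e5, e6, e7, e8, e9, e10⟩ := p.exists_split hk
  exact ⟨e7.2 a b h, e8 a b h⟩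

lemma thk_le (p : Cond Ω X) {k : ℕ} (hk : k < p.len) : ℵ₀ ≤ p.thk k ∧ p.thk k ≤ D.κ := by
  cases k with
  | zero => exact ⟨le_rfl, D.κ_inacc.1.le⟩
  | succ k =>
    have h1 := aleph0_lt_pw (p.pt_mem_W (k := k) (by omega))
    exact ⟨h1.le.trans (sc_le (i := 0) (j := 4) (by omega) _), (sc_pw_lt_κ _ _).le⟩

/-- Add one value to the `k`-th collapse. -/
lemma exists_upd (p : Cond Ω X) {k : ℕ} (hk : k < p.len) {a b : Ω} (ha : crd a < p.thk k)
    (hb : crd b < pw (p.pt k)) (hc : p.cc k a = none) : ∃ q ≤ p, q.cc k a = some b := by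
  classical
  obtain ⟨t₁, t₀, r₁, r₀, e1, e2, e3, e4, e5, e6, e7, e8, e9, e10⟩ := p.exists_split hk
  have h1 : IsCol (p.thk k) (Function.update (p.cc k) a (some b)) := by
    constructor
    · have h2 : pdom (Function.update (p.cc k) a (some b)) ⊆ insert a (pdom (p.cc k)) := by
        intro a' ha'
        by_cases h3 : a' = a
        · exact Or.inl h3
        · right
          change p.cc k a' ≠ none
          change Function.update (p.cc k) a (some b) a' ≠ none at ha'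
          rwa [Function.update_of_ne h3] at ha'
      refine (mk_le_mk_of_subset h2).trans_lt ?_
      refine mk_insert_le.trans_lt ?_
      exact add_lt_of_lt (p.thk_le hk).1 e7.1 (one_lt_aleph0.trans_le (p.thk_le hk).1)
    · intro a' b' h2
      by_cases h3 : a' = a
      · rwa [h3]
      · rw [Function.update_of_ne h3] at h2
        exact e7.2 a' b' h2
  have h2 : BelowC (Function.update (p.cc k) a (some b)) (p.pt k) := by
    intro a' b' h3
    by_cases h4 : a' = a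
    · rw [h4, Function.update_self, Option.some.injEq] at h3
      rwa [← h3]
    · rw [Function.update_of_ne h4] at h3
      exact e8 a' b' h3
  have hsub : Sub (p.cc k) (Function.update (p.cc k) a (some b)) := by
    intro a' b' h3
    have h4 : a' ≠ a := by
      rintro rfl
      rw [hc] at h3
      exact absurd h3 (by simp)
    rwa [Function.update_of_ne h4]
  have h3 := e10 _ h1 h2
  let q : Cond Ω X := ⟨p.m, p.s, r₁ ++ Function.update (p.cc k) a (some b) :: r₀, p.u, h3, p.up⟩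
  have hq : q.Dle p := by
    refine ⟨rfl, rfl, ?_, Up.Le.refl _ _⟩
    rw [e2]
    exact List.rel_append (List.forall₂_same.2 fun c _ => Sub.refl c)
      (List.Forall₂.cons hsub (List.forall₂_same.2 fun c _ => Sub.refl c))
  refine ⟨q, hq.le, ?_⟩
  have h4 : q.cc k = Function.update (p.cc k) a (some b) := by
    rw [← e4]
    exact cc_eq (p := q) (by rw [e4])
  rw [h4, Function.update_self]

/-- Density: the collapses are total. -/
lemma dense_dom (p : Cond Ω X) {k : ℕ} (hk : k < p.len) {a : Ω} (ha : crd a < p.thk k) :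
    ∃ q ≤ p, ∃ b, q.cc k a = some b := by
  cases hc : p.cc k a with
  | some b => exact ⟨p, le_rfl, b, hc⟩
  | none =>
    have h1 := aleph0_lt_crd (p.pt_mem_W hk)
    have h2 : (Iio (p.pt k)).Nonempty := by
      by_contra h3
      rw [Set.not_nonempty_iff_eq_empty] at h3
      unfold crd at h1
      rw [h3] at h1
      simp at h1
    obtain ⟨b, hb⟩ := h2
    obtain ⟨q, hq, h3⟩ := p.exists_upd hk ha
      ((crd_mono (le_of_lt (show b < p.pt k from hb))).trans_lt (crd_lt_pw _)) hc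
    exact ⟨q, hq, b, h3⟩

/-- Density: the collapses are onto. -/
lemma dense_ran (p : Cond Ω X) {k : ℕ} (hk : k < p.len) {b : Ω}
    (hb : crd b < pw (p.pt k)) : ∃ q ≤ p, ∃ a, q.cc k a = some b := by
  obtain ⟨t₁, t₀, r₁, r₀, e1, e2, e3, e4, e5, e6, e7, e8, e9, e10⟩ := p.exists_split hk
  have h1 : ∃ a, crd a < p.thk k ∧ p.cc k a = none := by
    by_contra hcon
    push Not at hcon
    have h2 : {a : Ω | crd a < p.thk k} ⊆ pdom (p.cc k) := fun a ha => hcon a ha
    have h3 := mk_le_mk_of_subset h2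
    rw [mk_crd_lt_eq (X := X) (p.thk_le hk).2] at h3
    exact absurd e7.1 (not_lt.2 h3)
  obtain ⟨a, ha, hc⟩ := h1
  obtain ⟨q, hq, h3⟩ := p.exists_upd hk ha hb hc
  exact ⟨q, hq, a, h3⟩

/-- `q` decides the value at `k` of the generic function at the coordinate `h`. -/
def Rt (h : Crd Ω X) (q : Cond Ω X) (k : ℕ) (v : Ω) : Prop :=
  ∃ ρ σ, q.u.f h = some (ρ, σ) ∧ σ k = some v

/-- `q` decides that the generic function at the coordinate `h` is undefined at `k`. -/
def Ru (h : Crd Ω X) (q : Cond Ω X) (k : ℕ) : Prop :=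
  ∃ ρ σ, q.u.f h = some (ρ, σ) ∧ σ k = none ∧ k < q.len

lemma Rt.mono {h : Crd Ω X} {p q : Cond Ω X} {k : ℕ} {v : Ω} (hq : q ≤ p) (hR : p.Rt h k v) :
    q.Rt h k v := by
  rw [le_def] at hq
  induction hq with
  | dir h1 =>
    obtain ⟨ρ, σ, e1, e2⟩ := hR
    obtain ⟨ρ', e3, -⟩ := h1.u.f h ρ σ e1
    exact ⟨ρ', σ, e3, e2⟩
  | step x hx h1 ih =>
    rename_i q p
    obtain ⟨ρ, σ, e1, e2⟩ := hR
    refine ih ⟨ρ, updf p.len x h ρ σ, stepf_some e1, ?_⟩
    unfold updf
    split_ifs with h2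
    · have h3 : k ≠ p.len := by
        rintro rfl
        rw [h2.2] at e2
        exact absurd e2 (by simp)
      rw [Function.update_of_ne h3, e2]
    · exact e2

lemma Ru.mono {h : Crd Ω X} {p q : Cond Ω X} {k : ℕ} (hq : q ≤ p) (hR : p.Ru h k) :
    q.Ru h k := by
  rw [le_def] at hq
  induction hq with
  | dir h1 =>
    obtain ⟨ρ, σ, e1, e2, e4⟩ := hR
    obtain ⟨ρ', e3, -⟩ := h1.u.f h ρ σ e1
    exact ⟨ρ', σ, e3, e2, by rwa [h1.len]⟩
  | step x hx h1 ih =>
    rename_i q p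
    obtain ⟨ρ, σ, e1, e2, e4⟩ := hR
    have hl : (p.step x hx).len = p.len + 1 := rfl
    refine ih ⟨ρ, updf p.len x h ρ σ, stepf_some e1, ?_, by omega⟩
    unfold updf
    split_ifs with h2
    · rw [Function.update_of_ne (by omega), e2]
    · exact e2

lemma Rt.uniq {h : Crd Ω X} {q : Cond Ω X} {k : ℕ} {v v' : Ω} (hR : q.Rt h k v)
    (hR' : q.Rt h k v') : v = v' := by
  obtain ⟨ρ, σ, e1, e2⟩ := hR
  obtain ⟨ρ', σ', e1', e2'⟩ := hR'
  rw [e1, Option.some.injEq, Prod.mk.injEq] at e1'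
  obtain ⟨rfl, rfl⟩ := e1'
  rwa [e2, Option.some.injEq] at e2'

lemma Rt.not_Ru {h : Crd Ω X} {q : Cond Ω X} {k : ℕ} {v : Ω} (hR : q.Rt h k v) : ¬ q.Ru h k := by
  rintro ⟨ρ', σ', e1', e2', -⟩
  obtain ⟨ρ, σ, e1, e2⟩ := hR
  rw [e1, Option.some.injEq, Prod.mk.injEq] at e1'
  obtain ⟨rfl, rfl⟩ := e1'
  rw [e2] at e2'
  exact absurd e2' (by simp)

/-- A coordinate in the domain stays in the domain. -/
lemma crd_mono_le {h : Crd Ω X} {p q : Cond Ω X} (hq : q ≤ p) (hR : ∃ ρ σ, p.u.f h = some (ρ, σ)) :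
    ∃ ρ σ, q.u.f h = some (ρ, σ) := by
  rw [le_def] at hq
  induction hq with
  | dir h1 =>
    obtain ⟨ρ, σ, e1⟩ := hR
    obtain ⟨ρ', e3, -⟩ := h1.u.f h ρ σ e1
    exact ⟨ρ', σ, e3⟩
  | step x hx h1 ih =>
    rename_i q p
    obtain ⟨ρ, σ, e1⟩ := hR
    exact ih ⟨ρ, updf p.len x h ρ σ, stepf_some e1⟩

/-- Density: every coordinate is in the domain. -/
lemma dense_crd (p : Cond Ω X) (h : Crd Ω X) :
    ∃ q : Cond Ω X, q.Dle p ∧ ∃ ρ σ, q.u.f h = some (ρ, σ) := by
  classical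
  cases hf : p.u.f h with
  | some z => exact ⟨p, Dle.refl p, z.1, z.2, by rw [hf]⟩
  | none =>
    let u : Up Ω X := ⟨p.u.c, Function.update p.u.f h (some (p.m, fun _ => none)), p.u.A, p.u.F,
      p.u.g, p.u.g'⟩
    have hu : u.V p.m := by
      refine ⟨p.up.hc, ?_, ?_, p.up.hA, p.up.hF, p.up.hg, p.up.hg'⟩
      · intro α ρ σ e
        change Function.update p.u.f h (some (p.m, fun _ => none)) α = _ at e
        by_cases h1 : α = h
        · rw [h1, Function.update_self, Option.some.injEq, Prod.mk.injEq] at e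
          rw [← e.2]
          simp
        · rw [Function.update_of_ne h1] at e
          exact p.up.ff α ρ σ e
      · intro m' hm' hlt
        have h1 : {α | ∃ ρ σ, u.f α = some (ρ, σ) ∧ ρ < m'} ⊆
            insert h {α | ∃ ρ σ, p.u.f α = some (ρ, σ) ∧ ρ < m'} := by
          rintro α ⟨ρ, σ, e, e2⟩
          by_cases h1 : α = h
          · exact Or.inl h1
          · right
            change Function.update p.u.f h (some (p.m, fun _ => none)) α = _ at e
            rw [Function.update_of_ne h1] at e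
            exact ⟨ρ, σ, e, e2⟩
        refine (mk_le_mk_of_subset h1).trans (mk_insert_le.trans ?_)
        have h2 := aleph0_lt_crd (X := X) hm'
        exact (add_le_add_left (p.up.fs m' hm' hlt) 1).trans
          (add_le_of_le h2.le le_rfl (one_le_aleph0.trans h2.le))
    have hle : u.Le p.m p.u := by
      refine ⟨Sub.refl _, ?_, fun x hx _ => hx, fun _ _ _ => Sub.refl _, Sub.refl _, Sub.refl _⟩
      intro α ρ σ e
      refine ⟨ρ, ?_, rfl⟩
      have h1 : α ≠ h := by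
        rintro rfl
        rw [hf] at e
        exact absurd e (by simp)
      change Function.update p.u.f h (some (p.m, fun _ => none)) α = _
      rwa [Function.update_of_ne h1]
    refine ⟨p.withU u hu, withU_dle hu hle, p.m, fun _ => none, ?_⟩
    change Function.update p.u.f h (some (p.m, fun _ => none)) h = _
    rw [Function.update_self]

lemma dense_Rt (p : Cond Ω X) (h : Crd Ω X) (k : ℕ) :
    ∃ q ≤ p, (∃ v, q.Rt h k v) ∨ q.Ru h k := by
  obtain ⟨q₁, h1, h2⟩ := p.dense_crd h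
  obtain ⟨q₂, h3, h4, -⟩ := q₁.exists_len (k + 1) q₁.m
  obtain ⟨ρ, σ, h5⟩ := crd_mono_le h3 h2
  refine ⟨q₂, h3.trans h1.le, ?_⟩
  cases h6 : σ k with
  | some v => exact Or.inl ⟨v, ρ, σ, h5, h6⟩
  | none => exact Or.inr ⟨ρ, σ, h5, h6, by omega⟩

/-- The invariant of one coordinate. -/
def InvC (K : ℕ) (h : Crd Ω X) (q : Cond Ω X) : Prop :=
  ∃ ρ σ, q.u.f h = some (ρ, σ) ∧ (∀ x ∈ q.u.A, q.m < D.kx x → ρ < D.kx x) ∧
    ∀ k, K ≤ k → q.len ≤ k → σ k = none

lemma InvC.dle {K : ℕ} {h : Crd Ω X} {p q : Cond Ω X} (hI : p.InvC K h) (hq : q.Dle p) :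
    q.InvC K h := by
  obtain ⟨ρ, σ, e1, e2, e3⟩ := hI
  obtain ⟨ρ', e4, e5⟩ := hq.u.f h ρ σ e1
  refine ⟨ρ', σ, e4, ?_, fun k h1 h2 => e3 k h1 (by rwa [hq.len] at h2)⟩
  intro x hx hlt
  rw [hq.m] at hlt
  have h1 := e2 x (hq.u.A x hx hlt) hlt
  have h2 : max ρ p.m < D.kx x := max_lt h1 hlt
  rw [← e5] at h2
  exact (max_lt_iff.1 h2).1

lemma InvC.step {K : ℕ} {h : Crd Ω X} {p : Cond Ω X} (hI : p.InvC K h) {x : X}
    (hx : p.u.OK p.m x) : (p.step x hx).InvC K h ∧
      (K ≤ p.len → (p.step x hx).Rt h p.len (h.1 x)) := by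
  obtain ⟨ρ, σ, e1, e2, e3⟩ := hI
  have h1 : (p.step x hx).u.f h = some (ρ, updf p.len x h ρ σ) := stepf_some e1
  refine ⟨⟨ρ, _, h1, ?_, ?_⟩, ?_⟩
  · intro y hy hlt
    exact e2 y hy (hx.lt.trans hlt)
  · intro k hk1 hk2
    have hl : (p.step x hx).len = p.len + 1 := rfl
    unfold updf
    split_ifs with h2
    · rw [Function.update_of_ne (by omega)]
      exact e3 k hk1 (by omega)
    · exact e3 k hk1 (by omega)
  · intro hK
    refine ⟨ρ, _, h1, ?_⟩
    unfold updf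
    rw [if_pos ⟨e2 x hx.A hx.lt, e3 _ hK le_rfl⟩, Function.update_self]

/-- The invariant of two coordinates. -/
def Inv2 (K : ℕ) (B : Set X) (h h' : Crd Ω X) (q : Cond Ω X) : Prop :=
  q.InvC K h ∧ q.InvC K h' ∧ (∀ x ∈ q.u.A, q.m < D.kx x → x ∈ B) ∧
    ∀ k, K ≤ k → k < q.len → ∃ x ∈ B, q.pt k = D.kx x ∧ q.Rt h k (h.1 x) ∧ q.Rt h' k (h'.1 x)

lemma Inv2.le {K : ℕ} {B : Set X} {h h' : Crd Ω X} {p q : Cond Ω X} (hI : p.Inv2 K B h h')
    (hq : q ≤ p) : q.Inv2 K B h h' := by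
  rw [le_def] at hq
  induction hq with
  | dir h1 =>
    obtain ⟨e1, e2, e3, e4⟩ := hI
    refine ⟨e1.dle h1, e2.dle h1, ?_, ?_⟩
    · intro x hx hlt
      rw [h1.m] at hlt
      exact e3 x (h1.u.A x hx hlt) hlt
    · intro k hk1 hk2
      rw [h1.len] at hk2
      obtain ⟨x, h2, h3, h4, h5⟩ := e4 k hk1 hk2
      exact ⟨x, h2, by rw [pt_of_le h1.le hk2, h3], h4.mono h1.le, h5.mono h1.le⟩
  | step x hx h1 ih =>
    rename_i q p
    obtain ⟨e1, e2, e3, e4⟩ := hI
    refine ih ⟨(e1.step hx).1, (e2.step hx).1, ?_, ?_⟩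
    · intro y hy hlt
      exact e3 y hy (hx.lt.trans hlt)
    · intro k hk1 hk2
      have hl : (p.step x hx).len = p.len + 1 := rfl
      rcases Nat.lt_or_ge k p.len with h2 | h2
      · obtain ⟨y, h3, h4, h5, h6⟩ := e4 k hk1 h2
        exact ⟨y, h3, by rw [pt_of_le (step_le p x hx) h2, h4], h5.mono (step_le p x hx),
          h6.mono (step_le p x hx)⟩
      · have h3 : k = p.len := by omega
        subst h3
        refine ⟨x, e3 x hx.A hx.lt, ?_, (e1.step hx).2 hk1, (e2.step hx).2 hk1⟩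
        exact pt_last (p.step x hx)

/-- THE CORE LEMMA: from some point on the values of two generic functions are `h x`, `h' x`. -/
lemma exists_core (p : Cond Ω X) (h h' : Crd Ω X) {B : Set X} (hB : B ∈ D.U) :
    ∃ q ≤ p, ∃ K, ∀ q' ≤ q, ∀ k, K ≤ k → k < q'.len →
      ∃ x ∈ B, q'.pt k = D.kx x ∧ q'.Rt h k (h.1 x) ∧ q'.Rt h' k (h'.1 x) := by
  obtain ⟨p₁, h1, h2⟩ := p.dense_crd h
  obtain ⟨p₂, h3, ρ', σ', h4⟩ := p₁.dense_crd h'
  obtain ⟨ρ, σ, h5⟩ := crd_mono_le h3.le h2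
  have f1 := p₂.up.ff _ _ _ h5
  have f2 := p₂.up.ff _ _ _ h4
  obtain ⟨K₁, hK₁⟩ := f1.bddAbove
  obtain ⟨K₂, hK₂⟩ := f2.bddAbove
  let u : Up Ω X := ⟨p₂.u.c, p₂.u.f, p₂.u.A ∩ (B ∩ {x | max ρ ρ' < D.kx x}), p₂.u.F,
    p₂.u.g, p₂.u.g'⟩
  have hu : u.V p₂.m := ⟨p₂.up.hc, p₂.up.ff, p₂.up.fs,
    Filter.inter_mem p₂.up.hA (Filter.inter_mem hB (D.unb (max ρ ρ'))), p₂.up.hF,
    p₂.up.hg, p₂.up.hg'⟩
  have hle : u.Le p₂.m p₂.u := ⟨Sub.refl _, fun α ρ σ e => ⟨ρ, e, rfl⟩, fun x hx _ => hx.1,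
    fun _ _ _ => Sub.refl _, Sub.refl _, Sub.refl _⟩
  have hI : (p₂.withU u hu).Inv2 (max p₂.len (max (K₁ + 1) (K₂ + 1))) B h h' := by
    refine ⟨⟨ρ, σ, h5, ?_, ?_⟩, ⟨ρ', σ', h4, ?_, ?_⟩, ?_, ?_⟩
    · intro x hx _
      exact (le_max_left _ _).trans_lt hx.2.2
    · intro k hk _
      by_contra hcon
      have h6 := hK₁ (show k ∈ {n | σ n ≠ none} from hcon)
      simp only [max_le_iff] at hk
      omega
    · intro x hx _
      exact (le_max_right _ _).trans_lt hx.2.2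
    · intro k hk _
      by_contra hcon
      have h6 := hK₂ (show k ∈ {n | σ' n ≠ none} from hcon)
      simp only [max_le_iff] at hk
      omega
    · intro x hx _
      exact hx.2.1
    · intro k hk1 hk2
      exfalso
      change k < p₂.len at hk2
      simp only [max_le_iff] at hk1
      omega
  refine ⟨p₂.withU u hu, (withU_dle hu hle).le.trans (h3.le.trans h1.le), _,
    fun q' hq' k hk1 hk2 => (hI.le hq').2.2.2 k hk1 hk2⟩

/-- If `h x < h' x` for almost all `x` then `t_h < t_h'` from some point on. -/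
lemma t_lt (p : Cond Ω X) (h h' : Crd Ω X) (hlt : ∀ᶠ x in (D.U : Filter X), h.1 x < h'.1 x) :
    ∃ q ≤ p, ∃ K, ∀ q' ≤ q, ∀ k, K ≤ k → k < q'.len →
      ∃ v v', q'.Rt h k v ∧ q'.Rt h' k v' ∧ v < v' := by
  obtain ⟨q, hq, K, hK⟩ := p.exists_core h h' (B := {x | h.1 x < h'.1 x}) hlt
  refine ⟨q, hq, K, fun q' hq' k hk1 hk2 => ?_⟩
  obtain ⟨x, h1, h2, h3, h4⟩ := hK q' hq' k hk1 hk2
  exact ⟨_, _, h3, h4, h1⟩

/-- If `h x = h' x` for almost all `x` then `t_h = t_h'` from some point on. -/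
lemma t_eq (p : Cond Ω X) (h h' : Crd Ω X) (heq : ∀ᶠ x in (D.U : Filter X), h.1 x = h'.1 x) :
    ∃ q ≤ p, ∃ K, ∀ q' ≤ q, ∀ k, K ≤ k → k < q'.len →
      ∃ v, q'.Rt h k v ∧ q'.Rt h' k v := by
  obtain ⟨q, hq, K, hK⟩ := p.exists_core h h' (B := {x | h.1 x = h'.1 x}) heq
  refine ⟨q, hq, K, fun q' hq' k hk1 hk2 => ?_⟩
  obtain ⟨x, h1, h2, h3, h4⟩ := hK q' hq' k hk1 hk2
  refine ⟨_, h3, ?_⟩
  rw [show h.1 x = h'.1 x from h1]
  exact h4

/-- If `h x < (2 ^ κ_x)^{+i}` then `t_h k < (2 ^ κ_k)^{+i}` from some point on. -/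
lemma t_bd (p : Cond Ω X) (h : Crd Ω X) (i : ℕ)
    (hlt : ∀ᶠ x in (D.U : Filter X), crd (h.1 x) < sc i (pw (D.kx x))) :
    ∃ q ≤ p, ∃ K, ∀ q' ≤ q, ∀ k, K ≤ k → k < q'.len →
      ∃ v, q'.Rt h k v ∧ crd v < sc i (pw (q'.pt k)) := by
  obtain ⟨q, hq, K, hK⟩ :=
    p.exists_core h h (B := {x | crd (h.1 x) < sc i (pw (D.kx x))}) hlt
  refine ⟨q, hq, K, fun q' hq' k hk1 hk2 => ?_⟩
  obtain ⟨x, h1, h2, h3, h4⟩ := hK q' hq' k hk1 hk2
  refine ⟨_, h3, ?_⟩
  rw [h2]
  exact h1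

end Cond

end Pool.P2
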