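import Pool.Agent.Lib.MP_ad72f3_p2.CardAux
import Pool.Agent.Lib.MP_ad72f3_p2.Sc

/-!
# The large cardinal hypothesis and the Prikry data, version 2 (no GCH)
-/

set_option autoImplicit false
set_option linter.unusedSectionVars false

open Cardinal Set Order

namespace Pool.P2

namespace Hyp

/-- The ordinals below `δ = (2 ^ κ)⁺`. -/
abbrev S (κ : Cardinal.{0}) : Type := (succ ((2 : Cardinal.{0}) ^ κ)).ord.ToType

/-- The ordinals below `κ`. -/
abbrev O (κ : Cardinal.{0}) : Type := κ.ord.ToType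

/-- `P_κ(δ)`. -/
abbrev X (κ : Cardinal.{0}) : Type := {x : Set (S κ) // #x < κ}

/-- The inclusion of `κ` in `δ`. -/
noncomputable def j (κ : Cardinal.{0}) : O κ ≤i S κ :=
  (Ordinal.type_le_iff.1 (by
    rw [Ordinal.type_toType, Ordinal.type_toType]
    exact ord_le_ord.2 ((cantor κ).le.trans (le_succ _)))).some

lemma mk_O (κ : Cardinal.{0}) : #(O κ) = κ := mk_ord_toType κ

lemma exists_notMem {κ : Cardinal.{0}} (x : X κ) : ∃ a : O κ, j κ a ∉ x.1 := by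
  by_contra hcon
  push Not at hcon
  have h1 : #(O κ) ≤ #x.1 := mk_le_of_injective (f := fun a : O κ => (⟨j κ a, hcon a⟩ : x.1))
    (fun a b hab => (j κ).injective (congrArg Subtype.val hab))
  rw [mk_O] at h1
  exact absurd x.2 (not_lt.2 h1)

/-- A normal fine ultrafilter on the subtype. -/
structure NF (κ : Cardinal.{0}) (U : Ultrafilter (X κ)) : Prop where
  unc : ℵ₀ < κ
  fine : ∀ a : S κ, ∀ᶠ x in (U : Filter (X κ)), a ∈ x.1
  complete : ∀ {Z : Type} (B : Z → Set (X κ)), #Z < κ → (∀ z, B z ∈ U) →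
    ∀ᶠ x in (U : Filter (X κ)), ∀ z, x ∈ B z
  normal : ∀ f : X κ → S κ, (∀ᶠ x in (U : Filter (X κ)), f x ∈ x.1) →
    ∃ a, ∀ᶠ x in (U : Filter (X κ)), f x = a
/-- Task H1. -/
theorem exists_NF {κ : Cardinal.{0}} (h : IsSupercompact κ (succ (2 ^ κ))) :
    ∃ U : Ultrafilter (X κ), NF κ U := by
  classical
  obtain ⟨hκ, S', U, hS', hU⟩ := h
  have hcard : #S' = #(S κ) := by
    rw [hS']
    exact (mk_ord_toType _).symm
  obtain ⟨e⟩ := Cardinal.eq.1 hcard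
  obtain ⟨ret, hret⟩ : ∃ ret : Set S' → X κ, ∀ y : Set S', #y < κ → (ret y).1 = e '' y := by
    refine ⟨fun y => if h : #y < κ then ⟨e '' y, mk_image_le.trans_lt h⟩ else ⟨∅, ?_⟩, ?_⟩
    · rw [mk_eq_zero]
      exact aleph0_pos.trans hκ
    · intro y hy
      simp only [hy, dif_pos]
  refine ⟨U.map ret, hκ, ?_, ?_, ?_⟩
  · intro a
    rw [Ultrafilter.coe_map, Filter.eventually_map]
    filter_upwards [hU.small, hU.fine (e.symm a)] with y h1 h2
    rw [hret y h1]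
    exact ⟨e.symm a, h2, e.apply_symm_apply a⟩
  · intro Z B hZ hB
    rw [Ultrafilter.coe_map, Filter.eventually_map]
    have h1 : ⋂₀ (range fun z => ret ⁻¹' (B z)) ∈ U := by
      refine hU.complete _ (mk_range_le.trans_lt hZ) ?_
      rintro _ ⟨z, rfl⟩
      exact Ultrafilter.mem_map.1 (hB z)
    have h2 : ∀ᶠ y in (U : Filter (Set S')), y ∈ ⋂₀ (range fun z => ret ⁻¹' (B z)) := h1
    filter_upwards [h2] with y hy z
    exact hy _ ⟨z, rfl⟩
  · intro f hf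
    rw [Ultrafilter.coe_map, Filter.eventually_map] at hf
    obtain ⟨a, ha⟩ := hU.normal (fun y => e.symm (f (ret y))) (by
      filter_upwards [hU.small, hf] with y h1 h2
      rw [hret y h1] at h2
      obtain ⟨b, hb, hb'⟩ := h2
      rw [← hb', e.symm_apply_apply]
      exact hb)
    refine ⟨e a, ?_⟩
    rw [Ultrafilter.coe_map, Filter.eventually_map]
    filter_upwards [ha] with y hy
    rw [← hy, e.apply_symm_apply]


/-- The least ordinal not in `x`. -/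
noncomputable def kx {κ : Cardinal.{0}} (x : X κ) : O κ :=
  wellFounded_lt.min {a : O κ | j κ a ∉ x.1} (exists_notMem x)

variable {κ : Cardinal.{0}}


/-- Task H1. -/
lemma mem_of_lt_kx {x : X κ} {a : O κ} (h : a < kx x) : j κ a ∈ x.1 := by
  by_contra hcon
  exact WellFounded.not_lt_min wellFounded_lt (s := {a : O κ | j κ a ∉ x.1}) hcon h

/-- Task H1. -/
lemma kx_notMem (x : X κ) : j κ (kx x) ∉ x.1 :=
  WellFounded.min_mem wellFounded_lt {a : O κ | j κ a ∉ x.1} (exists_notMem x)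


variable {U : Ultrafilter (X κ)}

--BEGIN
namespace H2

lemma crd_mono {a b : O κ} (h : a ≤ b) : crd a ≤ crd b :=
  mk_le_mk_of_subset (Iio_subset_Iio h)

lemma lt_of_crd {a b : O κ} (h : crd a < crd b) : a < b := by
  by_contra hcon
  exact absurd (crd_mono (not_lt.1 hcon)) (not_le.2 h)

lemma crd_lt (a : O κ) : crd a < κ := by
  have h := mk_Iio_lt a (by rw [mk_O, Ordinal.type_toType])
  rwa [mk_O] at h

lemma exists_crd {c : Cardinal.{0}} (h : c < κ) : ∃ b : O κ, crd b = c := by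
  have h1 : c.ord < Ordinal.type (α := O κ) (· < ·) := by
    rw [Ordinal.type_toType]
    exact ord_lt_ord.2 h
  refine ⟨Ordinal.enum (α := O κ) (· < ·) ⟨c.ord, h1⟩, ?_⟩
  have h2 : (Ordinal.typein (α := O κ) (· < ·)
      (Ordinal.enum (α := O κ) (· < ·) ⟨c.ord, h1⟩)).card = c := by
    rw [Ordinal.typein_enum, card_ord]
  exact h2

lemma mk_Iic_lt (h : ℵ₀ < κ) (a : O κ) : #(Iic a) < κ := by
  have h1 : (Iic a : Set (O κ)) = insert a (Iio a) := by
    ext b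
    simp only [mem_Iic, mem_insert_iff, mem_Iio]
    exact le_iff_eq_or_lt
  rw [h1]
  exact lt_of_le_of_lt (mk_insert_le) (add_lt_of_lt h.le (crd_lt a) (lt_of_lt_of_le one_lt_aleph0 h.le))

lemma mk_option_lt (h : ℵ₀ < κ) {Z : Type} (hZ : #Z < κ) : #(Option Z) < κ := by
  rw [mk_option]
  exact add_lt_of_lt h.le hZ (lt_of_lt_of_le one_lt_aleph0 h.le)

lemma exists_of_ev {P : X κ → Prop} (h : ∀ᶠ x in (U : Filter (X κ)), P x) : ∃ x, P x := h.exists

lemma not_ev {P : X κ → Prop} (h : ¬ ∀ᶠ x in (U : Filter (X κ)), P x) :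
    ∀ᶠ x in (U : Filter (X κ)), ¬ P x := Ultrafilter.eventually_not.2 h

end H2

open H2

/-- Task H2. -/
lemma NF.unb (h : NF κ U) (a : O κ) : ∀ᶠ x in (U : Filter (X κ)), a < kx x := by
  have h1 : ∀ᶠ x in (U : Filter (X κ)), ∀ b : Iic a, x ∈ {x : X κ | j κ b ∈ x.1} :=
    h.complete (fun b : Iic a => {x : X κ | j κ b ∈ x.1}) (mk_Iic_lt h.unc a) (fun b => h.fine _)
  filter_upwards [h1] with x hx
  by_contra hcon
  exact kx_notMem x (hx ⟨kx x, not_lt.1 hcon⟩)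

/-- Task H2: regressive functions with values in `κ`. -/
lemma NF.regr (h : NF κ U) (φ : X κ → O κ) (hφ : ∀ᶠ x in (U : Filter (X κ)), φ x < kx x) :
    ∃ a, ∀ᶠ x in (U : Filter (X κ)), φ x = a := by
  have h1 : ∀ᶠ x in (U : Filter (X κ)), j κ (φ x) ∈ x.1 := by
    filter_upwards [hφ] with x hx
    exact mem_of_lt_kx hx
  obtain ⟨b, hb⟩ := h.normal (fun x => j κ (φ x)) h1
  obtain ⟨x₀, hx₀⟩ := hb.exists
  refine ⟨φ x₀, ?_⟩
  filter_upwards [hb] with x hx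
  exact (j κ).injective (hx.trans hx₀.symm)

/-- Task H2: a function with fewer than `κ` values is constant on a large set. -/
lemma NF.const (h : NF κ U) {Z : Type} (hZ : #Z < κ) (φ : X κ → Z) :
    ∃ z, ∀ᶠ x in (U : Filter (X κ)), φ x = z := by
  by_contra hcon
  push Not at hcon
  have h1 : ∀ᶠ x in (U : Filter (X κ)), ∀ z, x ∈ {x : X κ | φ x ≠ z} :=
    h.complete (fun z => {x : X κ | φ x ≠ z}) hZ fun z => hcon z
  obtain ⟨x, hx⟩ := h1.exists
  exact hx (φ x) rfl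

/-- Task H2. -/
lemma NF.regular (h : NF κ U) : κ.IsRegular := by
  refine ⟨h.unc.le, ?_⟩
  by_contra hcon
  rw [not_le, ← Ordinal.cof_toType] at hcon
  obtain ⟨s, hs, hcard⟩ := Order.exists_cof_eq (α := O κ)
  rw [← hcard] at hcon
  choose f hf1 hf2 using fun x : X κ => hs (kx x)
  obtain ⟨z, hz⟩ := h.const hcon (fun x => (⟨f x, hf1 x⟩ : s))
  have h1 := h.unb (z : O κ)
  obtain ⟨x, hx, hx'⟩ := (hz.and h1).exists
  have h2 : f x = z := congrArg Subtype.val hx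
  have h3 := hf2 x
  rw [h2] at h3
  exact absurd hx' (not_lt.2 h3)

/-- Task H2. -/
lemma NF.inacc (h : NF κ U) : κ.IsInaccessible := by
  refine ⟨h.unc, (h.regular).2, ?_⟩
  intro c hc
  by_contra hcon
  rw [not_lt] at hcon
  have hL : #(O κ) ≤ #(Set c.ord.ToType) := by
    rw [mk_set, mk_ord_toType, mk_O]
    exact hcon
  obtain ⟨g⟩ := hL
  have h2 : #Prop < κ := lt_trans (by simp) h.unc
  have h1 : ∀ l : c.ord.ToType, ∃ e : Prop,
      ∀ᶠ x in (U : Filter (X κ)), (l ∈ g (kx x)) = e := fun l => h.const h2 _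
  choose e he using h1
  have h3 : ∀ᶠ x in (U : Filter (X κ)), ∀ l, x ∈ {x : X κ | (l ∈ g (kx x)) = e l} :=
    h.complete _ (by rw [mk_ord_toType]; exact hc) he
  obtain ⟨x₁, hx₁⟩ := h3.exists
  obtain ⟨x, hx, hx'⟩ := (h3.and (h.unb (kx x₁))).exists
  have h4 : g (kx x) = g (kx x₁) := by
    ext l
    have e1 : (l ∈ g (kx x)) = e l := hx l
    have e2 : (l ∈ g (kx x₁)) = e l := hx₁ l
    rw [e1, e2]
  exact absurd hx' (by rw [g.injective h4]; exact lt_irrefl _)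

/-- Task H3: diagonal intersections. -/
lemma NF.diag (h : NF κ U) {Z : Type} (rk : Z → O κ) (B : Z → Set (X κ))
    (hrk : ∀ a : O κ, #{z | rk z < a} < κ) (hB : ∀ z, B z ∈ U) :
    ∀ᶠ x in (U : Filter (X κ)), ∀ z, rk z < kx x → x ∈ B z := by
  classical
  by_contra hcon
  have h1 : ∀ᶠ x in (U : Filter (X κ)), ∃ z, rk z < kx x ∧ x ∉ B z := by
    filter_upwards [not_ev hcon] with x hx
    push Not at hx
    exact hx
  obtain ⟨x₀, z₀, -⟩ := h1.exists
  have h2 : ∀ x : X κ, ∃ z, (∃ z, rk z < kx x ∧ x ∉ B z) → rk z < kx x ∧ x ∉ B z := by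
    intro x
    by_cases hx : ∃ z, rk z < kx x ∧ x ∉ B z
    · obtain ⟨z, hz⟩ := hx
      exact ⟨z, fun _ => hz⟩
    · exact ⟨z₀, fun hx' => absurd hx' hx⟩
  choose z hz using h2
  have h3 : ∀ᶠ x in (U : Filter (X κ)), rk (z x) < kx x ∧ x ∉ B (z x) := by
    filter_upwards [h1] with x hx
    exact hz x hx
  obtain ⟨a, ha⟩ := h.regr (fun x => rk (z x)) (h3.mono fun x hx => hx.1)
  obtain ⟨x₁, hx₁⟩ := (h.unb a).exists
  set b := kx x₁ with hb
  obtain ⟨w, hw⟩ := h.const (mk_option_lt h.unc (hrk b))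
    (fun x => if hx : rk (z x) < b then some (⟨z x, hx⟩ : {z | rk z < b}) else none)
  obtain ⟨x₂, hx₂, hx₂'⟩ := (hw.and ha).exists
  have hlt : rk (z x₂) < b := by
    rw [hx₂']
    exact hx₁
  rw [dif_pos hlt] at hx₂
  have h4 : ∀ᶠ x in (U : Filter (X κ)), z x = z x₂ := by
    filter_upwards [hw, ha] with x hx hx'
    have hlt' : rk (z x) < b := by
      rw [hx']
      exact hx₁
    rw [dif_pos hlt', ← hx₂] at hx
    exact congrArg Subtype.val (Option.some.inj hx)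
  have h5 : ∀ᶠ x in (U : Filter (X κ)), x ∈ B (z x₂) := hB _
  obtain ⟨x, hx, hx', hx''⟩ := (h3.and (h4.and h5)).exists
  apply hx.2
  rw [hx']
  exact hx''

/-- Task H3: diagonal intersections along `δ`. -/
lemma NF.diagS (h : NF κ U) (B : S κ → Set (X κ)) (hB : ∀ z, B z ∈ U) :
    ∀ᶠ x in (U : Filter (X κ)), ∀ z ∈ x.1, x ∈ B z := by
  classical
  by_contra hcon
  have h1 : ∀ᶠ x in (U : Filter (X κ)), ∃ z, z ∈ x.1 ∧ x ∉ B z := by
    filter_upwards [not_ev hcon] with x hx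
    push Not at hx
    exact hx
  obtain ⟨x₀, z₀, -⟩ := h1.exists
  have h2 : ∀ x : X κ, ∃ z, (∃ z, z ∈ x.1 ∧ x ∉ B z) → z ∈ x.1 ∧ x ∉ B z := by
    intro x
    by_cases hx : ∃ z, z ∈ x.1 ∧ x ∉ B z
    · obtain ⟨z, hz⟩ := hx
      exact ⟨z, fun _ => hz⟩
    · exact ⟨z₀, fun hx' => absurd hx' hx⟩
  choose z hz using h2
  have h3 : ∀ᶠ x in (U : Filter (X κ)), z x ∈ x.1 ∧ x ∉ B (z x) := by
    filter_upwards [h1] with x hx
    exact hz x hx
  obtain ⟨a, ha⟩ := h.normal z (h3.mono fun x hx => hx.1)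
  have h5 : ∀ᶠ x in (U : Filter (X κ)), x ∈ B a := hB _
  obtain ⟨x, hx, hx', hx''⟩ := (h3.and (ha.and h5)).exists
  apply hx.2
  rw [hx']
  exact hx''

/-- Task H4: `κ_x` is an inaccessible cardinal. -/
lemma NF.kx_init (h : NF κ U) : ∀ᶠ x in (U : Filter (X κ)), ∀ a < kx x, crd a < crd (kx x) := by
  by_contra hcon
  have h1 : ∀ᶠ x in (U : Filter (X κ)), ∃ a, a < kx x ∧ crd (kx x) ≤ crd a := by
    filter_upwards [not_ev hcon] with x hx
    push Not at hx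
    exact hx
  obtain ⟨x₀, a₀, -⟩ := h1.exists
  have h2 : ∀ x : X κ, ∃ a, (∃ a, a < kx x ∧ crd (kx x) ≤ crd a) →
      a < kx x ∧ crd (kx x) ≤ crd a := by
    intro x
    by_cases hx : ∃ a, a < kx x ∧ crd (kx x) ≤ crd a
    · obtain ⟨z, hz⟩ := hx
      exact ⟨z, fun _ => hz⟩
    · exact ⟨a₀, fun hx' => absurd hx' hx⟩
  choose a ha using h2
  have h3 : ∀ᶠ x in (U : Filter (X κ)), a x < kx x ∧ crd (kx x) ≤ crd (a x) := by
    filter_upwards [h1] with x hx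
    exact ha x hx
  obtain ⟨b, hb⟩ := h.regr a (h3.mono fun x hx => hx.1)
  obtain ⟨c, hc⟩ := exists_crd (κ := κ) (c := succ (crd b))
    ((h.inacc).isSuccLimit.succ_lt (crd_lt b))
  obtain ⟨x, hx, hx', hx''⟩ := (h3.and (hb.and (h.unb c))).exists
  have h4 := hx.2
  rw [hx'] at h4
  have h5 : crd c ≤ crd b := (crd_mono hx''.le).trans h4
  rw [hc] at h5
  exact absurd (lt_succ (crd b)) (not_lt.2 h5)

/-- Task H4. -/
lemma NF.kx_strong (h : NF κ U) : ∀ᶠ x in (U : Filter (X κ)),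
    ∀ a < kx x, (2 : Cardinal.{0}) ^ crd a < crd (kx x) := by
  by_contra hcon
  have h1 : ∀ᶠ x in (U : Filter (X κ)), ∃ a, a < kx x ∧ crd (kx x) ≤ (2 : Cardinal.{0}) ^ crd a := by
    filter_upwards [not_ev hcon] with x hx
    push Not at hx
    exact hx
  obtain ⟨x₀, a₀, -⟩ := h1.exists
  have h2 : ∀ x : X κ, ∃ a, (∃ a, a < kx x ∧ crd (kx x) ≤ (2 : Cardinal.{0}) ^ crd a) →
      a < kx x ∧ crd (kx x) ≤ (2 : Cardinal.{0}) ^ crd a := by
    intro x
    by_cases hx : ∃ a, a < kx x ∧ crd (kx x) ≤ (2 : Cardinal.{0}) ^ crd a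
    · obtain ⟨z, hz⟩ := hx
      exact ⟨z, fun _ => hz⟩
    · exact ⟨a₀, fun hx' => absurd hx' hx⟩
  choose a ha using h2
  have h3 : ∀ᶠ x in (U : Filter (X κ)), a x < kx x ∧ crd (kx x) ≤ (2 : Cardinal.{0}) ^ crd (a x) := by
    filter_upwards [h1] with x hx
    exact ha x hx
  obtain ⟨b, hb⟩ := h.regr a (h3.mono fun x hx => hx.1)
  obtain ⟨c, hc⟩ := exists_crd (κ := κ) (c := succ ((2 : Cardinal.{0}) ^ crd b))
    ((h.inacc).isSuccLimit.succ_lt ((h.inacc).isStrongPrelimit (crd_lt b)))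
  obtain ⟨x, hx, hx', hx''⟩ := (h3.and (hb.and (h.unb c))).exists
  have h4 := hx.2
  rw [hx'] at h4
  have h5 : crd c ≤ (2 : Cardinal.{0}) ^ crd b := (crd_mono hx''.le).trans h4
  rw [hc] at h5
  exact absurd (lt_succ _) (not_lt.2 h5)

namespace H4

lemma type_Iio_eq {m : O κ} (hm : ∀ a < m, crd a < crd m) :
    Ordinal.type (α := Iio m) (· < ·) = (crd m).ord := by
  refine le_antisymm ?_ (ord_le_type _)
  by_contra hcon
  rw [not_le] at hcon
  set a := Ordinal.enum (α := Iio m) (· < ·) ⟨(crd m).ord, hcon⟩ with ha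
  have h1 : (Ordinal.typein (α := Iio m) (· < ·) a).card = crd m := by
    rw [ha, Ordinal.typein_enum, card_ord]
  rw [Ordinal.card_typein] at h1
  have h2 : #{y : Iio m // y < a} ≤ crd (a : O κ) :=
    mk_le_of_injective (f := fun y : {y : Iio m // y < a} => (⟨(y.1 : O κ), y.2⟩ : Iio (a : O κ)))
      (fun y z hyz => by
        have h3 : ((y.1 : Iio m) : O κ) = z.1 := congrArg (fun w : Iio (a : O κ) => (w : O κ)) hyz
        exact Subtype.ext (Subtype.ext h3))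
  rw [h1] at h2
  exact absurd (hm a a.2) (not_lt.2 h2)

lemma exists_cofinal {m : O κ} (hm : ∀ a < m, crd a < crd m) (hinf : ℵ₀ ≤ crd m)
    (hreg : ¬ (crd m).IsRegular) :
    ∃ a < m, ∃ g : O κ → O κ, (∀ c < a, g c < m) ∧ ∀ d < m, ∃ c < a, d ≤ g c := by
  classical
  have h1 : (crd m).ord.cof < crd m := by
    by_contra hcon
    exact hreg ⟨hinf, not_lt.1 hcon⟩
  rw [← type_Iio_eq hm, Ordinal.cof_type] at h1
  obtain ⟨s, hs, hcard⟩ := Order.exists_cof_eq (α := Iio m)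
  rw [← hcard] at h1
  obtain ⟨b, hb⟩ := exists_crd (κ := κ) (h1.trans (crd_lt m))
  have hbm : b < m := lt_of_crd (by rw [hb]; exact h1)
  have h2 : #(Iio b) = #s := hb
  obtain ⟨e⟩ := Cardinal.eq.1 h2
  let g : O κ → O κ := fun c => if hc : c ∈ Iio b then ((e ⟨c, hc⟩ : Iio m) : O κ) else m
  have hg : ∀ c : Iio b, g c = ((e c : Iio m) : O κ) := fun c => dif_pos c.2
  refine ⟨b, hbm, g, ?_, ?_⟩
  · intro c hc
    have h3 := hg ⟨c, hc⟩
    change g c = _ at h3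
    rw [h3]
    exact (e ⟨c, hc⟩ : Iio m).2
  · intro d hd
    obtain ⟨y, hy, hdy⟩ := hs ⟨d, hd⟩
    refine ⟨(e.symm ⟨y, hy⟩ : Iio b), (e.symm ⟨y, hy⟩).2, ?_⟩
    rw [hg, e.apply_symm_apply]
    exact hdy

end H4

open H4

/-- Task H4. -/
lemma NF.kx_regular (h : NF κ U) : ∀ᶠ x in (U : Filter (X κ)), (crd (kx x)).IsRegular := by
  classical
  by_contra hcon
  obtain ⟨b₀, hb₀⟩ := exists_crd (κ := κ) h.unc
  have hinf : ∀ᶠ x in (U : Filter (X κ)), ℵ₀ ≤ crd (kx x) := by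
    filter_upwards [h.unb b₀] with x hx
    rw [← hb₀]
    exact crd_mono hx.le
  let P : X κ → O κ × (O κ → O κ) → Prop := fun x q =>
    q.1 < kx x ∧ (∀ c < q.1, q.2 c < kx x) ∧ ∀ d < kx x, ∃ c < q.1, d ≤ q.2 c
  have h1 : ∀ᶠ x in (U : Filter (X κ)), ∃ q, P x q := by
    filter_upwards [not_ev hcon, hinf, h.kx_init] with x hx hx' hx''
    obtain ⟨a, ha, g, hg1, hg2⟩ := exists_cofinal hx'' hx' hx
    exact ⟨(a, g), ha, hg1, hg2⟩
  have h2 : ∀ x : X κ, ∃ q, (∃ q, P x q) → P x q := by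
    intro x
    by_cases hx : ∃ q, P x q
    · obtain ⟨z, hz⟩ := hx
      exact ⟨z, fun _ => hz⟩
    · exact ⟨(b₀, fun _ => b₀), fun hx' => absurd hx' hx⟩
  choose q hq using h2
  have h3 : ∀ᶠ x in (U : Filter (X κ)), P x (q x) := by
    filter_upwards [h1] with x hx
    exact hq x hx
  obtain ⟨a, ha⟩ := h.regr (fun x => (q x).1) (h3.mono fun x hx => hx.1)
  have h4 : ∀ c : Iio a, ∃ e : O κ, ∀ᶠ x in (U : Filter (X κ)), (q x).2 c = e := by
    intro c
    refine h.regr (fun x => (q x).2 c) ?_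
    filter_upwards [h3, ha] with x hx hx'
    exact hx.2.1 c (by rw [hx']; exact c.2)
  choose e he using h4
  have h5 : ∀ᶠ x in (U : Filter (X κ)), ∀ c : Iio a, x ∈ {x : X κ | (q x).2 c = e c} :=
    h.complete _ (crd_lt a) he
  obtain ⟨x₁, hx₁, hx₁', hx₁''⟩ := (h3.and (ha.and h5)).exists
  obtain ⟨x, ⟨hx, hx'⟩, hx'', hlt⟩ := ((h3.and ha).and (h5.and (h.unb (kx x₁)))).exists
  obtain ⟨c, hc, hle⟩ := hx.2.2 _ hlt
  have hca : c < a := by
    rw [← hx']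
    exact hc
  have e1 : (q x).2 c = e ⟨c, hca⟩ := hx'' ⟨c, hca⟩
  have e2 : (q x₁).2 c = e ⟨c, hca⟩ := hx₁'' ⟨c, hca⟩
  have h6 : (q x₁).2 c < kx x₁ := hx₁.2.1 c (by rw [hx₁']; exact hca)
  rw [e1, ← e2] at hle
  exact absurd h6 (not_lt.2 hle)

/-- Task H4. -/
lemma NF.kx_inacc (h : NF κ U) : ∀ᶠ x in (U : Filter (X κ)), (crd (kx x)).IsInaccessible := by
  obtain ⟨b₀, hb₀⟩ := exists_crd (κ := κ) (c := succ ℵ₀)
    ((h.inacc).isSuccLimit.succ_lt h.unc)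
  filter_upwards [h.kx_regular, h.kx_strong, h.unb b₀] with x h1 h2 h3
  refine ⟨?_, h1.2, ?_⟩
  · refine lt_of_lt_of_le (lt_succ ℵ₀) ?_
    rw [← hb₀]
    exact crd_mono h3.le
  · intro c hc
    obtain ⟨a, ha⟩ := exists_crd (κ := κ) (hc.trans (crd_lt (kx x)))
    rw [← ha]
    exact h2 a (lt_of_crd (by rw [ha]; exact hc))
--END

private lemma Y5_mk_Iio_O (a : O κ) : #(Iio a) < κ := by simpa using mk_Iio_lt a

private lemma Y5_mk_le_of_Iio {α : Type} [LinearOrder α] [WellFoundedLT α] {c : Cardinal.{0}}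
    (h : ∀ a : α, #(Iio a) ≤ c) : #α ≤ succ c := by
  by_contra hcon
  rw [not_le] at hcon
  have h1 : (succ c).ord < Ordinal.type (fun a b : α => a < b) := by
    rw [← not_le]
    intro h2
    have h3 := Ordinal.card_le_card h2
    rw [Ordinal.card_type, card_ord] at h3
    exact absurd hcon (not_lt.2 h3)
  obtain ⟨a, ha⟩ := Ordinal.typein_surj _ h1
  have h2 : #(Iio a) = succ c := by
    have h3 := congrArg Ordinal.card ha
    rw [card_ord] at h3
    exact h3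
  have h4 := h a
  rw [h2] at h4
  exact absurd h4 (not_le.2 (lt_succ c))

/-- Task H5: coding: a subset of `κ_x` chosen for each `x` comes from one subset of `κ`. -/
lemma NF.code (h : NF κ U) (W : X κ → Set (O κ)) :
    ∃ V : Set (O κ), ∀ᶠ x in (U : Filter (X κ)), ∀ a < kx x, a ∈ W x ↔ a ∈ V := by
  refine ⟨{a | ∀ᶠ x in (U : Filter (X κ)), a ∈ W x}, ?_⟩
  refine h.diag (Z := O κ) id
    (fun a => {x | a ∈ W x ↔ a ∈ {a | ∀ᶠ x in (U : Filter (X κ)), a ∈ W x}})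
    (fun a => Y5_mk_Iio_O a) ?_
  intro a
  by_cases ha : ∀ᶠ x in (U : Filter (X κ)), a ∈ W x
  · have h1 : {x | a ∈ W x} ∈ U := ha
    filter_upwards [h1] with x hx
    exact ⟨fun _ => ha, fun _ => hx⟩
  · have h1 : ∀ᶠ x in (U : Filter (X κ)), a ∉ W x := Ultrafilter.eventually_not.2 ha
    have h2 : {x | a ∉ W x} ∈ U := h1
    filter_upwards [h2] with x hx
    exact ⟨fun h3 => absurd h3 hx, fun h3 => absurd h3 ha⟩

/-- A small set of ordinals below a regular cardinal is bounded. -/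
lemma Y6_bound {T : Set (O κ)} {θ : Cardinal.{0}} (hθ : θ.IsRegular) (hθκ : θ < κ)
    (hT : #T < θ) (h : ∀ a ∈ T, crd a < θ) : ∃ b : O κ, crd b < θ ∧ ∀ a ∈ T, a < b := by
  set f : T → Ordinal.{0} := fun a => Ordinal.typein (α := O κ) (· < ·) a.1 with hf
  have h1 : ∀ i, f i + 1 < θ.ord := by
    intro i
    have h2 : f i < θ.ord := lt_ord.2 (by
      rw [hf]
      exact h i.1 i.2)
    exact (isSuccLimit_ord hθ.aleph0_le).succ_lt h2
  have h2 : (⨆ i, f i + 1) < θ.ord :=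
    Ordinal.iSup_lt_of_lt_cof (by rw [hθ.cof_ord]; exact hT) h1
  have h3 : (⨆ i, f i + 1) < Ordinal.type (α := O κ) (· < ·) := by
    rw [Ordinal.type_toType]
    exact h2.trans (ord_lt_ord.2 hθκ)
  refine ⟨Ordinal.enum (α := O κ) (· < ·) ⟨_, h3⟩, ?_, ?_⟩
  · have h4 : crd (Ordinal.enum (α := O κ) (· < ·) ⟨_, h3⟩) = (⨆ i, f i + 1).card := by
      conv_rhs => rw [← Ordinal.typein_enum (α := O κ) (· < ·) h3]
      rfl
    rw [h4]
    exact lt_ord.1 h2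
  · intro a ha
    rw [← Ordinal.typein_lt_typein (α := O κ) (· < ·), Ordinal.typein_enum]
    have h5 : f ⟨a, ha⟩ + 1 ≤ ⨆ i, f i + 1 := le_ciSup (f := fun i => f i + 1)
      Ordinal.bddAbove_of_small ⟨a, ha⟩
    exact (Order.lt_add_one_iff.2 le_rfl).trans_le h5

lemma Y6_sc_pos (i : ℕ) (hi : 1 ≤ i) (c : Cardinal.{0}) : 0 < sc i c := by
  obtain ⟨n, rfl⟩ : ∃ n, i = n + 1 := ⟨i - 1, by omega⟩
  exact bot_lt_succ (sc n c)

lemma Y6_sc_lt {θ : Cardinal.{0}} (hθ : θ.IsInaccessible) {c : Cardinal.{0}} (hc : c < θ) (i : ℕ) :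
    sc i c < θ := by
  induction i with
  | zero => exact hc
  | succ n ih => exact hθ.isSuccLimit.succ_lt ih

lemma Y6_le_sc (i : ℕ) (c : Cardinal.{0}) : c ≤ sc i c := by
  induction i with
  | zero => exact le_rfl
  | succ n ih => exact ih.trans (le_succ _)

lemma Y6_crd_lt (a : O κ) : crd a < κ := by
  have h := mk_Iio_lt a (by rw [mk_O, Ordinal.type_toType])
  rwa [mk_O] at h

/-! ### New lemmas -/

/-- Row H2: `x` has size at most `(2 ^ κ_x)⁺`. -/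
lemma NF.mk_le (h : NF κ U) : ∀ᶠ x in (U : Filter (X κ)), #x.1 ≤ succ (pw (kx x)) := by
  have he : ∀ s : S κ, ∃ e : Iio s → Set (O κ), Function.Injective e := fun s => by
    have h1 : #(Iio s) ≤ 2 ^ κ := by
      have h2 : #(Iio s) < succ ((2 : Cardinal.{0}) ^ κ) := by simpa using mk_Iio_lt s
      exact lt_succ_iff.1 h2
    have h2 : #(Set (O κ)) = 2 ^ κ := by rw [mk_set, mk_ord_toType]
    have h3 : #(Iio s) ≤ #(Set (O κ)) := h1.trans_eq h2.symm
    obtain ⟨e⟩ := h3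
    exact ⟨e, e.injective⟩
  choose e he using he
  have hd : ∀ (s : S κ) (t t' : Iio s), t ≠ t' → ∃ a : O κ, ¬ (a ∈ e s t ↔ a ∈ e s t') := by
    intro s t t' hne
    by_contra hcon
    push Not at hcon
    exact hne (he s (Set.ext hcon))
  have h1 : ∀ s t : S κ, ∀ᶠ x in (U : Filter (X κ)), ∀ t' ∈ x.1, ∀ (ht : t < s) (ht' : t' < s),
      t ≠ t' → ∃ a < kx x, ¬ (a ∈ e s ⟨t, ht⟩ ↔ a ∈ e s ⟨t', ht'⟩) := by
    intro s t
    refine h.diagS (fun t' => {x | ∀ (ht : t < s) (ht' : t' < s), t ≠ t' →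
      ∃ a < kx x, ¬ (a ∈ e s ⟨t, ht⟩ ↔ a ∈ e s ⟨t', ht'⟩)}) (fun t' => ?_)
    by_cases hh : t < s ∧ t' < s ∧ t ≠ t'
    · obtain ⟨ht, ht', hne⟩ := hh
      obtain ⟨a, ha⟩ := hd s ⟨t, ht⟩ ⟨t', ht'⟩ (fun h5 => hne (congrArg Subtype.val h5))
      filter_upwards [h.unb a] with x hx _ _ _
      exact ⟨a, hx, ha⟩
    · filter_upwards with x ht ht' hne
      exact absurd ⟨ht, ht', hne⟩ hh
  have h2 : ∀ s : S κ, ∀ᶠ x in (U : Filter (X κ)), ∀ t ∈ x.1, ∀ t' ∈ x.1,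
      ∀ (ht : t < s) (ht' : t' < s),
      t ≠ t' → ∃ a < kx x, ¬ (a ∈ e s ⟨t, ht⟩ ↔ a ∈ e s ⟨t', ht'⟩) := by
    intro s
    exact h.diagS (fun t => {x | ∀ t' ∈ x.1, ∀ (ht : t < s) (ht' : t' < s),
      t ≠ t' → ∃ a < kx x, ¬ (a ∈ e s ⟨t, ht⟩ ↔ a ∈ e s ⟨t', ht'⟩)}) (h1 s)
  have h3 := h.diagS (fun s => {x | ∀ t ∈ x.1, ∀ t' ∈ x.1, ∀ (ht : t < s) (ht' : t' < s),
      t ≠ t' → ∃ a < kx x, ¬ (a ∈ e s ⟨t, ht⟩ ↔ a ∈ e s ⟨t', ht'⟩)}) h2
  filter_upwards [h3] with x hx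
  apply Y5_mk_le_of_Iio
  rintro ⟨s, hs⟩
  have h4 : ∀ t : Iio (⟨s, hs⟩ : x.1), t.1.1 < s := fun t => t.2
  have h5 : #(Set (Iio (kx x))) = pw (kx x) := by
    rw [mk_set]
    rfl
  rw [← h5]
  refine mk_le_of_injective (f := fun t : Iio (⟨s, hs⟩ : x.1) =>
    ({a : Iio (kx x) | a.1 ∈ e s ⟨t.1.1, h4 t⟩} : Set (Iio (kx x)))) ?_
  intro t t' htt
  by_contra hne
  have h6 : t.1.1 ≠ t'.1.1 := fun h7 => hne (Subtype.ext (Subtype.ext h7))
  obtain ⟨a, ha, hna⟩ := hx s hs t.1.1 t.1.2 t'.1.1 t'.1.2 (h4 t) (h4 t') h6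
  have h7 := Set.ext_iff.1 htt ⟨a, ha⟩
  exact hna h7

/-- Row H3: `x` has size at least `(2 ^ κ_x)⁺`. -/
lemma NF.le_mk (h : NF κ U) : ∀ᶠ x in (U : Filter (X κ)), succ (pw (kx x)) ≤ #x.1 := by
  by_contra hcon
  have h1 : ∀ᶠ x in (U : Filter (X κ)), #x.1 ≤ pw (kx x) := by
    filter_upwards [Ultrafilter.eventually_not.2 hcon] with x hx
    exact lt_succ_iff.1 (not_le.1 hx)
  have hemb : ∀ x : X κ, #x.1 ≤ pw (kx x) → Nonempty (x.1 ↪ Set (Iio (kx x))) := by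
    intro x hx
    rw [← Cardinal.le_def, mk_set]
    exact hx
  have h2 : ∀ s : S κ, ∃ V : Set (O κ), ∀ᶠ x in (U : Filter (X κ)), ∀ a < kx x,
      (∃ (hx : #x.1 ≤ pw (kx x)) (hs : s ∈ x.1) (ha : a < kx x),
        (⟨a, ha⟩ : Iio (kx x)) ∈ (hemb x hx).some ⟨s, hs⟩) ↔ a ∈ V := fun s =>
    h.code (fun x => {a | ∃ (hx : #x.1 ≤ pw (kx x)) (hs : s ∈ x.1) (ha : a < kx x),
        (⟨a, ha⟩ : Iio (kx x)) ∈ (hemb x hx).some ⟨s, hs⟩})
  choose V hV using h2
  have hinj : Function.Injective V := by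
    intro s s' hss
    obtain ⟨x, hx, hs, hs', h3, h4⟩ :=
      (h1.and ((h.fine s).and ((h.fine s').and ((hV s).and (hV s'))))).exists
    have h5 : (hemb x hx).some ⟨s, hs⟩ = (hemb x hx).some ⟨s', hs'⟩ := by
      ext ⟨a, ha⟩
      have h6 := h3 a ha
      have h7 := h4 a ha
      rw [hss] at h6
      constructor
      · intro h8
        obtain ⟨_, _, _, h9⟩ := h7.2 (h6.1 ⟨hx, hs, ha, h8⟩)
        exact h9
      · intro h8
        obtain ⟨_, _, _, h9⟩ := h6.2 (h7.1 ⟨hx, hs', ha, h8⟩)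
        exact h9
    exact congrArg Subtype.val ((hemb x hx).some.injective h5)
  have h3 : #(S κ) ≤ #(Set (O κ)) := mk_le_of_injective hinj
  rw [mk_set, mk_O, mk_ord_toType] at h3
  exact absurd h3 (not_le.2 (lt_succ _))

/-- Row H4: if the power set of `κ` is embedded in a set of ordinals, then this set has at least
`2 ^ κ_x` elements in `x`. -/
lemma NF.pow_le (h : NF κ U) (g : Set (O κ) → S κ) (hg : Function.Injective g) :
    ∀ᶠ x in (U : Filter (X κ)), pw (kx x) ≤ #{t : S κ // t ∈ x.1 ∧ t ∈ range g} := by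
  have h4 : ∀ᶠ x in (U : Filter (X κ)), ∀ Y : Set (O κ),
      ∃ B : Set (O κ), g B ∈ x.1 ∧ ∀ a < kx x, a ∈ B ↔ a ∈ Y := by
    by_contra hcon
    have h5 : ∀ᶠ x in (U : Filter (X κ)), ∃ Y : Set (O κ),
        ∀ B : Set (O κ), g B ∈ x.1 → ¬ ∀ a < kx x, a ∈ B ↔ a ∈ Y := by
      filter_upwards [Ultrafilter.eventually_not.2 hcon] with x hx
      by_contra h6
      refine hx fun Y => ?_
      by_contra h7
      exact h6 ⟨Y, fun B hB hall => h7 ⟨B, hB, hall⟩⟩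
    classical
    let W : X κ → Set (O κ) := fun x =>
      if hx : ∃ Y : Set (O κ), ∀ B : Set (O κ), g B ∈ x.1 → ¬ ∀ a < kx x, a ∈ B ↔ a ∈ Y
        then hx.choose else ∅
    obtain ⟨V, hV⟩ := h.code W
    obtain ⟨x, hx1, hx2, hx3⟩ := (h5.and (hV.and (h.fine (g V)))).exists
    have h7 : W x = hx1.choose := dif_pos hx1
    refine hx1.choose_spec V hx3 fun a ha => ?_
    rw [← h7]
    exact (hx2 a ha).symm
  filter_upwards [h4] with x hx
  have h5 : ∀ Y : Set (Iio (kx x)), ∃ t : {t : S κ // t ∈ x.1 ∧ t ∈ range g},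
      ∃ B : Set (O κ), g B = t.1 ∧ ∀ a : Iio (kx x), a.1 ∈ B ↔ a ∈ Y := by
    intro Y
    obtain ⟨B, hB, h6⟩ := hx (Subtype.val '' Y)
    refine ⟨⟨g B, hB, B, rfl⟩, B, rfl, fun a => ?_⟩
    rw [h6 a.1 a.2]
    constructor
    · rintro ⟨b, hb, hba⟩
      rwa [← Subtype.ext hba]
    · exact fun ha => ⟨a, ha, rfl⟩
  choose t B hB1 hB2 using h5
  have h6 : #(Set (Iio (kx x))) ≤ #{t : S κ // t ∈ x.1 ∧ t ∈ range g} :=
    mk_le_of_injective (f := t) (by
      intro Y Y' hYY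
      have h7 : B Y = B Y' := hg (by rw [hB1, hB1, hYY])
      ext a
      rw [← hB2 Y a, ← hB2 Y' a, h7])
  rwa [mk_set] at h6

lemma pi_aux (x : X κ) (s : S κ) :
    Ordinal.type (α := {t : S κ // t ∈ x.1 ∧ t < s}) (· < ·) <
      Ordinal.type (α := O κ) (· < ·) := by
  rw [Ordinal.type_toType, Cardinal.lt_ord, Ordinal.card_type]
  refine lt_of_le_of_lt ?_ x.2
  exact mk_le_of_injective (f := fun t : {t : S κ // t ∈ x.1 ∧ t < s} => (⟨t.1, t.2.1⟩ : x.1))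
    (fun a b hab => Subtype.ext (congrArg (fun z : x.1 => z.1) hab))

/-- The order type of `x ∩ s`. -/
noncomputable def pi (x : X κ) (s : S κ) : O κ :=
  Ordinal.enum (α := O κ) (· < ·)
    ⟨Ordinal.type (α := {t : S κ // t ∈ x.1 ∧ t < s}) (· < ·), pi_aux x s⟩

lemma typein_pi (x : X κ) (s : S κ) : Ordinal.typein (α := O κ) (· < ·) (pi x s) =
    Ordinal.type (α := {t : S κ // t ∈ x.1 ∧ t < s}) (· < ·) :=
  Ordinal.typein_enum (α := O κ) (· < ·) (pi_aux x s)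

lemma crd_pi (x : X κ) (s : S κ) : crd (pi x s) = #{t : S κ // t ∈ x.1 ∧ t < s} := by
  have h := congrArg Ordinal.card (typein_pi x s)
  rw [Ordinal.card_type] at h
  exact h

namespace H5

/-- an element of `x` at a given position -/
lemma exists_pos {x : X κ} {φ : O κ} (h : crd φ < #x.1) :
    ∃ s ∈ x.1, φ = pi x s := by
  have h1 : Ordinal.typein (α := O κ) (· < ·) φ < Ordinal.type (α := x.1) (· < ·) := by
    refine lt_of_lt_of_le ?_ (ord_le_type (α := x.1) (· < ·))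
    rw [lt_ord]
    exact h
  obtain ⟨a, ha⟩ := Ordinal.typein_surj _ h1
  refine ⟨a.1, a.2, ?_⟩
  refine Ordinal.typein_injective (α := O κ) (· < ·) ?_
  rw [typein_pi, ← ha, ← Ordinal.type_subrel, Ordinal.type_eq]
  exact ⟨{ toFun := fun y => ⟨y.1.1, y.1.2, y.2⟩
           invFun := fun t => ⟨⟨t.1, t.2.1⟩, t.2.2⟩
           left_inv := fun _ => rfl
           right_inv := fun _ => rfl
           map_rel_iff' := Iff.rfl }⟩

end H5

/-- Row H5: if `φ x` is below the order type of `x` for almost all `x`, then there is `s` with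
`φ x = pi x s`. -/
lemma NF.codePi (h : NF κ U) (φ : X κ → O κ)
    (hφ : ∀ᶠ x in (U : Filter (X κ)), crd (φ x) < succ (pw (kx x))) :
    ∃ s : S κ, ∀ᶠ x in (U : Filter (X κ)), φ x = pi x s := by
  classical
  have h1 : ∀ᶠ x in (U : Filter (X κ)), ∃ s ∈ x.1, φ x = pi x s := by
    filter_upwards [hφ, h.le_mk] with x h2 h3
    exact H5.exists_pos (h2.trans_le h3)
  obtain ⟨x₀, s₀, -⟩ := h1.exists
  have h2 : ∀ x : X κ, ∃ s, (∃ s ∈ x.1, φ x = pi x s) → s ∈ x.1 ∧ φ x = pi x s := by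
    intro x
    by_cases hx : ∃ s ∈ x.1, φ x = pi x s
    · obtain ⟨s, hs⟩ := hx
      exact ⟨s, fun _ => hs⟩
    · exact ⟨s₀, fun hx' => absurd hx' hx⟩
  choose s hs using h2
  have h3 : ∀ᶠ x in (U : Filter (X κ)), s x ∈ x.1 ∧ φ x = pi x (s x) := by
    filter_upwards [h1] with x hx
    exact hs x hx
  obtain ⟨a, ha⟩ := h.normal s (h3.mono fun x hx => hx.1)
  refine ⟨a, ?_⟩
  filter_upwards [h3, ha] with x hx hx'
  rw [← hx']
  exact hx.2

/-- Row H6. -/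
lemma NF.pi_lt (h : NF κ U) (t : S κ) (ht : crd t < (2 : Cardinal.{0}) ^ κ) :
    ∀ᶠ x in (U : Filter (X κ)), crd (pi x t) < pw (kx x) := by
  classical
  by_contra hcon
  have h1 : ∀ᶠ x in (U : Filter (X κ)),
      Nonempty (Set (Iio (kx x)) ↪ {s : S κ // s ∈ x.1 ∧ s < t}) := by
    filter_upwards [not_ev hcon] with x hx
    rw [not_lt, crd_pi] at hx
    have h2 : #(Set (Iio (kx x))) ≤ #{s : S κ // s ∈ x.1 ∧ s < t} := by
      rw [mk_set]
      exact hx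
    exact h2
  obtain ⟨x₀, ⟨e₀⟩⟩ := h1.exists
  have h2 : ∀ x : X κ, ∃ e : Set (Iio (kx x)) → S κ,
      Nonempty (Set (Iio (kx x)) ↪ {s : S κ // s ∈ x.1 ∧ s < t}) →
        Function.Injective e ∧ ∀ A, e A ∈ x.1 ∧ e A < t := by
    intro x
    by_cases hx : Nonempty (Set (Iio (kx x)) ↪ {s : S κ // s ∈ x.1 ∧ s < t})
    · obtain ⟨e⟩ := hx
      exact ⟨fun A => (e A).1, fun _ => ⟨fun A B hAB => e.injective (Subtype.ext hAB),
        fun A => (e A).2⟩⟩
    · exact ⟨fun _ => t, fun hx' => absurd hx' hx⟩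
  choose e he using h2
  have h3 : ∀ᶠ x in (U : Filter (X κ)), Function.Injective (e x) ∧ ∀ A, e x A ∈ x.1 ∧ e x A < t := by
    filter_upwards [h1] with x hx
    exact he x hx
  have h4 : ∀ A : Set (O κ), ∃ γ : S κ,
      ∀ᶠ x in (U : Filter (X κ)), e x {y : Iio (kx x) | (y : O κ) ∈ A} = γ := by
    intro A
    refine h.normal (fun x => e x {y : Iio (kx x) | (y : O κ) ∈ A}) ?_
    filter_upwards [h3] with x hx
    exact (hx.2 _).1
  choose γ hγ using h4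
  have h5 : ∀ A, γ A < t := by
    intro A
    obtain ⟨x, hx, hx'⟩ := (h3.and (hγ A)).exists
    rw [← hx']
    exact (hx.2 _).2
  have h6 : Function.Injective fun A : Set (O κ) => (⟨γ A, h5 A⟩ : Iio t) := by
    intro A A' hAA
    have h7 : γ A = γ A' := congrArg Subtype.val hAA
    ext a
    obtain ⟨x, ⟨hx, hax⟩, hx1, hx2⟩ := ((h3.and (h.unb a)).and ((hγ A).and (hγ A'))).exists
    have h8 := hx.1 (hx1.trans (h7.trans hx2.symm))
    have h9 := Set.ext_iff.1 h8 ⟨a, hax⟩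
    exact h9
  have h7 : #(Set (O κ)) ≤ crd t := mk_le_of_injective h6
  rw [mk_set, mk_O] at h7
  exact absurd ht (not_lt.2 h7)

/-- Row H7 (from H4). -/
lemma NF.le_pi (h : NF κ U) (s : S κ) (hs : (2 : Cardinal.{0}) ^ κ ≤ crd s) :
    ∀ᶠ x in (U : Filter (X κ)), pw (kx x) ≤ crd (pi x s) := by
  have h1 : #(Set (O κ)) ≤ #(Iio s) := by
    rw [mk_set, mk_O]
    exact hs
  obtain ⟨g⟩ := h1
  have h2 := h.pow_le (fun A => (g A : S κ)) (fun A B hAB => g.injective (Subtype.ext hAB))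
  filter_upwards [h2] with x hx
  rw [crd_pi]
  refine hx.trans (mk_le_of_injective (f := fun t : {t : S κ // t ∈ x.1 ∧ t ∈ range
    (fun A => (g A : S κ))} => (⟨t.1, t.2.1, by
      obtain ⟨A, hA⟩ := t.2.2
      rw [← hA]
      exact (g A).2⟩ : {t : S κ // t ∈ x.1 ∧ t < s})) ?_)
  intro a b hab
  exact Subtype.ext (congrArg (fun z : {t : S κ // t ∈ x.1 ∧ t < s} => z.1) hab)

open Classical in
/-- The truncated order type of `x ∩ s`. -/
noncomputable def piS (x : X κ) (s : S κ) : O κ :=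
  if crd (pi x s) < sc 1 (pw (kx x)) then pi x s else kx x

lemma piS_lt (x : X κ) (s : S κ) : crd (piS x s) < sc 1 (pw (kx x)) := by
  unfold piS
  split_ifs with h
  · exact h
  · exact (cantor _).trans (lt_succ _)

/-- The ordinals below `2 ^ κ`. -/
abbrev T (κ : Cardinal.{0}) : Type := {s : S κ // crd s < (2 : Cardinal.{0}) ^ κ}

/-- Row H8. -/
lemma mk_T : #(T κ) ≤ 2 ^ κ :=
  mk_crd_lt (Ω := S κ) ((2 : Cardinal.{0}) ^ κ)

/-- Row H9. -/
lemma NF.bound2 (h : NF κ U) {ι : Type} (hT : #ι ≤ succ (2 ^ κ)) (i : ℕ) (hi : 2 ≤ i)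
    (g : ι → X κ → O κ)
    (hg : ∀ s, ∀ᶠ x in (U : Filter (X κ)), crd (g s x) < sc i (pw (kx x))) :
    ∃ g' : X κ → O κ, (∀ x, crd (g' x) < sc i (pw (kx x))) ∧
      ∀ s, ∀ᶠ x in (U : Filter (X κ)), g s x < g' x := by
  obtain ⟨n, rfl⟩ : ∃ n, i = n + 2 := ⟨i - 2, by omega⟩
  have hκ := h.inacc
  have hne : Nonempty (O κ) := by
    rw [← mk_ne_zero_iff, mk_O]
    exact hκ.ne_zero
  obtain ⟨e⟩ : Nonempty (ι ↪ S κ) := by
    rw [← Cardinal.le_def, mk_ord_toType]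
    exact hT
  have hbot : ∃ b : O κ, ∀ c, crd b < sc (n + 2) c := by
    obtain ⟨b, hb⟩ : ∃ b : O κ, ∀ a, ¬ a < b :=
      ⟨wellFounded_lt.min univ univ_nonempty, fun a => wellFounded_lt.not_lt_min univ trivial⟩
    refine ⟨b, fun c => ?_⟩
    have h0 : crd b = 0 := by
      rw [crd, mk_eq_zero_iff]
      exact ⟨fun z => hb z.1 z.2⟩
    rw [h0]
    exact Y6_sc_pos _ (by omega) c
  obtain ⟨b₀, hb₀⟩ := hbot
  have key : ∀ x : X κ, #x.1 ≤ succ (pw (kx x)) → (crd (kx x)).IsInaccessible →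
      ∃ b : O κ, crd b < sc (n + 2) (pw (kx x)) ∧
        ∀ s, e s ∈ x.1 → crd (g s x) < sc (n + 2) (pw (kx x)) → g s x < b := by
    intro x hx1 hx2
    have hpw : pw (kx x) < κ := hκ.isStrongPrelimit (Y6_crd_lt _)
    have hreg : (sc (n + 2) (pw (kx x))).IsRegular :=
      isRegular_succ (hx2.aleph0_lt.le.trans ((cantor _).le.trans (Y6_le_sc (n + 1) _)))
    have hlt : sc (n + 2) (pw (kx x)) < κ := Y6_sc_lt hκ hpw _
    have hT1 : #((fun s => g s x) '' {s | e s ∈ x.1 ∧ crd (g s x) < sc (n + 2) (pw (kx x))} :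
        Set (O κ)) < sc (n + 2) (pw (kx x)) := by
      refine mk_image_le.trans_lt ?_
      have h1 : #{s | e s ∈ x.1 ∧ crd (g s x) < sc (n + 2) (pw (kx x))} ≤ #x.1 := by
        refine mk_le_of_injective (f := fun s => (⟨e s.1, s.2.1⟩ : x.1)) ?_
        intro a b hab
        exact Subtype.ext (e.injective (congrArg (fun z : x.1 => z.1) hab))
      refine (h1.trans hx1).trans_lt ?_
      refine (lt_succ (succ (pw (kx x)))).trans_le ?_
      exact succ_le_succ (succ_le_succ (Y6_le_sc n _))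
    have hT2 : ∀ a ∈ ((fun s => g s x) '' {s | e s ∈ x.1 ∧
        crd (g s x) < sc (n + 2) (pw (kx x))} : Set (O κ)), crd a < sc (n + 2) (pw (kx x)) := by
      rintro a ⟨s, ⟨-, hs⟩, rfl⟩
      exact hs
    obtain ⟨b, hb1, hb2⟩ := Y6_bound hreg hlt hT1 hT2
    exact ⟨b, hb1, fun s hs1 hs2 => hb2 _ ⟨s, ⟨hs1, hs2⟩, rfl⟩⟩
  classical
  refine ⟨fun x => if hx : #x.1 ≤ succ (pw (kx x)) ∧ (crd (kx x)).IsInaccessible then
    (key x hx.1 hx.2).choose else b₀, fun x => ?_, fun s => ?_⟩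
  · by_cases hx : #x.1 ≤ succ (pw (kx x)) ∧ (crd (kx x)).IsInaccessible
    · simp only [dif_pos hx]
      exact (key x hx.1 hx.2).choose_spec.1
    · simp only [dif_neg hx]
      exact hb₀ _
  · filter_upwards [h.mk_le, h.kx_inacc, h.fine (e s), hg s] with x hx1 hx2 hx3 hx4
    have hx : #x.1 ≤ succ (pw (kx x)) ∧ (crd (kx x)).IsInaccessible := ⟨hx1, hx2⟩
    simp only [dif_pos hx]
    exact (key x hx.1 hx.2).choose_spec.2 s hx3 hx4

end Hyp

/-- The Prikry data. -/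
theorem exists_PD {κ : Cardinal.{0}} (h : IsSupercompact κ (succ (2 ^ κ))) :
    ∃ (Ω X : Type) (_ : LinearOrder Ω) (_ : WellFoundedLT Ω) (D : PD Ω X), D.κ = κ := by
  obtain ⟨U, hU⟩ := Hyp.exists_NF h
  have hS : ∀ φ : Hyp.X κ → Hyp.O κ, (∀ᶠ x in (U : Filter (Hyp.X κ)),
      crd (φ x) < sc 1 (pw (Hyp.kx x))) → ∃ s : Hyp.S κ, ∀ᶠ x in (U : Filter (Hyp.X κ)),
      φ x = Hyp.pi x s := fun φ hφ => hU.codePi φ hφ
  refine ⟨Hyp.O κ, Hyp.X κ, inferInstance, inferInstance,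
    { κ := κ
      U := U
      kx := Hyp.kx
      W := {m | (∀ a < m, crd a < crd m) ∧ (crd m).IsInaccessible}
      T := Hyp.T κ
      piT := fun x t => Hyp.pi x t.1
      S := Hyp.S κ
      piS := Hyp.piS
      κ_inacc := hU.inacc
      mk_Ω := Hyp.mk_O κ
      crd_lt := Hyp.Y6_crd_lt
      mk_T := Hyp.mk_T
      mk_S := mk_ord_toType _
      W_init := fun m hm => hm.1
      W_inacc := fun m hm => hm.2
      kx_W := ?_
      unb := hU.unb
      diag := hU.diag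
      piT_lt := fun t => hU.pi_lt t.1 t.2
      codeT := ?_
      piS_lt := fun s x => Hyp.piS_lt x s
      codeS := ?_
      bound2 := fun hS i hi g hg => hU.bound2 hS i hi g hg }, rfl⟩
  · filter_upwards [hU.kx_init, hU.kx_inacc] with x h4 h5
    exact ⟨h4, h5⟩
  · intro φ hφ
    obtain ⟨s, hs⟩ := hS φ (hφ.mono fun x hx => hx.trans_le (le_succ _))
    have h1 : crd s < (2 : Cardinal.{0}) ^ κ := by
      by_contra hcon
      obtain ⟨x, h2, h3, h4⟩ := (hφ.and (hs.and (hU.le_pi s (not_lt.1 hcon)))).exists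
      rw [h3] at h2
      exact absurd h2 (not_lt.2 h4)
    exact ⟨⟨s, h1⟩, hs⟩
  · intro φ hφ
    obtain ⟨s, hs⟩ := hS φ hφ
    refine ⟨s, ?_⟩
    filter_upwards [hφ, hs] with x h2 h3
    unfold Hyp.piS
    rw [h3] at h2
    rw [if_pos h2, h3]

end Pool.P2
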